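import Pool.Agent.PPH.Univ

/-!
# Collapse from finite generation, and from advice (Karp-Lipton, Yap)
-/

namespace Pool.Agent.PPH

open Pool.Agent.PPS

variable {α β γ δ : Type} [Rep α] [Rep β] [Rep γ] [Rep δ]

/-! ### Finite generation implies collapse -/

/-- Bijections of a level. -/
def BL (k : ℕ) : Subgroup (Equiv.Perm Om) where
  carrier := {g | FS (k + 1) (g : Om → Om) ∧ FS (k + 1) (g⁻¹ : Equiv.Perm Om)}
  one_mem' := ⟨FS.of_pt PT.id, FS.of_pt PT.id⟩
  mul_mem' := by
    rintro g h ⟨h1, h2⟩ ⟨h3, h4⟩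
    exact ⟨h1.comp h3, by rw [mul_inv_rev]; exact h4.comp h2⟩
  inv_mem' := by
    rintro g ⟨h1, h2⟩
    exact ⟨h2, by rw [inv_inv]; exact h1⟩

theorem BL_mono {k l : ℕ} (h : k ≤ l) : BL k ≤ BL l := fun _ hg =>
  ⟨hg.1.mono (by omega), hg.2.mono (by omega)⟩

theorem BL_le (k : ℕ) : BL k ≤ BH := fun _ hg => ⟨⟨k, hg.1⟩, ⟨k, hg.2⟩⟩

theorem exists_BL {g : Equiv.Perm Om} (hg : g ∈ BH) : ∃ k, g ∈ BL k := by
  obtain ⟨⟨k, h1⟩, ⟨l, h2⟩⟩ := hg
  exact ⟨max k l, h1.mono (by omega), h2.mono (by omega)⟩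

open Classical in
/-- Flip the first letter if the rest satisfies `p`. -/
noncomputable def flipF (p : Om → Prop) (x : Om) : Om :=
  if 1 ≤ x.length ∧ p x.tail then (!(x.headD false)) :: x.tail else x

theorem flipF_cons (p : Om → Prop) (b : Bool) (x : Om) (h : p x) :
    flipF p (b :: x) = (!b) :: x := by simp [flipF, h]

theorem flipF_cons' (p : Om → Prop) (b : Bool) (x : Om) (h : ¬ p x) :
    flipF p (b :: x) = b :: x := by simp [flipF, h]

theorem flipF_flipF (p : Om → Prop) (x : Om) : flipF p (flipF p x) = x := by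
  cases x with
  | nil => simp [flipF]
  | cons b x =>
    by_cases h : p x
    · rw [flipF_cons p b x h, flipF_cons p _ x h, Bool.not_not]
    · rw [flipF_cons' p b x h, flipF_cons' p b x h]

/-- The flip as a permutation. -/
noncomputable def flipE (p : Om → Prop) : Equiv.Perm Om :=
  ⟨flipF p, flipF p, flipF_flipF p, flipF_flipF p⟩

theorem PT.headDB {f : α → Om} (hf : PT true f) : PT true (fun a => (f a).headD false) :=
  PT.headD' hf (by fun_prop)

theorem FH.flipF' {p : Om → Prop} (hp : PHp p) : FH (flipF p) := by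
  have h1 : PHp (fun x : Om => 1 ≤ x.length ∧ p x.tail) :=
    (PHp.of_dec (PT.decideLe (by fun_prop) (by fun_prop))).and
      (hp.pre (f := fun x : Om => x.tail) (by fun_prop))
  have h2 : PT true (fun x : Om => (!(x.headD false)) :: x.tail) := by
    have := PT.headDB (f := fun x : Om => x) PT.id
    fun_prop
  refine (FH.ite (FH.of_pt h2) (FH.of_pt PT.id) h1).congr (fun x => ?_)
  unfold flipF
  split_ifs <;> rfl

theorem flipE_mem {p : Om → Prop} (hp : PHp p) : flipE p ∈ BH :=
  ⟨FH.flipF' hp, FH.flipF' hp⟩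

theorem coll_of_fg (h : BH.FG) : ∃ K, Coll K := by
  obtain ⟨S, hS⟩ := h
  have hb : ∀ g ∈ S, ∃ k, g ∈ BL k := fun g hg => exists_BL (by
    rw [← hS]; exact Subgroup.subset_closure hg)
  choose! k hk using hb
  let K := S.sup k
  have hK : BH ≤ BL K := by
    rw [← hS, Subgroup.closure_le]
    intro g hg
    exact BL_mono (Finset.le_sup (f := k) hg) (hk g hg)
  refine ⟨K + 1, fun p hp => ?_⟩
  have h1 := (hK (flipE_mem hp)).1.graph
  refine (h1.pre (f := fun x : Om => (false :: x, true :: x)) (by fun_prop)).congr (fun x => ?_)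
  show p x ↔ flipF p (false :: x) = true :: x
  by_cases h : p x
  · rw [flipF_cons p _ x h]; simp [h]
  · rw [flipF_cons' p _ x h]; simp [h]

/-! ### Advice -/

/-- Every set of the complement of level `k` is in level `k` with advice. -/
def Adv (k : ℕ) : Prop := ∀ p : Om → Prop, Sg k p → ∃ (q : Om × D → Prop) (α : ℕ → D)
  (b : Polynomial ℕ), Sg k q ∧ (∀ n, size (α n) ≤ b.eval n) ∧
    ∀ x : Om, ¬ p x ↔ q (x, α x.length)

theorem neg_of_adv {k : ℕ} (h : Adv (k + 1)) {L : α → Prop} [Cod α] (hL : Sg (k + 3) L) :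
    Sg (k + 3) (fun x => ¬ L x) := by
  obtain ⟨Q, b, hb, hQ, eL⟩ := hL
  obtain ⟨R, b', hb', hR, eQ⟩ := hQ
  obtain ⟨B, hB, hB'⟩ := exists_bound hb' hb
  -- advice for `R`
  have hp : Sg (k + 1) (fun w : Om => R (Cod.dec (decodeD w))) :=
    hR.pre (f := fun w : Om => (Cod.dec (decodeD w) : (α × D) × D)) (by fun_prop)
  obtain ⟨q, adv, P, hq, hP, hpq⟩ := h _ hp
  have hRq : ∀ z : (α × D) × D, ¬ R z ↔ q (code z, adv (size z)) := by
    intro z
    have := hpq (code z)
    rw [decodeD_codeT, Cod.dec_rep] at this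
    exact this
  let N : α → ℕ := fun x => size x + b x + B x + 2
  have hN : PT true N := by
    show PT true (fun x => size x + b x + B x + 2)
    fun_prop
  have hNle : ∀ (x : α) (d e : D), size d ≤ b x → size e ≤ b' (x, d) → size ((x, d), e) ≤ N x := by
    intro x d e h1 h2
    have := hB' x d h1
    simp only [size_pair]
    show _ ≤ size x + b x + B x + 2
    omega
  -- the two conditions
  let S1 : α × List D → Prop := fun z => ∃ v : (α × D) × D, size v ≤ N z.1 ∧
    ((R v ∧ q (code v, z.2.getD (size v) D.nil)) ∨ ¬ (R v ∨ q (code v, z.2.getD (size v) D.nil)))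
  let S2 : α × List D → Prop := fun z => ∃ d : D, size d ≤ b z.1 ∧
    ¬ ∃ e : D, size e ≤ b' (z.1, d) ∧ q (code ((z.1, d), e), z.2.getD (size ((z.1, d), e)) D.nil)
  have hS1 : Sg (k + 2) S1 := by
    have h1 : Sg (k + 1) (fun v : (α × List D) × ((α × D) × D) => R v.2) := hR.pre (by fun_prop)
    have h2 : Sg (k + 1) (fun v : (α × List D) × ((α × D) × D) =>
        q (code v.2, v.1.2.getD (size v.2) D.nil)) :=
      hq.pre (f := fun v : (α × List D) × ((α × D) × D) =>
        (code v.2, v.1.2.getD (size v.2) D.nil)) (by fun_prop)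
    exact (((h1.and h2).succ).or (h1.or h2).not).ex (hN.comp PT.fst)
  have hS2 : Sg (k + 2) S2 := by
    have h2 : Sg (k + 1) (fun v : ((α × List D) × D) × D =>
        q (code ((v.1.1.1, v.1.2), v.2), v.1.1.2.getD (size ((v.1.1.1, v.1.2), v.2)) D.nil)) :=
      hq.pre (f := fun v : ((α × List D) × D) × D =>
        (code ((v.1.1.1, v.1.2), v.2), v.1.1.2.getD (size ((v.1.1.1, v.1.2), v.2)) D.nil))
        (by fun_prop)
    have h3 := h2.ex (b := fun v : (α × List D) × D => b' (v.1.1, v.2))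
      (hb'.comp (f := fun v : (α × List D) × D => (v.1.1, v.2)) (by fun_prop))
    exact h3.not.ex (hb.comp PT.fst)
  have hS := (hS1.or hS2)
  let BB : α → ℕ := fun x => (N x + 1) * (P.eval (N x) + 1) + 1
  have hBB : PT true BB := by
    have := PT.polyEval hN P
    show PT true (fun x => (N x + 1) * (P.eval (N x) + 1) + 1)
    fun_prop
  refine (Sg.mk hS hBB).congr (fun x => ?_)
  constructor
  · intro hx
    refine ⟨(List.range (N x + 1)).map adv, ?_, ?_⟩
    · refine (size_list_le (B := P.eval (N x)) ?_).trans (by simp [BB])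
      intro d hd
      obtain ⟨i, hi, rfl⟩ := List.mem_map.1 hd
      have hi := List.mem_range.1 hi
      exact (hP i).trans (polyMono P (by omega))
    · have hget : ∀ i ≤ N x, ((List.range (N x + 1)).map adv).getD i D.nil = adv i := by
        intro i hi
        rw [List.getD_eq_getElem?_getD]
        simp [Nat.lt_succ_of_le hi]
      rintro (⟨v, hv, h1⟩ | ⟨d, hd, h1⟩)
      · simp only at hv h1
        rw [hget _ hv, ← hRq] at h1
        tauto
      · simp only at hd h1
        apply h1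
        have h2 : Q (x, d) := by
          by_contra h3
          exact hx ((eL x).2 ⟨d, hd, h3⟩)
        obtain ⟨e, he, h4⟩ := (eQ (x, d)).1 h2
        refine ⟨e, he, ?_⟩
        rw [hget _ (hNle x d e hd he)]
        exact (hRq _).1 h4
  · rintro ⟨a, -, ha⟩ hx
    apply ha
    obtain ⟨d, hd, h1⟩ := (eL x).1 hx
    by_cases h2 : S1 (x, a)
    · exact Or.inl h2
    · right
      refine ⟨d, hd, ?_⟩
      rintro ⟨e, he, h3⟩
      apply h1
      refine (eQ (x, d)).2 ⟨e, he, fun h4 => h2 ?_⟩
      exact ⟨((x, d), e), hNle x d e hd he, Or.inl ⟨h4, h3⟩⟩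

theorem coll_of_adv {k : ℕ} (h : Adv (k + 1)) : Coll (k + 3) := by
  intro p hp
  obtain ⟨l, hp⟩ := hp
  have key : ∀ (l : ℕ) (α : Type) [Rep α] [Cod α] (p : α → Prop), Sg (k + 3 + l) p →
      Sg (k + 3) p := by
    intro l
    induction l with
    | zero => intro α _ _ p hp; exact hp
    | succ l ih =>
      intro α _ _ p hp
      obtain ⟨q, b, hb, hq, e⟩ := hp
      have h1 := neg_of_adv h (ih (α × D) q hq)
      exact (h1.ex hb).congr e
  exact key l Om p (hp.mono (by omega))

end Pool.Agent.PPH
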