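import Pool.Agent.PPH.Defs
import Pool.Agent.PPH.Yap
import Pool.Agent.PPS.Bridge

/-!
# The typed levels are the levels of the polynomial hierarchy
-/

namespace Pool.Agent.PPH

open Pool.Agent.PPS

variable {α β γ δ : Type} [Rep α] [Rep β] [Rep γ] [Rep δ]

/-- The number of leading letters `true`. -/
def leadT (w : Om) : ℕ := w.foldr (fun b n => bif b then n + 1 else 0) 0

theorem leadT_eq (n : ℕ) (r : Om) : leadT (List.replicate n true ++ false :: r) = n := by
  induction n with
  | zero => rfl
  | succ n ih =>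
    rw [List.replicate_succ, List.cons_append, leadT, List.foldr_cons, cond_true]
    show leadT _ + 1 = _
    rw [ih]

theorem leadT_le (w : Om) : leadT w ≤ w.length := by
  induction w with
  | nil => simp [leadT]
  | cons b w ih =>
    cases b
    · simp [leadT]
    · show leadT w + 1 ≤ _
      rw [List.length_cons]; omega

@[fun_prop]
theorem PT.leadT' {f : α → Om} (hf : PT true f) : PT true (fun a => leadT (f a)) := by
  have := PT.foldr (m := true) (α := Om) (ini := fun _ => 0) (l := fun w => w)
    (s := fun z : Om × (Bool × ℕ) => bif z.2.1 then z.2.2 + 1 else 0) PT.id (by fun_prop)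
    (by fun_prop) (2 * Polynomial.X + 1) (by
      intro w k
      have h1 := leadT_le (w.drop k)
      rw [List.length_drop] at h1
      have h2 : w.length ≤ size w := length_le_size' w
      show size (leadT (w.drop k)) ≤ _
      rw [size_nat]
      simp only [Polynomial.eval_add, Polynomial.eval_mul, Polynomial.eval_ofNat,
        Polynomial.eval_X, Polynomial.eval_one]
      omega)
  have h : PT true leadT := this
  exact h.comp hf

/-- First component of a pair. -/
def fstP (w : Om) : Om := (w.drop (leadT w + 1)).take (leadT w)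

/-- Second component of a pair. -/
def sndP (w : Om) : Om := w.drop (leadT w + 1 + leadT w)

@[fun_prop]
theorem PT.fstP' {f : α → Om} (hf : PT true f) : PT true (fun a => fstP (f a)) := by
  unfold fstP; fun_prop

@[fun_prop]
theorem PT.sndP' {f : α → Om} (hf : PT true f) : PT true (fun a => sndP (f a)) := by
  unfold sndP; fun_prop

theorem leadT_pairing (x y : Om) : leadT (pairing x y) = x.length := leadT_eq _ _

theorem drop_pairing (x y : Om) : (pairing x y).drop (x.length + 1) = x ++ y := by
  have : pairing x y = (List.replicate x.length true ++ [false]) ++ (x ++ y) := by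
    simp [pairing]
  rw [this]
  have h : (List.replicate x.length true ++ [false]).length = x.length + 1 := by simp
  rw [← h, List.drop_left]

theorem fstP_pairing (x y : Om) : fstP (pairing x y) = x := by
  unfold fstP
  rw [leadT_pairing, drop_pairing, List.take_left]

theorem sndP_pairing (x y : Om) : sndP (pairing x y) = y := by
  unfold sndP
  rw [leadT_pairing, ← List.drop_drop, drop_pairing, List.drop_left]

theorem pairing_inj {x y x' y' : Om} (h : pairing x y = pairing x' y') : x = x' ∧ y = y' := by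
  have h1 := congrArg fstP h
  have h2 := congrArg sndP h
  rw [fstP_pairing, fstP_pairing] at h1
  rw [sndP_pairing, sndP_pairing] at h2
  exact ⟨h1, h2⟩

@[fun_prop]
theorem PT.pairing' {f g : α → Om} (hf : PT true f) (hg : PT true g) :
    PT true (fun a => pairing (f a) (g a)) := by
  unfold pairing; fun_prop

/-- Polynomial-time bounds and polynomials in the length. -/
theorem exists_poly_length {b : Om → ℕ} (hb : PT true b) :
    ∃ p : Polynomial ℕ, ∀ x, b x ≤ p.eval x.length := by
  obtain ⟨P, hP⟩ := hb.exists_size_le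
  refine ⟨P.comp (4 * Polynomial.X + 1), fun x => ?_⟩
  have h1 := hP x
  rw [size_nat] at h1
  have h2 := polyMono P (size_le_length x)
  rw [Polynomial.eval_comp]
  simp only [Polynomial.eval_add, Polynomial.eval_mul, Polynomial.eval_ofNat,
    Polynomial.eval_X, Polynomial.eval_one]
  omega

theorem mem_SigmaP_iff (k : ℕ) (L : Set Om) : L ∈ SigmaP k ↔ Sg k (fun x => x ∈ L) := by
  classical
  induction k generalizing L with
  | zero =>
    show L ∈ P ↔ _
    rw [mem_P_iff]
    constructor
    · intro h; exact ⟨_, h, fun a => by simp⟩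
    · rintro ⟨f, hf, e⟩
      refine hf.of_eq (fun x => ?_)
      rw [Bool.eq_iff_iff, ← e x]
      simp
  | succ k ih =>
    constructor
    · rintro ⟨A, hA, p, hp⟩
      rw [ih] at hA
      have hb : PT true (fun x : Om => p.eval x.length) := PT.polyEval (by fun_prop) p
      have h1 : Sg k (fun z : Om × Om => pairing z.1 z.2 ∈ A ∨ p.eval z.1.length < z.2.length) :=
        (hA.pre (f := fun z : Om × Om => pairing z.1 z.2) (by fun_prop)).or
          (Sg.of_dec (PT.decideLt (hb.comp PT.fst) (by fun_prop)))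
      refine (Sg.mk h1 (b := fun x => 4 * p.eval x.length + 1) (by fun_prop)).congr (fun x => ?_)
      rw [hp]
      constructor
      · rintro ⟨y, hy, h⟩
        refine ⟨y, ?_, ?_⟩
        · have := size_le_length y; omega
        · rintro (h' | h')
          · exact h h'
          · simp only at h'; omega
      · rintro ⟨y, -, h⟩
        simp only [not_or, not_lt] at h
        exact ⟨y, h.2, h.1⟩
    · rintro ⟨q, b, hb, hq, e⟩
      obtain ⟨P, hP⟩ := exists_poly_length hb
      have h1 : Sg k (fun w : Om => q (fstP w, decodeD (sndP w)) ∨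
          b (fstP w) < size (decodeD (sndP w))) :=
        (hq.pre (f := fun w : Om => (fstP w, decodeD (sndP w))) (by fun_prop)).or
          (Sg.of_dec (PT.decideLt (hb.comp (f := fun w : Om => fstP w) (by fun_prop))
            (by fun_prop)))
      refine ⟨{w | q (fstP w, decodeD (sndP w)) ∨ b (fstP w) < size (decodeD (sndP w))},
        (ih _).2 h1, P, fun x => (e x).trans ?_⟩
      constructor
      · rintro ⟨d, hd, h⟩
        refine ⟨code d, ?_, ?_⟩
        · exact le_trans hd (hP x)
        · simp only [Set.mem_setOf_eq, fstP_pairing, sndP_pairing, decodeD_codeT]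
          rintro (h' | h')
          · exact h h'
          · have : size (Rep.rep d) = size d := rfl
            omega
      · rintro ⟨y, -, h⟩
        simp only [Set.mem_setOf_eq, fstP_pairing, sndP_pairing, not_or, not_lt] at h
        exact ⟨decodeD y, h.2, h.1⟩

theorem mem_PH_iff (L : Set Om) : L ∈ PH ↔ PHp (fun x => x ∈ L) := by
  constructor
  · rintro ⟨k, h⟩; exact ⟨k, (mem_SigmaP_iff k L).1 h⟩
  · rintro ⟨k, h⟩; exact ⟨k, (mem_SigmaP_iff k L).2 h⟩

theorem phCollapses_iff : PHCollapses ↔ ∃ K, Coll K := by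
  constructor
  · rintro ⟨k, h⟩
    refine ⟨k, fun p hp => ?_⟩
    exact (mem_SigmaP_iff k {x | p x}).1 (h ((mem_PH_iff _).2 hp))
  · rintro ⟨k, h⟩
    refine ⟨k, fun L hL => ?_⟩
    exact (mem_SigmaP_iff k L).2 (h _ ((mem_PH_iff _).1 hL))

theorem graphL_iff (k : ℕ) (f : Om → Om) :
    graphL f ∈ SigmaP k ↔ Sg k (fun z : Om × Om => f z.1 = z.2) := by
  rw [mem_SigmaP_iff]
  constructor
  · intro h
    refine (h.pre (f := fun z : Om × Om => pairing z.1 z.2) (by fun_prop)).congr (fun z => ?_)
    constructor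
    · intro h'; exact ⟨z.1, by rw [h']⟩
    · rintro ⟨x, hx⟩
      obtain ⟨h1, h2⟩ := pairing_inj hx
      rw [h1, h2]
  · intro h
    have h1 : Sg k (fun w : Om => f (fstP w) = sndP w) :=
      h.pre (f := fun w : Om => (fstP w, sndP w)) (by fun_prop)
    have h2 : Sg k (fun w : Om => pairing (fstP w) (sndP w) = w) :=
      Sg.eqc (by fun_prop) PT.id
    refine (h1.and h2).congr (fun w => ?_)
    constructor
    · rintro ⟨x, rfl⟩
      rw [fstP_pairing, sndP_pairing]
      exact ⟨rfl, rfl⟩
    · rintro ⟨h3, h4⟩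
      exact ⟨fstP w, by rw [h3, h4]⟩

theorem bound_iff (f : Om → Om) : (∃ p : Polynomial ℕ, ∀ x, (f x).length ≤ p.eval x.length) ↔
    ∃ b : Om → ℕ, PT true b ∧ ∀ x, size (f x) ≤ b x := by
  constructor
  · rintro ⟨p, hp⟩
    have hb : PT true (fun x : Om => p.eval x.length) := PT.polyEval (by fun_prop) p
    refine ⟨fun x => 4 * p.eval x.length + 1, by fun_prop, fun x => ?_⟩
    have h1 := size_le_length (f x)
    have h2 := hp x
    show size (f x) ≤ 4 * p.eval x.length + 1
    omega
  · rintro ⟨b, hb, h⟩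
    obtain ⟨p, hp⟩ := exists_poly_length hb
    exact ⟨p, fun x => (length_le_size (f x)).trans ((h x).trans (hp x))⟩

theorem polyBounded_iff (g : Equiv.Perm Om) : PolyBounded g ↔
    (∃ b : Om → ℕ, PT true b ∧ ∀ x, size (g x) ≤ b x) ∧
      ∃ b : Om → ℕ, PT true b ∧ ∀ x, size ((g⁻¹ : Equiv.Perm Om) x) ≤ b x := by
  rw [← bound_iff, ← bound_iff]
  constructor
  · rintro ⟨p, hp⟩
    refine ⟨⟨p, fun x => (hp x).1⟩, ⟨p, fun x => ?_⟩⟩
    have := (hp ((g⁻¹ : Equiv.Perm Om) x)).2
    simpa using this
  · rintro ⟨⟨p, hp⟩, ⟨q, hq⟩⟩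
    refine ⟨p + q, fun x => ⟨?_, ?_⟩⟩
    · rw [Polynomial.eval_add]
      have := hp x; omega
    · rw [Polynomial.eval_add]
      have := hq (g x)
      have h1 : (g⁻¹ : Equiv.Perm Om) (g x) = x := by simp
      rw [h1] at this
      omega

theorem graph_inv {k : ℕ} {g : Equiv.Perm Om} (h : Sg k (fun z : Om × Om => g z.1 = z.2)) :
    Sg k (fun z : Om × Om => (g⁻¹ : Equiv.Perm Om) z.1 = z.2) := by
  refine (h.pre (f := fun z : Om × Om => (z.2, z.1)) (by fun_prop)).congr (fun z => ?_)
  rw [Equiv.Perm.inv_eq_iff_eq]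
  exact eq_comm

theorem mem_BH_iff (g : Equiv.Perm Om) : g ∈ BH ↔ PolyBounded g ∧ graphL g ∈ PH := by
  rw [polyBounded_iff, mem_BH]
  constructor
  · rintro ⟨h1, h2⟩
    refine ⟨⟨h1.bound, h2.bound⟩, ?_⟩
    obtain ⟨k, hk⟩ := h1
    exact ⟨k + 1, (graphL_iff _ _).2 hk.graph⟩
  · rintro ⟨⟨h1, h2⟩, ⟨k, hk⟩⟩
    rw [graphL_iff] at hk
    exact ⟨FH.mk h1 ⟨k, hk⟩, FH.mk h2 ⟨k, graph_inv hk⟩⟩

end Pool.Agent.PPH
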