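import Pool.Agent.PPH.FH

/-!
# A Cantor-Bernstein theorem and an extension theorem for bijections in the hierarchy
-/

namespace Pool.Agent.PPH

open Pool.Agent.PPS

/-- Words. -/
abbrev Om := List Bool

variable {α β γ δ : Type} [Rep α] [Rep β] [Rep γ] [Rep δ]

/-- The set contains a size increasing copy of the set of all words. -/
def Large (X : Om → Prop) : Prop :=
  ∃ ι : Om → Om, FH ι ∧ Function.Injective ι ∧ ∀ x, X (ι x) ∧ size x < size (ι x)

theorem Large.mono {X Y : Om → Prop} (h : Large X) (hXY : ∀ x, X x → Y x) : Large Y := by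
  obtain ⟨ι, h1, h2, h3⟩ := h
  exact ⟨ι, h1, h2, fun x => ⟨hXY _ (h3 x).1, (h3 x).2⟩⟩

/-- Default value of an option. -/
def og (o : Option Om) : Om := o.getD []

theorem PT.og' : PT true og := by
  have := PT.optCase (m := true) (α := Option Om) (β := Om) (γ := Om) (o := fun o => o)
    (f := fun _ => []) (g := fun z => z.1) PT.id (by fun_prop) (by fun_prop)
  refine this.of_eq (fun o => ?_)
  cases o <;> rfl

/-- The chains that start in `X`, outside the image of `Y`. -/
inductive Sch (X Y : Om → Prop) (i j : Om → Om) : Om → Prop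
  | base {x : Om} : X x → (∀ y, Y y → j y ≠ x) → Sch X Y i j x
  | step {x : Om} : Sch X Y i j x → Sch X Y i j (j (i x))

section chain

variable {X Y : Om → Prop} {i j : Om → Om}

/-- A list which shows that a chain ends in a given word. -/
def Wit (X Y : Om → Prop) (i j : Om → Om) (x : Om) (L : List Om) : Prop :=
  (0 < L.length ∧ (X (L.getD 0 []) ∧ ¬ ∃ y : Om, size y ≤ size (L.getD 0 []) ∧
    (Y y ∧ j y = L.getD 0 []))) ∧
  ((∀ t < L.length - 1, L.getD (t + 1) [] = j (i (L.getD t []))) ∧
    L.getD (L.length - 1) [] = x)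

theorem sch_iff (hi' : ∀ x, size x < size (i x)) (hj' : ∀ x, size x < size (j x)) (x : Om) :
    Sch X Y i j x ↔ ∃ L : List Om, size L ≤ size x * (size x + 1) + 1 ∧ Wit X Y i j x L := by
  constructor
  · intro h
    have : ∃ L : List Om, (∀ y ∈ L, size y ≤ size x) ∧ L.length ≤ size x ∧ Wit X Y i j x L := by
      induction h with
      | base h1 h2 =>
        rename_i x
        refine ⟨[x], by simp, ?_, ?_⟩
        · have := size_pos x
          simp only [List.length_singleton]; omega
        · refine ⟨⟨by simp, by simpa using h1, ?_⟩, by simp, by simp⟩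
          rintro ⟨y, -, h3, h4⟩
          exact h2 y h3 (by simpa using h4)
      | step h ih =>
        rename_i x
        obtain ⟨L, h1, h2, ⟨h3, h4⟩, h5, h6⟩ := ih
        have hs : size x < size (j (i x)) := (hi' x).trans (hj' _)
        have hlen : (L ++ [j (i x)]).length = L.length + 1 := by simp
        have hget : ∀ t < L.length, (L ++ [j (i x)]).getD t [] = L.getD t [] := by
          intro t ht
          rw [List.getD_eq_getElem?_getD, List.getD_eq_getElem?_getD,
            List.getElem?_append_left ht]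
        have hlast : (L ++ [j (i x)]).getD L.length [] = j (i x) := by
          rw [List.getD_eq_getElem?_getD, List.getElem?_append_right le_rfl]
          simp
        refine ⟨L ++ [j (i x)], ?_, by omega, ⟨by omega, ?_⟩, ?_, ?_⟩
        · intro y hy
          rcases List.mem_append.1 hy with hy | hy
          · exact (h1 y hy).trans hs.le
          · rw [List.mem_singleton.1 hy]
        · rw [hget 0 h3]; exact h4
        · intro t ht
          rw [hlen, Nat.add_sub_cancel] at ht
          by_cases ht' : t + 1 < L.length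
          · rw [hget _ ht', hget _ ht]
            exact h5 t (by omega)
          · have : t + 1 = L.length := by omega
            rw [this, hlast, hget _ ht]
            have : t = L.length - 1 := by omega
            rw [this, h6]
        · rw [hlen, Nat.add_sub_cancel, hlast]
    obtain ⟨L, h1, h2, h3⟩ := this
    refine ⟨L, (size_list_le h1).trans ?_, h3⟩
    have := Nat.mul_le_mul_right (size x + 1) h2
    omega
  · rintro ⟨L, -, ⟨h1, h2, h3⟩, h4, h5⟩
    have key : ∀ t < L.length, Sch X Y i j (L.getD t []) := by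
      intro t
      induction t with
      | zero =>
        intro _
        refine .base h2 (fun y hy e => h3 ⟨y, ?_, hy, e⟩)
        rw [← e]
        exact (hj' y).le
      | succ t ih =>
        intro ht
        rw [h4 t (by omega)]
        exact (ih (by omega)).step
    have := key (L.length - 1) (by omega)
    rwa [h5] at this

theorem PHp.sch (hX : PHp X) (hY : PHp Y) (hi : FH i) (hj : FH j)
    (hi' : ∀ x, size x < size (i x)) (hj' : ∀ x, size x < size (j x)) :
    PHp (Sch X Y i j) := by
  have g0 : PT true (fun L : List Om => L.getD 0 []) := by fun_prop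
  have a1 : PHp (fun z : Om × List Om => 0 < z.2.length) :=
    PHp.of_dec (PT.decideLt (by fun_prop) (by fun_prop))
  have a2 : PHp (fun z : Om × List Om => X (z.2.getD 0 [])) :=
    hX.pre (f := fun z : Om × List Om => z.2.getD 0 []) (by fun_prop)
  have a3 : PHp (fun z : Om × Om => Y z.2 ∧ j z.2 = z.1) :=
    (hY.pre PT.snd).and (PHp.eqH (hj.comp (FH.of_pt PT.snd)) (FH.of_pt PT.fst))
  have a4 : PHp (fun x : Om => ∃ y : Om, size y ≤ size x ∧ (Y y ∧ j y = x)) :=
    a3.ex (by fun_prop)
  have a5 : PHp (fun z : Om × List Om => ¬ ∃ y : Om, size y ≤ size (z.2.getD 0 []) ∧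
      (Y y ∧ j y = z.2.getD 0 [])) :=
    (a4.pre (f := fun z : Om × List Om => z.2.getD 0 []) (by fun_prop)).not
  have a6 : PHp (fun z : (Om × List Om) × ℕ =>
      z.1.2.getD (z.2 + 1) [] = j (i (z.1.2.getD z.2 []))) := by
    refine PHp.eqH (FH.of_pt (by fun_prop)) ?_
    exact hj.comp (hi.comp (FH.of_pt (f := fun z : (Om × List Om) × ℕ => z.1.2.getD z.2 [])
      (by fun_prop)))
  have a7 : PHp (fun z : Om × List Om => ∀ t < z.2.length - 1,
      z.2.getD (t + 1) [] = j (i (z.2.getD t []))) := a6.allLt (by fun_prop)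
  have a8 : PHp (fun z : Om × List Om => z.2.getD (z.2.length - 1) [] = z.1) :=
    PHp.eqc (by fun_prop) (by fun_prop)
  have a9 : PHp (fun z : Om × List Om => Wit X Y i j z.1 z.2) :=
    (a1.and (a2.and a5)).and (a7.and a8)
  exact (a9.ex (b := fun x => size x * (size x + 1) + 1) (by fun_prop)).congr
    (fun x => sch_iff hi' hj' x)

end chain

/-- Cantor-Bernstein. -/
theorem csb {X Y : Om → Prop} (hX : PHp X) (hY : PHp Y) (lX : Large X) (lY : Large Y) :
    ∃ F G : Om → Om, FH F ∧ FH G ∧ (∀ x, X x → Y (F x) ∧ G (F x) = x) ∧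
      ∀ y, Y y → X (G y) ∧ F (G y) = y := by
  classical
  obtain ⟨j, hj, ij, hj'⟩ := lX
  obtain ⟨i, hi, ii, hi'⟩ := lY
  have hS : PHp (Sch X Y i j) := PHp.sch hX hY hi hj (fun x => (hi' x).2) (fun x => (hj' x).2)
  have SX : ∀ x, Sch X Y i j x → X x := by
    intro x h
    cases h with
    | base h _ => exact h
    | step h => exact (hj' _).1
  let q : Om × Om → Prop := fun z => Y z.2 ∧ j z.2 = z.1
  let r : Om × Om → Prop := fun z => Sch X Y i j z.2 ∧ i z.2 = z.1
  have hq : PHp q := (hY.pre PT.snd).and (PHp.eqH (hj.comp (FH.of_pt PT.snd)) (FH.of_pt PT.fst))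
  have hr : PHp r := (hS.pre PT.snd).and (PHp.eqH (hi.comp (FH.of_pt PT.snd)) (FH.of_pt PT.fst))
  let bs : Om → ℕ := fun x => size x
  have hbs : PT true bs := by show PT true (fun x : Om => size x); fun_prop
  let F : Om → Om := fun x => if Sch X Y i j x then i x else og (pick q bs x)
  let G : Om → Om := fun y => if (∃ x : Om, size x ≤ bs y ∧ r (y, x)) then og (pick r bs y)
    else j y
  have hF : FH F := FH.ite hi ((FH.pick hq hbs).pt PT.og') hS
  have hG : FH G := FH.ite ((FH.pick hr hbs).pt PT.og') hj (hr.ex hbs)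
  have pq : ∀ x y, Y y → j y = x → pick q bs x = some y := by
    intro x y hy e
    refine pick_unique (q := q) (b := bs) (a := x) ⟨?_, hy, e⟩ ?_
    · show size y ≤ size x
      rw [← e]; exact (hj' y).2.le
    · rintro y' ⟨-, h⟩
      exact ij (h.trans e.symm)
  have pr : ∀ y x, Sch X Y i j x → i x = y → pick r bs y = some x := by
    intro y x hx e
    refine pick_unique (q := r) (b := bs) (a := y) ⟨?_, hx, e⟩ ?_
    · show size x ≤ size y
      rw [← e]; exact (hi' x).2.le
    · rintro x' ⟨-, h⟩
      exact ii (h.trans e.symm)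
  have Fs : ∀ x, Sch X Y i j x → F x = i x := fun x h => if_pos h
  have Fn : ∀ x y, ¬ Sch X Y i j x → Y y → j y = x → F x = y := by
    intro x y h hy e
    simp only [F, if_neg h, pq x y hy e]
    rfl
  have Gs : ∀ x, Sch X Y i j x → G (i x) = x := by
    intro x h
    have : ∃ x' : Om, size x' ≤ bs (i x) ∧ r (i x, x') := ⟨x, (hi' x).2.le, h, rfl⟩
    simp only [G, if_pos this, pr _ x h rfl]
    rfl
  have Gn : ∀ y, (∀ x, Sch X Y i j x → i x ≠ y) → G y = j y := by
    intro y h
    have : ¬ ∃ x' : Om, size x' ≤ bs y ∧ r (y, x') := by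
      rintro ⟨x', -, h1, h2⟩
      exact h x' h1 h2
    simp only [G, if_neg this]
  refine ⟨F, G, hF, hG, ?_, ?_⟩
  · intro x hx
    by_cases hs : Sch X Y i j x
    · rw [Fs x hs]
      exact ⟨(hi' x).1, Gs x hs⟩
    · have : ∃ y, Y y ∧ j y = x := by
        by_contra hno
        push Not at hno
        exact hs (.base hx hno)
      obtain ⟨y, hy, e⟩ := this
      rw [Fn x y hs hy e]
      refine ⟨hy, ?_⟩
      rw [Gn y, e]
      intro x' hx' e'
      apply hs
      rw [← e, ← e']
      exact hx'.step
  · intro y hy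
    by_cases hs : ∃ x, Sch X Y i j x ∧ i x = y
    · obtain ⟨x, hx, rfl⟩ := hs
      rw [Gs x hx]
      exact ⟨SX x hx, Fs x hx⟩
    · push Not at hs
      rw [Gn y hs]
      refine ⟨(hj' y).1, Fn _ y ?_ hy rfl⟩
      intro h
      generalize e : j y = w at h
      cases h with
      | base h1 h2 => exact h2 y hy e
      | step h => exact hs _ h (ij e).symm

/-- The group of bijections in the hierarchy. -/
def BH : Subgroup (Equiv.Perm Om) where
  carrier := {g | FH (g : Om → Om) ∧ FH (g⁻¹ : Equiv.Perm Om)}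
  one_mem' := ⟨FH.of_pt PT.id, FH.of_pt PT.id⟩
  mul_mem' := by
    rintro g h ⟨h1, h2⟩ ⟨h3, h4⟩
    exact ⟨h1.comp h3, by rw [mul_inv_rev]; exact h4.comp h2⟩
  inv_mem' := by
    rintro g ⟨h1, h2⟩
    exact ⟨h2, by rw [inv_inv]; exact h1⟩

theorem mem_BH {g : Equiv.Perm Om} :
    g ∈ BH ↔ FH (g : Om → Om) ∧ FH (g⁻¹ : Equiv.Perm Om) := Iff.rfl

/-- Extension of bijections between subsets. -/
theorem exists_ext {W Dm : Om → Prop} (hW : PHp W) (hD : PHp Dm) {F : Om → Om} (hF : FH F)
    (h1 : ∀ x, Dm x → W x ∧ W (F x)) (inj : ∀ x y, Dm x → Dm y → F x = F y → x = y)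
    {b : Om → ℕ} (hb : PT true b) (hbd : ∀ x, Dm x → size x ≤ b (F x))
    (hL : Large fun x => W x ∧ ¬ Dm x) (hL' : Large fun y => W y ∧ ¬ ∃ x, Dm x ∧ F x = y) :
    ∃ g ∈ BH, (∀ x, Dm x → g x = F x) ∧ ∀ x, ¬ W x → g x = x := by
  classical
  let r : Om × Om → Prop := fun z => Dm z.2 ∧ F z.2 = z.1
  have hr : PHp r := (hD.pre PT.snd).and (PHp.eqH (hF.comp (FH.of_pt PT.snd)) (FH.of_pt PT.fst))
  let R : Om → Prop := fun y => ∃ x : Om, size x ≤ b y ∧ r (y, x)
  have hR : PHp R := hr.ex hb
  have hRiff : ∀ y, R y ↔ ∃ x, Dm x ∧ F x = y := by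
    intro y
    constructor
    · rintro ⟨x, -, h⟩; exact ⟨x, h⟩
    · rintro ⟨x, h, rfl⟩; exact ⟨x, hbd x h, h, rfl⟩
  have hL2 : Large fun y => W y ∧ ¬ R y := by simpa only [hRiff] using hL'
  obtain ⟨F', G', hF', hG', e1, e2⟩ := csb (hW.and hD.not) (hW.and hR.not) hL hL2
  let g : Om → Om := fun x => if Dm x then F x else (if W x then F' x else x)
  let g' : Om → Om := fun y => if R y then og (pick r b y) else (if W y then G' y else y)
  have hg : FH g := FH.ite hF (FH.ite hF' (FH.of_pt PT.id) hW) hD
  have hg' : FH g' := FH.ite ((FH.pick hr hb).pt PT.og') (FH.ite hG' (FH.of_pt PT.id) hW) hR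
  have pr : ∀ x, Dm x → og (pick r b (F x)) = x := by
    intro x hx
    have := pick_unique (q := r) (b := b) (a := F x) (y := x) ⟨hbd x hx, hx, rfl⟩ (by
      rintro x' ⟨h, h'⟩
      exact inj _ _ h hx h')
    rw [this]
    rfl
  have gD : ∀ x, Dm x → g x = F x := fun x h => if_pos h
  have gW : ∀ x, ¬ Dm x → W x → g x = F' x := fun x h h' => by
    simp only [g, if_neg h, if_pos h']
  have gN : ∀ x, ¬ W x → g x = x := fun x h => by
    have : ¬ Dm x := fun h' => h (h1 x h').1
    simp only [g, if_neg this, if_neg h]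
  have gR' : ∀ x, Dm x → g' (F x) = x := fun x h => by
    have : R (F x) := (hRiff _).2 ⟨x, h, rfl⟩
    simp only [g', if_pos this]
    exact pr x h
  have gW' : ∀ y, ¬ R y → W y → g' y = G' y := fun x h h' => by
    simp only [g', if_neg h, if_pos h']
  have RW : ∀ y, R y → W y := by
    intro y h
    obtain ⟨x, h', rfl⟩ := (hRiff y).1 h
    exact (h1 x h').2
  have gN' : ∀ x, ¬ W x → g' x = x := fun x h => by
    have : ¬ R x := fun h' => h (RW x h')
    simp only [g', if_neg this, if_neg h]
  let e : Equiv.Perm Om :=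
    { toFun := g
      invFun := g'
      left_inv := by
        intro x
        by_cases hx : Dm x
        · rw [gD x hx, gR' x hx]
        · by_cases hw : W x
          · rw [gW x hx hw]
            have := e1 x ⟨hw, hx⟩
            rw [gW' _ this.1.2 this.1.1, this.2]
          · rw [gN x hw, gN' x hw]
      right_inv := by
        intro y
        by_cases hy : R y
        · obtain ⟨x, h, rfl⟩ := (hRiff y).1 hy
          rw [gR' x h, gD x h]
        · by_cases hw : W y
          · rw [gW' y hy hw]
            have := e2 y ⟨hw, hy⟩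
            rw [gW _ this.1.2 this.1.1, this.2]
          · rw [gN' y hw, gN y hw] }
  exact ⟨e, ⟨hg, hg'⟩, gD, gN⟩

end Pool.Agent.PPH
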