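import Pool.Agent.PPS.Codes
import Pool.Agent.PPS.Bits

/-!
# Typed data with total polynomial-time decoding; comparison of codes
-/

namespace Pool.Agent.PPH

open Pool.Agent.PPS

/-- Types with a total polynomial-time decoding function. -/
class Cod (α : Type) [Rep α] where
  dec : D → α
  dec_rep : ∀ a, dec (Rep.rep a) = a
  pt_dec : PT true dec

variable {m : Bool} {α β γ δ : Type} [Rep α] [Rep β] [Rep γ] [Rep δ]

@[fun_prop]
theorem PT.dec' [Cod β] {f : α → D} (hf : PT true f) : PT true (fun a => (Cod.dec (f a) : β)) :=
  Cod.pt_dec.comp hf

instance : Cod D := ⟨fun d => d, fun _ => rfl, PT.id⟩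

instance : Cod ℕ := ⟨toNat, toNat_rep, PT.toNat' PT.id⟩

instance : Cod Bool := ⟨toBit, toBit_rep, PT.toBit' PT.id⟩

instance : Cod Unit := ⟨fun _ => (), fun _ => rfl, PT.const _⟩

instance [Cod α] [Cod β] : Cod (α × β) :=
  ⟨fun d => (Cod.dec (hd d), Cod.dec (tl d)), fun p => by
    rw [hd_rep, tl_rep, Cod.dec_rep, Cod.dec_rep], by fun_prop⟩

instance [Cod α] : Cod (List α) :=
  ⟨fun d => (spine d).map fun x => Cod.dec x, fun l => by
    show (spine (listTree l)).map (fun x => Cod.dec x) = l
    rw [spine_listTree, List.map_map]
    have : ((fun x => (Cod.dec x : α)) ∘ Rep.rep) = id := funext Cod.dec_rep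
    rw [this, List.map_id],
    PT.map' (m := true) (f := fun z : D × D => (Cod.dec z.2 : α)) (PT.spine' PT.id) (by fun_prop)⟩

/-- Decoding of options. -/
def decOpt [Cod α] (d : D) : Option α :=
  match d with
  | .nil => none
  | .cons a _ => some (Cod.dec a)

instance [Cod α] : Cod (Option α) :=
  ⟨decOpt, fun o => by
    cases o with
    | none => rfl
    | some a => show some (Cod.dec (Rep.rep a)) = some a; rw [Cod.dec_rep], by
    have := PT.treeCase (m := true) (α := D) (γ := Option α) (d := fun d => d)
      (f := fun _ => none) (g := fun z => some (Cod.dec z.1.1)) PT.id (by fun_prop) (by fun_prop)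
    refine this.of_eq (fun d => ?_)
    cases d <;> rfl⟩

/-! ### Equality -/

theorem PT.eqc {f g : α → β} (hf : PT m f) (hg : PT m g) :
    PT m (fun a => decide (code (f a) = code (g a))) :=
  (PT.eqCode (m := m) (α := β)).comp (hf.pair hg)

theorem code_eq_iff {a b : β} : code a = code b ↔ a = b := code_injective.eq_iff

/-! ### Ranges and bounded quantifiers -/

theorem range_eq_iterate (n : ℕ) :
    List.range n = (fun l : List ℕ => l ++ [l.length])^[n] [] := by
  induction n with
  | zero => rfl
  | succ n ih =>
    rw [Function.iterate_succ_apply', ← ih, List.range_succ]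
    simp

theorem size_range_le (n : ℕ) : size (List.range n) ≤ n * (2 * n + 2) + 1 := by
  refine (size_list_le (B := 2 * n + 1) (l := List.range n) ?_).trans ?_
  · intro b hb
    rw [size_nat]
    have := List.mem_range.1 hb
    omega
  · rw [List.length_range]

@[fun_prop]
theorem PT.range' {n : α → ℕ} (hn : PT m n) : PT m (fun a => List.range (n a)) := by
  obtain ⟨p, hp⟩ := hn.exists_size_le
  have := PT.iterate (m := m) (n := n) (ini := fun _ => ([] : List ℕ))
    (s := fun z : α × List ℕ => z.2 ++ [z.2.length]) hn (by fun_prop) (by fun_prop)
    (p * (2 * p + 2) + 1) (by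
      intro a k hk
      simp only
      rw [← range_eq_iterate]
      refine (size_range_le k).trans ?_
      have h1 := hp a
      rw [size_nat] at h1
      simp only [Polynomial.eval_add, Polynomial.eval_mul, Polynomial.eval_ofNat,
        Polynomial.eval_one]
      have h2 : k ≤ p.eval (size a) := by omega
      have := Nat.mul_le_mul h2 (show 2 * k + 2 ≤ 2 * p.eval (size a) + 2 by omega)
      omega)
  refine this.of_eq (fun a => ?_)
  exact range_eq_iterate _

theorem PT.all' {l : α → List β} {f : α × β → Bool} (hl : PT m l) (hf : PT m f) :
    PT m (fun a => (l a).all (fun b => f (a, b))) := by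
  have := PT.foldr (m := m) (ini := fun _ => true) (l := l)
    (s := fun z : α × (β × Bool) => f (z.1, z.2.1) && z.2.2) hl (by fun_prop) (by fun_prop) 3 (by
      intro a k
      simpa using size_bool_le _)
  refine this.of_eq (fun a => ?_)
  induction l a with
  | nil => rfl
  | cons b l ih => rw [List.all_cons, List.foldr_cons, ih]

theorem PT.any' {l : α → List β} {f : α × β → Bool} (hl : PT m l) (hf : PT m f) :
    PT m (fun a => (l a).any (fun b => f (a, b))) := by
  have := PT.foldr (m := m) (ini := fun _ => false) (l := l)
    (s := fun z : α × (β × Bool) => f (z.1, z.2.1) || z.2.2) hl (by fun_prop) (by fun_prop) 3 (by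
      intro a k
      simpa using size_bool_le _)
  refine this.of_eq (fun a => ?_)
  induction l a with
  | nil => rfl
  | cons b l ih => rw [List.any_cons, List.foldr_cons, ih]

/-! ### Comparison -/

/-- One step of the comparison. -/
def cmpStep (a b : Bool) (o : Bool × Bool) : Bool × Bool :=
  bif (o.1 || o.2) then o else (!a && b, a && !b)

/-- Comparison of the numbers with given bits. -/
def cmpR : ℕ → List Bool → List Bool → Bool × Bool
  | 0, _, _ => (false, false)
  | n + 1, u, v => cmpStep (u.headD false) (v.headD false) (cmpR n u.tail v.tail)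

theorem val_eq (u : List Bool) : val u = (u.headD false).toNat + 2 * val u.tail := by
  cases u <;> rfl

theorem cmpR_spec (n : ℕ) (u v : List Bool) (hu : u.length ≤ n) (hv : v.length ≤ n) :
    cmpR n u v = (decide (val u < val v), decide (val v < val u)) := by
  induction n generalizing u v with
  | zero =>
    have h1 : u = [] := List.eq_nil_of_length_eq_zero (by omega)
    have h2 : v = [] := List.eq_nil_of_length_eq_zero (by omega)
    subst h1 h2
    rfl
  | succ n ih =>
    rw [cmpR, ih u.tail v.tail (by rw [List.length_tail]; omega) (by rw [List.length_tail]; omega)]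
    rw [val_eq u, val_eq v]
    generalize val u.tail = x
    generalize val v.tail = y
    generalize u.headD false = a
    generalize v.headD false = b
    rcases lt_trichotomy x y with h | h | h
    · have h1 : ¬ y < x := by omega
      have h2 : a.toNat + 2 * x < b.toNat + 2 * y := by
        cases a <;> cases b <;> simp <;> omega
      have h3 : ¬ b.toNat + 2 * y < a.toNat + 2 * x := by omega
      simp [cmpStep, h, h1, h2, h3]
    · subst h
      cases a <;> cases b <;> simp [cmpStep]
    · have h1 : ¬ x < y := by omega
      have h2 : b.toNat + 2 * y < a.toNat + 2 * x := by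
        cases a <;> cases b <;> simp <;> omega
      have h3 : ¬ a.toNat + 2 * x < b.toNat + 2 * y := by omega
      simp [cmpStep, h, h1, h2, h3]

theorem cmpR_eq_foldr (n : ℕ) (u v : List Bool) :
    cmpR n u v = (List.range n).foldr (fun i o => cmpStep (bitAt u i) (bitAt v i) o)
      (false, false) := by
  induction n generalizing u v with
  | zero => rfl
  | succ n ih =>
    rw [cmpR, ih, List.range_succ_eq_map, List.foldr_cons, List.foldr_map]
    have h1 : ∀ (w : List Bool) (i : ℕ), bitAt w.tail i = bitAt w (i + 1) := by
      intro w i
      cases w <;> simp [bitAt]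
    have h0 : ∀ w : List Bool, w.headD false = bitAt w 0 := by
      intro w
      cases w <;> simp [bitAt]
    simp only [h1, h0, Nat.succ_eq_add_one]

@[fun_prop]
theorem PT.valLe {u v : α → List Bool} (hu : PT m u) (hv : PT m v) :
    PT m (fun a => decide (val (u a) ≤ val (v a))) := by
  have h1 := PT.foldr (m := m) (ini := fun _ => (false, false))
    (l := fun a => List.range ((u a).length + (v a).length))
    (s := fun z : α × (ℕ × (Bool × Bool)) => cmpStep (bitAt (u z.1) z.2.1) (bitAt (v z.1) z.2.1) z.2.2)
    (by fun_prop) (by fun_prop) (by unfold cmpStep; fun_prop) 7 (by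
      intro a k
      rw [size_pair]
      have h1 := size_bool_le (List.foldr (fun b y => cmpStep (bitAt (u a) b) (bitAt (v a) b) y)
        (false, false) (List.drop k (List.range ((u a).length + (v a).length)))).1
      have h2 := size_bool_le (List.foldr (fun b y => cmpStep (bitAt (u a) b) (bitAt (v a) b) y)
        (false, false) (List.drop k (List.range ((u a).length + (v a).length)))).2
      simp only [Polynomial.eval_ofNat]
      omega)
  have h2 : PT m (fun a => !((List.range ((u a).length + (v a).length)).foldr
    (fun i o => cmpStep (bitAt (u a) i) (bitAt (v a) i) o) (false, false)).2) := by fun_prop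
  refine h2.of_eq (fun a => ?_)
  rw [← cmpR_eq_foldr, cmpR_spec _ _ _ (by omega) (by omega)]
  by_cases h : val (u a) ≤ val (v a)
  · simp [h]
  · simp [h, Nat.lt_of_not_le h]

/-- The position of an element in the enumeration of its type by codes. -/
def rank (b : β) : ℕ := val (code b ++ [true])

theorem val_append (u v : List Bool) : val (u ++ v) = val u + 2 ^ u.length * val v := by
  induction u with
  | nil => simp [val]
  | cons b u ih => rw [List.cons_append, val, val, ih, List.length_cons]; ring

theorem val_lt (u : List Bool) : val u < 2 ^ u.length := by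
  induction u with
  | nil => simp [val]
  | cons b u ih =>
    rw [val, List.length_cons, pow_succ]
    cases b <;> simp <;> omega

theorem rank_eq (b : β) : rank b = val (code b) + 2 ^ size b := by
  rw [rank, val_append]
  simp [val, size]

theorem lt_rank (b : β) : 2 ^ size b ≤ rank b := by rw [rank_eq]; omega

theorem rank_lt (b : β) : rank b < 2 ^ (size b + 1) := by
  rw [rank_eq, pow_succ]
  have := val_lt (code b)
  change val (code b) < 2 ^ size b at this
  omega

theorem size_le_of_rank_le {a b : β} (h : rank a ≤ rank b) : size a ≤ size b := by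
  by_contra hlt
  have h1 := lt_rank a
  have h2 := rank_lt b
  have h3 : 2 ^ (size b + 1) ≤ 2 ^ size a := Nat.pow_le_pow_right (by norm_num) (by omega)
  omega

theorem rank_injective : Function.Injective (rank : β → ℕ) := by
  intro a b h
  have hs : size a = size b := le_antisymm (size_le_of_rank_le h.le) (size_le_of_rank_le h.ge)
  rw [rank_eq, rank_eq, hs] at h
  have h1 : val (code a) = val (code b) := by omega
  apply code_injective
  have h2 := bits_val (code a)
  have h3 := bits_val (code b)
  have hl : (code a).length = (code b).length := hs
  rw [← h2, ← h3, hl, h1]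

@[fun_prop]
theorem PT.rankLe {f g : α → β} (hf : PT m f) (hg : PT m g) :
    PT m (fun a => decide (rank (f a) ≤ rank (g a))) := by
  unfold rank
  fun_prop

end Pool.Agent.PPH
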