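import Pool.Agent.PPS.Defs

/-!
# The polynomial hierarchy
-/

namespace Pool.Agent.PPH

open Pool.Agent.PPS

/-- The pair of two words, as a word: `1^|x| 0 x y`. -/
def pairing (x y : List Bool) : List Bool :=
  List.replicate x.length true ++ false :: (x ++ y)

/-- The level `Σᵖ_k` of the polynomial hierarchy: `Σᵖ_0` is `P`, and a language is in
`Σᵖ_(k+1)` iff for some `A` in `Σᵖ_k` and some polynomial `p` it consists of the words `x` such
that the pair of `x` and `y` is not in `A` for some word `y` of length at most `p |x|`. -/
def SigmaP : ℕ → Set (Set (List Bool))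
  | 0 => P
  | k + 1 => {L | ∃ A ∈ SigmaP k, ∃ p : Polynomial ℕ,
      ∀ x, x ∈ L ↔ ∃ y : List Bool, y.length ≤ p.eval x.length ∧ pairing x y ∉ A}

/-- The polynomial hierarchy. -/
def PH : Set (Set (List Bool)) := {L | ∃ k, L ∈ SigmaP k}

/-- The polynomial hierarchy collapses to one of its levels. -/
def PHCollapses : Prop := ∃ k, PH ⊆ SigmaP k

/-- The graph of a function on words, as a language. -/
def graphL (f : List Bool → List Bool) : Set (List Bool) := {w | ∃ x, w = pairing x (f x)}

/-- The function and its inverse are polynomially bounded in length. -/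
def PolyBounded (f : List Bool → List Bool) : Prop :=
  ∃ p : Polynomial ℕ, ∀ x, (f x).length ≤ p.eval x.length ∧ x.length ≤ p.eval (f x).length

end Pool.Agent.PPH
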