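import Pool.Agent.PPH.CSB

/-!
# Embeddings of typed data into words, and bijections which extend typed operations
-/

namespace Pool.Agent.PPH

open Pool.Agent.PPS

variable {α β γ δ : Type} [Rep α] [Rep β] [Rep γ] [Rep δ]

/-- The embedding of typed data by codes with a fixed start. -/
def emb (p : Om) (t : α) : Om := p ++ code t

@[fun_prop]
theorem PT.emb' (p : Om) {f : α → β} (hf : PT true f) : PT true (fun a => emb p (f a)) := by
  unfold emb; fun_prop

theorem emb_injective (p : Om) : Function.Injective (emb p : α → Om) := by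
  intro a b h
  exact code_injective (List.append_cancel_left h)

theorem size_code (t : α) : 2 * size t + 1 ≤ size (code t) := (size_bits (code t)).1

theorem size_append_eq (u v : Om) : size (u ++ v) + 1 = size u + size v := size_append u v

theorem lt_size_emb (p : Om) (t : α) : 2 * size t + 1 ≤ size (emb p t) := by
  have h1 := size_append_eq p (code t)
  have h2 := size_code t
  have h3 := size_pos p
  unfold emb
  omega

theorem size_emb_le (p : Om) (t : α) : size (emb p t) ≤ 4 * (p.length + size t) + 1 := by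
  have := (size_bits (emb p t)).2
  unfold emb at *
  rw [List.length_append] at this
  exact this

/-- Decoding. -/
def dcd [Cod α] (p : Om) (x : Om) : α := Cod.dec (decodeD (x.drop p.length))

theorem dcd_emb [Cod α] (p : Om) (t : α) : dcd p (emb p t) = t := by
  unfold dcd emb
  rw [List.drop_left, decodeD_codeT, Cod.dec_rep]

@[fun_prop]
theorem PT.dcd' [Cod β] (p : Om) {f : α → Om} (hf : PT true f) :
    PT true (fun a => (dcd p (f a) : β)) := by
  unfold dcd; fun_prop

/-- The range of an embedding. -/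
def InR (α : Type) [Rep α] [Cod α] (p x : Om) : Prop := emb p (dcd p x : α) = x

theorem inR_iff [Cod α] (p x : Om) : InR α p x ↔ ∃ t : α, emb p t = x := by
  constructor
  · intro h; exact ⟨_, h⟩
  · rintro ⟨t, rfl⟩
    unfold InR
    rw [dcd_emb]

theorem inR_emb [Cod α] (p : Om) (t : α) : InR α p (emb p t) := (inR_iff _ _).2 ⟨t, rfl⟩

theorem PHp.inR [Cod α] (p : Om) : PHp (InR α p) :=
  PHp.eqc (by fun_prop) PT.id

/-- The words with a given start. -/
def Pre (p x : Om) : Prop := x.take p.length = p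

theorem pre_append (p w : Om) : Pre p (p ++ w) := by simp [Pre]

theorem pre_emb (p : Om) (t : α) : Pre p (emb p t) := pre_append _ _

theorem PHp.pre' (p : Om) : PHp (Pre p) := PHp.eqc (by fun_prop) (by fun_prop)

theorem Pre.emb {p q : Om} (h : Pre p q) (t : α) : Pre p (emb q t) := by
  have : p.length ≤ q.length := by
    have := congrArg List.length h
    rw [List.length_take] at this
    omega
  unfold Pre PPH.emb
  rw [List.take_append_of_le_length this]
  exact h

/-- Words with different prefixes. -/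
theorem not_pre_of {p q x : Om} (hl : p.length = q.length) (hne : p ≠ q) (h : Pre p x) :
    ¬ Pre q x := by
  intro h'
  apply hne
  unfold Pre at h h'
  rw [← h, ← h', hl]

theorem Large.of_emb {X : Om → Prop} (p : Om) (h : ∀ x : Om, X (emb p x)) : Large X :=
  ⟨emb p, FH.of_pt (by fun_prop), emb_injective p, fun x => ⟨h x, by
    have := lt_size_emb p x; omega⟩⟩

/-- Existence of bijections which act on typed data in a given way. -/
theorem exists_op [Cod α] [Cod β] (p p' : Om) {W : Om → Prop} (hW : PHp W)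
    {Dm : α → Prop} (hD : PHp Dm) {F : α → β} (hF : FH F)
    (hWp : ∀ t : α, Dm t → W (emb p t)) (hWp' : ∀ t : α, Dm t → W (emb p' (F t)))
    (inj : ∀ s t, Dm s → Dm t → F s = F t → s = t)
    {b : β → ℕ} (hb : PT true b) (hbd : ∀ t, Dm t → size t ≤ b (F t))
    (hL : Large fun x => W x ∧ ¬ InR α p x) (hL' : Large fun x => W x ∧ ¬ InR β p' x) :
    ∃ g ∈ BH, (∀ t, Dm t → g (emb p t) = emb p' (F t)) ∧ ∀ x, ¬ W x → g x = x := by
  have h1 : PHp (fun x => InR α p x ∧ Dm (dcd p x)) :=
    (PHp.inR p).and (hD.pre (by fun_prop))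
  have h2 : FH (fun x : Om => emb p' (F (dcd p x))) :=
    (FH.of_pt (f := fun t : β => emb p' t) (by fun_prop)).comp
      (hF.comp (FH.of_pt (f := fun x : Om => (dcd p x : α)) (by fun_prop)))
  obtain ⟨g, hg, e1, e2⟩ := exists_ext (W := W) (Dm := fun x => InR α p x ∧ Dm (dcd p x))
    (F := fun x => emb p' (F (dcd p x))) hW h1 h2 (by
      rintro x ⟨h3, h4⟩
      obtain ⟨t, rfl⟩ := (inR_iff _ _).1 h3
      rw [dcd_emb] at h4 ⊢
      exact ⟨hWp t h4, hWp' t h4⟩) (by
      rintro x y ⟨h3, h4⟩ ⟨h5, h6⟩ h7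
      obtain ⟨t, rfl⟩ := (inR_iff _ _).1 h3
      obtain ⟨s, rfl⟩ := (inR_iff _ _).1 h5
      simp only [dcd_emb] at h4 h6 h7
      rw [inj t s h4 h6 (emb_injective _ h7)])
    (b := fun y => 4 * (p.length + b (dcd p' y)) + 1)
    (by
      have : PT true (fun y : Om => b (dcd p' y)) := hb.comp (by fun_prop)
      fun_prop) (by
      rintro x ⟨h3, h4⟩
      obtain ⟨t, rfl⟩ := (inR_iff _ _).1 h3
      simp only [dcd_emb] at h4 ⊢
      have h5 := hbd t h4
      have h6 := size_emb_le p t
      omega)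
    (hL.mono (fun x h => ⟨h.1, fun h' => h.2 h'.1⟩))
    (hL'.mono (fun x h => ⟨h.1, fun ⟨y, _, h'⟩ => h.2 (by rw [← h']; exact inR_emb _ _)⟩))
  refine ⟨g, hg, fun t ht => ?_, e2⟩
  have := e1 (emb p t) ⟨inR_emb _ _, by rw [dcd_emb]; exact ht⟩
  rw [this]
  simp only [dcd_emb]

/-- `g` acts on the copy of the words given by `c` as `a`, and trivially elsewhere. -/
def IsLift (c : α → Om) (a : Equiv.Perm α) (g : Equiv.Perm Om) : Prop :=
  (∀ x, g (c x) = c (a x)) ∧ ∀ y, (∀ x, c x ≠ y) → g y = y

omit [PPS.Rep α] in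
theorem IsLift.unique {c : α → Om} {a : Equiv.Perm α} {g g' : Equiv.Perm Om}
    (h : IsLift c a g) (h' : IsLift c a g') : g = g' := by
  ext1 y
  by_cases hy : ∃ x, c x = y
  · obtain ⟨x, rfl⟩ := hy
    rw [h.1, h'.1]
  · push Not at hy
    rw [h.2 y hy, h'.2 y hy]

open Classical in
theorem exists_lift [Cod α] (p : Om) (a : Equiv.Perm α) (ha : FH (a : α → α))
    (ha' : FH (a⁻¹ : Equiv.Perm α)) : ∃ g ∈ BH, IsLift (emb p) a g := by
  have key : ∀ f : α → α, FH f → FH (fun x : Om => if InR α p x then emb p (f (dcd p x)) else x) := by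
    intro f hf
    refine FH.ite ?_ (FH.of_pt PT.id) (PHp.inR p)
    exact (FH.of_pt (f := fun t : α => emb p t) (by fun_prop)).comp
      (hf.comp (FH.of_pt (f := fun x : Om => (dcd p x : α)) (by fun_prop)))
  have cancel : ∀ f f' : α → α, (∀ x, f' (f x) = x) → ∀ x : Om,
      (fun x : Om => if InR α p x then emb p (f' (dcd p x)) else x)
        ((fun x : Om => if InR α p x then emb p (f (dcd p x)) else x) x) = x := by
    intro f f' h x
    by_cases hx : InR α p x
    · obtain ⟨t, rfl⟩ := (inR_iff _ _).1 hx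
      simp only [inR_emb, if_true, dcd_emb, h]
    · simp only [hx, if_false]
  refine ⟨⟨fun x : Om => if InR α p x then emb p (a (dcd p x)) else x,
    fun x : Om => if InR α p x then emb p ((a⁻¹ : Equiv.Perm α) (dcd p x)) else x,
    cancel a (a⁻¹ : Equiv.Perm α) (fun x => by simp),
    cancel (a⁻¹ : Equiv.Perm α) a (fun x => by simp)⟩, ⟨key _ ha, key _ ha'⟩, ?_, ?_⟩
  · intro t
    show (if InR α p (emb p t) then emb p (a (dcd p (emb p t))) else emb p t) = _
    rw [if_pos (inR_emb _ _), dcd_emb]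
  · intro y hy
    show (if InR α p y then emb p (a (dcd p y)) else y) = _
    rw [if_neg]
    intro h
    obtain ⟨t, h⟩ := (inR_iff _ _).1 h
    exact hy t h

/-- Bijections with support in the range of an embedding are lifts. -/
theorem exists_unlift {c dc : Om → Om} (hc : FH c) (hdc : FH dc) (h : ∀ x, dc (c x) = x)
    {k : Equiv.Perm Om} (hk : k ∈ BH) (hs : ∀ y, (∀ x, c x ≠ y) → k y = y) :
    ∃ f ∈ BH, IsLift c f k := by
  have pres : ∀ k : Equiv.Perm Om, (∀ y, (∀ x, c x ≠ y) → k y = y) → ∀ x, c (dc (k (c x))) = k (c x) := by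
    intro k hs x
    by_contra hne
    have h1 : ∀ z, c z ≠ k (c x) := by
      intro z hz
      rw [← hz, h] at hne
      exact hne rfl
    have h2 := hs _ h1
    have h3 := k.injective h2
    exact h1 x h3.symm
  have hs' : ∀ y, (∀ x, c x ≠ y) → k⁻¹ y = y := by
    intro y hy
    rw [Equiv.Perm.inv_eq_iff_eq]
    exact (hs y hy).symm
  refine ⟨⟨fun x => dc (k (c x)), fun x => dc (k⁻¹ (c x)), ?_, ?_⟩, ⟨?_, ?_⟩, ?_, hs⟩
  · intro x
    simp only
    rw [pres k hs x]
    simp [h]
  · intro x
    simp only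
    rw [pres k⁻¹ hs' x]
    simp [h]
  · exact hdc.comp (hk.1.comp hc)
  · exact hdc.comp (hk.2.comp hc)
  · intro x
    exact (pres k hs x).symm

open Classical in
/-- Bijections with prescribed effect on a set. -/
theorem exists_conj {W X Y : Om → Prop} (hW : PHp W) (hX : PHp X) (hY : PHp Y)
    (XW : ∀ x, X x → W x) (YW : ∀ x, Y x → W x)
    (lX : Large X) (lY : Large Y) (lX' : Large fun x => W x ∧ ¬ X x)
    (lY' : Large fun x => W x ∧ ¬ Y x) :
    ∃ h ∈ BH, (∀ x, Y (h x) ↔ X x) ∧ ∀ x, ¬ W x → h x = x := by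
  obtain ⟨F, G, hF, hG, e1, e2⟩ := csb hX hY lX lY
  obtain ⟨F', G', hF', hG', e1', e2'⟩ := csb (hW.and hX.not) (hW.and hY.not) lX' lY'
  let g : Om → Om := fun x => if X x then F x else (if W x then F' x else x)
  let g' : Om → Om := fun x => if Y x then G x else (if W x then G' x else x)
  have hg : FH g := FH.ite hF (FH.ite hF' (FH.of_pt PT.id) hW) hX
  have hg' : FH g' := FH.ite hG (FH.ite hG' (FH.of_pt PT.id) hW) hY
  have g1 : ∀ x, X x → g x = F x := fun x h => if_pos h
  have g2 : ∀ x, ¬ X x → W x → g x = F' x := fun x h h' => by simp only [g, if_neg h, if_pos h']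
  have g3 : ∀ x, ¬ W x → g x = x := fun x h => by
    simp only [g, if_neg (fun h' => h (XW x h')), if_neg h]
  have g1' : ∀ x, Y x → g' x = G x := fun x h => if_pos h
  have g2' : ∀ x, ¬ Y x → W x → g' x = G' x := fun x h h' => by
    simp only [g', if_neg h, if_pos h']
  have g3' : ∀ x, ¬ W x → g' x = x := fun x h => by
    simp only [g', if_neg (fun h' => h (YW x h')), if_neg h]
  refine ⟨⟨g, g', ?_, ?_⟩, ⟨hg, hg'⟩, ?_, g3⟩
  · intro x
    by_cases hx : X x
    · rw [g1 x hx, g1' _ (e1 x hx).1, (e1 x hx).2]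
    · by_cases hw : W x
      · have := e1' x ⟨hw, hx⟩
        rw [g2 x hx hw, g2' _ this.1.2 this.1.1, this.2]
      · rw [g3 x hw, g3' x hw]
  · intro y
    by_cases hy : Y y
    · rw [g1' y hy, g1 _ (e2 y hy).1, (e2 y hy).2]
    · by_cases hw : W y
      · have := e2' y ⟨hw, hy⟩
        rw [g2' y hy hw, g2 _ this.1.2 this.1.1, this.2]
      · rw [g3' y hw, g3 y hw]
  · intro x
    show Y (g x) ↔ X x
    by_cases hx : X x
    · rw [g1 x hx]
      exact ⟨fun _ => hx, fun _ => (e1 x hx).1⟩
    · by_cases hw : W x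
      · rw [g2 x hx hw]
        exact ⟨fun h => absurd h (e1' x ⟨hw, hx⟩).1.2, fun h => absurd h hx⟩
      · rw [g3 x hw]
        exact ⟨fun h => absurd (YW x h) hw, fun h => absurd h hx⟩

end Pool.Agent.PPH
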