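import Pool.Agent.PPH.Sg

/-!
# Functions in the polynomial hierarchy
-/

namespace Pool.Agent.PPH

open Pool.Agent.PPS

variable {α β γ δ : Type} [Rep α] [Rep β] [Rep γ] [Rep δ] {k l : ℕ}

/-- The function has polynomially bounded values and its graph is in level `k`. -/
def FS (k : ℕ) (f : α → β) : Prop :=
  (∃ b : α → ℕ, PT true b ∧ ∀ a, size (f a) ≤ b a) ∧ Sg k (fun z : α × β => f z.1 = z.2)

theorem FS.bound {f : α → β} (hf : FS k f) :
    ∃ b : α → ℕ, PT true b ∧ ∀ a, size (f a) ≤ b a := hf.1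

theorem FS.graph {f : α → β} (hf : FS k f) : Sg k (fun z : α × β => f z.1 = z.2) := hf.2

theorem FS.mono {f : α → β} (hf : FS k f) (h : k ≤ l) : FS l f := ⟨hf.1, hf.2.mono h⟩

theorem PT.bound {f : α → β} (hf : PT true f) :
    ∃ b : α → ℕ, PT true b ∧ ∀ a, size (f a) ≤ b a := by
  obtain ⟨p, hp⟩ := hf.exists_size_le
  exact ⟨fun a => p.eval (size a), PT.polyEval (by fun_prop) p, hp⟩

theorem FS.of_pt {f : α → β} (hf : PT true f) : FS k f :=
  ⟨PT.bound hf, Sg.eqc (hf.comp PT.fst) PT.snd⟩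

/-- Composition of bounds. -/
theorem bound_comp {f : α → β} {g : β → γ}
    (hf : ∃ b : α → ℕ, PT true b ∧ ∀ a, size (f a) ≤ b a)
    (hg : ∃ b : β → ℕ, PT true b ∧ ∀ a, size (g a) ≤ b a) :
    ∃ b : α → ℕ, PT true b ∧ ∀ a, size (g (f a)) ≤ b a := by
  obtain ⟨b, hb, h1⟩ := hf
  obtain ⟨b', hb', h2⟩ := hg
  obtain ⟨p, hp⟩ := hb'.exists_size_le
  refine ⟨fun a => p.eval (b a), PT.polyEval hb p, fun a => ?_⟩
  have h3 := hp (f a)
  rw [size_nat] at h3
  have h4 := polyMono p (h1 a)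
  have h5 := h2 (f a)
  show size (g (f a)) ≤ p.eval (b a)
  omega

theorem FS.comp [Cod β] {g : β → γ} {f : α → β} (hg : FS (k + 1) g) (hf : FS (k + 1) f) :
    FS (k + 1) (fun a => g (f a)) := by
  refine ⟨bound_comp hf.1 hg.1, ?_⟩
  obtain ⟨b, hb, hb'⟩ := hf.1
  have h1 : Sg (k + 1) (fun z : (α × γ) × β => f z.1.1 = z.2) :=
    hf.2.pre (f := fun z : (α × γ) × β => (z.1.1, z.2)) (by fun_prop)
  have h2 : Sg (k + 1) (fun z : (α × γ) × β => g z.2 = z.1.2) :=
    hg.2.pre (f := fun z : (α × γ) × β => (z.2, z.1.2)) (by fun_prop)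
  refine ((h1.and h2).ex (b := fun z : α × γ => b z.1) (by fun_prop)).congr (fun z => ?_)
  constructor
  · intro h
    exact ⟨f z.1, hb' _, rfl, h⟩
  · rintro ⟨y, -, h1, h⟩
    simp only at h1 h
    show g (f z.1) = z.2
    rw [h1]
    exact h

theorem FS.pair {f : α → β} {g : α → γ} (hf : FS k f) (hg : FS k g) :
    FS k (fun a => (f a, g a)) := by
  obtain ⟨b, hb, hb'⟩ := hf.1
  obtain ⟨c, hc, hc'⟩ := hg.1
  refine ⟨⟨fun a => b a + c a + 1, by fun_prop, fun a => ?_⟩, ?_⟩
  · have h1 := hb' a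
    have h2 := hc' a
    show size (f a, g a) ≤ b a + c a + 1
    rw [size_pair]
    omega
  · have h1 : Sg k (fun z : α × (β × γ) => f z.1 = z.2.1) :=
      hf.2.pre (f := fun z : α × (β × γ) => (z.1, z.2.1)) (by fun_prop)
    have h2 : Sg k (fun z : α × (β × γ) => g z.1 = z.2.2) :=
      hg.2.pre (f := fun z : α × (β × γ) => (z.1, z.2.2)) (by fun_prop)
    refine (h1.and h2).congr (fun z => ?_)
    rw [Prod.ext_iff]

theorem Sg.preS [Cod β] {p : β → Prop} (hp : Sg (k + 1) p) {f : α → β} (hf : FS (k + 1) f) :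
    Sg (k + 1) (fun a => p (f a)) := by
  obtain ⟨b, hb, hb'⟩ := hf.1
  have h2 : Sg (k + 1) (fun z : α × β => p z.2) := hp.pre (by fun_prop)
  refine ((hf.2.and h2).ex hb).congr (fun a => ?_)
  constructor
  · intro h
    exact ⟨f a, hb' _, rfl, h⟩
  · rintro ⟨y, -, h1, h⟩
    simp only at h1
    rw [h1]
    exact h

theorem FS.ite [Cod β] {f g : α → β} {p : α → Prop} [DecidablePred p] (hf : FS (k + 1) f)
    (hg : FS (k + 1) g) (hp : Sg (k + 1) p) (hp' : Sg (k + 1) (fun a => ¬ p a)) :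
    FS (k + 1) (fun a => if p a then f a else g a) := by
  obtain ⟨b, hb, hb'⟩ := hf.1
  obtain ⟨c, hc, hc'⟩ := hg.1
  refine ⟨⟨fun a => b a + c a, by fun_prop, fun a => ?_⟩, ?_⟩
  · have h1 := hb' a
    have h2 := hc' a
    by_cases h : p a <;> simp only [h, if_true, if_false] <;> omega
  · have h1 : Sg (k + 1) (fun z : α × β => p z.1) := hp.pre (by fun_prop)
    have h2 : Sg (k + 1) (fun z : α × β => ¬ p z.1) := hp'.pre (f := fun z : α × β => z.1)
      (by fun_prop)
    refine ((h1.and hf.2).or (h2.and hg.2)).congr (fun z => ?_)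
    by_cases h : p z.1 <;> simp [h]

/-- The function is in the polynomial hierarchy. -/
def FH (f : α → β) : Prop := ∃ k, FS (k + 1) f

theorem FS.fh {f : α → β} (hf : FS k f) : FH f := ⟨k, hf.mono (Nat.le_succ k)⟩

theorem FH.mk {f : α → β} (h1 : ∃ b : α → ℕ, PT true b ∧ ∀ a, size (f a) ≤ b a)
    (h2 : PHp (fun z : α × β => f z.1 = z.2)) : FH f := by
  obtain ⟨k, h2⟩ := h2
  exact ⟨k, h1, h2.succ⟩

theorem FH.bound {f : α → β} (hf : FH f) :
    ∃ b : α → ℕ, PT true b ∧ ∀ a, size (f a) ≤ b a := hf.choose_spec.1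

theorem FH.graph {f : α → β} (hf : FH f) : PHp (fun z : α × β => f z.1 = z.2) :=
  ⟨_, hf.choose_spec.2⟩

theorem FH.of_pt {f : α → β} (hf : PT true f) : FH f := ⟨0, FS.of_pt hf⟩

theorem FH.comp [Cod β] {g : β → γ} {f : α → β} (hg : FH g) (hf : FH f) :
    FH (fun a => g (f a)) := by
  obtain ⟨k, hg⟩ := hg
  obtain ⟨l, hf⟩ := hf
  exact ⟨max k l, (hg.mono (by omega)).comp (hf.mono (by omega))⟩

theorem FH.pair {f : α → β} {g : α → γ} (hf : FH f) (hg : FH g) : FH (fun a => (f a, g a)) := by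
  obtain ⟨k, hg⟩ := hg
  obtain ⟨l, hf⟩ := hf
  exact ⟨max k l, (hf.mono (by omega)).pair (hg.mono (by omega))⟩

/-- Post-composition with a polynomial-time function. -/
theorem FH.pt [Cod β] {g : β → γ} {f : α → β} (hf : FH f) (hg : PT true g) :
    FH (fun a => g (f a)) := (FH.of_pt hg).comp hf

theorem PHp.preH [Cod β] {p : β → Prop} (hp : PHp p) {f : α → β} (hf : FH f) :
    PHp (fun a => p (f a)) := by
  obtain ⟨k, hp⟩ := hp
  obtain ⟨l, hf⟩ := hf
  exact ⟨max k l + 1, (hp.mono (by omega)).preS (hf.mono (by omega))⟩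

open Classical in
theorem FH.ite [Cod β] {f g : α → β} {p : α → Prop} (hf : FH f) (hg : FH g) (hp : PHp p) :
    FH (fun a => if p a then f a else g a) := by
  obtain ⟨i, hf⟩ := hf
  obtain ⟨j, hg⟩ := hg
  obtain ⟨l, hp⟩ := hp
  exact ⟨i + j + l, (hf.mono (by omega)).ite (hg.mono (by omega)) (hp.mono (by omega))
    (hp.not.mono (by omega))⟩

theorem FH.congr {f g : α → β} (hf : FH f) (h : ∀ a, g a = f a) : FH g :=
  (funext h : g = f) ▸ hf

theorem PHp.eqH [Cod β] {f g : α → β} (hf : FH f) (hg : FH g) : PHp (fun a => f a = g a) := by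
  have h1 : PHp (fun z : β × β => z.1 = z.2) := PHp.eqc PT.fst PT.snd
  exact h1.preH (hf.pair hg)

/-! ### Bounded search -/

theorem exists_min {S : β → Prop} (h : ∃ y, S y) : ∃ y, S y ∧ ∀ y', S y' → rank y ≤ rank y' := by
  classical
  have h' : ∃ n, ∃ y, S y ∧ rank y = n := by
    obtain ⟨y, hy⟩ := h
    exact ⟨_, y, hy, rfl⟩
  obtain ⟨y, hy, e⟩ := Nat.find_spec h'
  refine ⟨y, hy, fun y' hy' => ?_⟩
  rw [e]
  exact Nat.find_min' h' ⟨y', hy', rfl⟩

open Classical in
/-- The first `y` with `q (a, y)` in the order of codes, if there is one of size at most `b a`. -/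
noncomputable def pick (q : α × β → Prop) (b : α → ℕ) (a : α) : Option β :=
  if h : ∃ y, size y ≤ b a ∧ q (a, y) then some (Classical.choose (exists_min h)) else none

variable {q : α × β → Prop} {b : α → ℕ} {a : α} {y : β}

omit [PPS.Rep α] in
theorem pick_eq_some_iff : pick q b a = some y ↔
    (size y ≤ b a ∧ q (a, y)) ∧ ∀ y', size y' ≤ b a ∧ q (a, y') → rank y ≤ rank y' := by
  unfold pick
  split_ifs with h
  · have hs := Classical.choose_spec (exists_min h)
    constructor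
    · intro e
      rw [Option.some_inj] at e
      rw [← e]
      exact hs
    · rintro ⟨h1, h2⟩
      rw [Option.some_inj]
      exact rank_injective (le_antisymm (hs.2 _ h1) (h2 _ hs.1))
  · simp only [reduceCtorEq, false_iff]
    rintro ⟨h1, -⟩
    exact h ⟨y, h1⟩

omit [PPS.Rep α] in
theorem pick_eq_none_iff : pick q b a = none ↔ ¬ ∃ y, size y ≤ b a ∧ q (a, y) := by
  unfold pick
  split_ifs with h <;> simp [h]

omit [PPS.Rep α] in
theorem exists_pick (h : ∃ y, size y ≤ b a ∧ q (a, y)) :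
    ∃ y, pick q b a = some y ∧ size y ≤ b a ∧ q (a, y) := by
  cases e : pick q b a with
  | none => exact absurd h (pick_eq_none_iff.1 e)
  | some y => exact ⟨y, rfl, (pick_eq_some_iff.1 e).1⟩

omit [PPS.Rep α] in
theorem pick_unique (h : size y ≤ b a ∧ q (a, y)) (hu : ∀ y', q (a, y') → y' = y) :
    pick q b a = some y := by
  obtain ⟨y', h1, h2, h3⟩ := exists_pick (b := b) (q := q) ⟨y, h⟩
  rw [h1, hu _ h3]

theorem FH.pick [Cod β] (hq : PHp q) (hb : PT true b) : FH (pick q b) := by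
  refine FH.mk ⟨fun a => b a + 3, by fun_prop, fun a => ?_⟩ ?_
  · show size (PPH.pick q b a) ≤ b a + 3
    cases e : PPH.pick q b a with
    | none => rw [size_none]; omega
    | some y =>
      rw [size_some]
      have := (pick_eq_some_iff.1 e).1.1
      omega
  · have h0 : PHp (fun z : α × β => size z.2 ≤ b z.1) :=
      PHp.of_dec (PT.decideLe (by fun_prop) (hb.comp PT.fst))
    have h1 : PHp (fun a => ∃ y : β, size y ≤ b a ∧ q (a, y)) := hq.ex hb
    have h2 : PHp (fun z : α × Option β => z.2 = none) := PHp.eqc PT.snd (by fun_prop)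
    have h3 : PHp (fun z : α × Option β => ¬ ∃ y : β, size y ≤ b z.1 ∧ q (z.1, y)) :=
      h1.not.pre (f := fun z : α × Option β => z.1) (by fun_prop)
    have h4 : PHp (fun z : (α × Option β) × β => z.1.2 = some z.2) :=
      PHp.eqc (by fun_prop) (by fun_prop)
    have h5 : PHp (fun z : (α × Option β) × β => size z.2 ≤ b z.1.1 ∧ q (z.1.1, z.2)) :=
      (h0.and hq).pre (f := fun z : (α × Option β) × β => (z.1.1, z.2)) (by fun_prop)
    have h6 : PHp (fun z : (α × β) × β => q (z.1.1, z.2) → rank z.1.2 ≤ rank z.2) :=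
      (hq.pre (f := fun z : (α × β) × β => (z.1.1, z.2)) (by fun_prop)).imp
        (PHp.of_dec (PT.rankLe (by fun_prop) (by fun_prop)))
    have h7 : PHp (fun z : α × β => ∀ y' : β, size y' ≤ b z.1 → q (z.1, y') →
        rank z.2 ≤ rank y') := h6.all (hb.comp PT.fst)
    have h8 : PHp (fun z : (α × Option β) × β => ∀ y' : β, size y' ≤ b z.1.1 → q (z.1.1, y') →
        rank z.2 ≤ rank y') :=
      h7.pre (f := fun z : (α × Option β) × β => (z.1.1, z.2)) (by fun_prop)
    refine ((h2.and h3).or ((h4.and (h5.and h8)).ex (b := fun z : α × Option β => size z.2)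
      (by fun_prop))).congr (fun z => ?_)
    obtain ⟨a, o⟩ := z
    cases o with
    | none =>
      simp only [pick_eq_none_iff, true_and]
      constructor
      · intro h; exact Or.inl h
      · rintro (h | ⟨y, -, h, -⟩)
        · exact h
        · simp at h
    | some y =>
      simp only [pick_eq_some_iff, reduceCtorEq, false_and, false_or, Option.some_inj]
      constructor
      · rintro ⟨h1, h2⟩
        exact ⟨y, by rw [size_some]; omega, rfl, h1, fun y' h3 h4 => h2 y' ⟨h3, h4⟩⟩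
      · rintro ⟨y', -, rfl, h1, h2⟩
        exact ⟨h1, fun y' h3 => h2 y' h3.1 h3.2⟩

end Pool.Agent.PPH
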