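import Pool.Agent.PPH.Emb

/-!
# Fragmentation of bijections in the hierarchy
-/

namespace Pool.Agent.PPH

open Pool.Agent.PPS

variable {α β γ δ : Type} [Rep α] [Rep β] [Rep γ] [Rep δ]

/-- Injections whose images are sparse. -/
def Stretch (κ : Om → Om) : Prop :=
  FH κ ∧ Function.Injective κ ∧ ∀ z, 8 * size z ≤ size (κ z)

/-- The key counting argument: sparse sets can be avoided. -/
theorem exists_avoid {A : Om → Prop} {κ κ' : Om → Om} (hκ : Stretch κ) (hκ' : Stretch κ')
    (hA : ∀ y, A y → (∃ z, κ z = y) ∨ ∃ z, κ' z = y) (p : Om) (x : Om) :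
    ∃ w : Om, w.length = size x + p.length + 6 ∧ ¬ A (p ++ code x ++ w) := by
  by_contra hno
  push Not at hno
  set l := size x + p.length + 6 with hl
  let w : Fin (2 ^ l) → Om := fun t => bits l t
  have hw : ∀ t, (w t).length = l := fun t => length_bits _ _
  have hwi : Function.Injective w := by
    intro s t h
    have h1 := congrArg val h
    simp only [w, val_bits] at h1
    rw [Nat.mod_eq_of_lt s.2, Nat.mod_eq_of_lt t.2] at h1
    exact Fin.ext h1
  set L := p.length + size x + 3 with hL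
  have hch : ∀ t, ∃ c : Bool × Om, (bif c.1 then κ c.2 else κ' c.2) = p ++ code x ++ w t ∧
      size c.2 ≤ L := by
    intro t
    have hsz : size (p ++ code x ++ w t) ≤ 4 * (p.length + size x + l) + 1 := by
      have := (size_bits (p ++ code x ++ w t)).2
      rw [List.length_append, List.length_append, hw] at this
      exact this
    rcases hA _ (hno (w t) (hw t)) with ⟨z, hz⟩ | ⟨z, hz⟩
    · refine ⟨(true, z), hz, ?_⟩
      have := hκ.2.2 z
      rw [hz] at this
      simp only
      omega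
    · refine ⟨(false, z), hz, ?_⟩
      have := hκ'.2.2 z
      rw [hz] at this
      simp only
      omega
  choose c hc1 hc2 using hch
  let F : Fin (2 ^ l) → Bool × Fin (2 ^ (L + 1)) := fun t =>
    ((c t).1, ⟨rank (c t).2, (rank_lt _).trans_le
      (Nat.pow_le_pow_right (by norm_num) (by have := hc2 t; omega))⟩)
  have hF : Function.Injective F := by
    intro s t h
    simp only [F, Prod.mk.injEq, Fin.mk.injEq] at h
    have h2 : (c s).2 = (c t).2 := rank_injective h.2
    have h3 := hc1 s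
    rw [h.1, h2, hc1 t] at h3
    exact hwi (List.append_cancel_left h3).symm
  have := Fintype.card_le_of_injective F hF
  rw [Fintype.card_prod, Fintype.card_fin, Fintype.card_fin, Fintype.card_bool] at this
  have h4 : 2 * 2 ^ (L + 1) = 2 ^ (L + 2) := by rw [pow_succ 2 (L + 1)]; ring
  rw [h4] at this
  have h5 : 2 ^ (L + 2) < 2 ^ l := Nat.pow_lt_pow_right (by norm_num) (by omega)
  omega

theorem large_avoid {A X : Om → Prop} {κ κ' : Om → Om} (hκ : Stretch κ) (hκ' : Stretch κ')
    (hA : ∀ y, A y → (∃ z, κ z = y) ∨ ∃ z, κ' z = y) (hAp : PHp A) (p : Om)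
    (hX : ∀ w, X (p ++ w)) : Large fun x => X x ∧ ¬ A x := by
  let q : Om × Om → Prop := fun z => z.2.length = size z.1 + p.length + 6 ∧
    ¬ A (p ++ code z.1 ++ z.2)
  let b : Om → ℕ := fun x => 4 * (size x + p.length + 6) + 1
  have hb : PT true b := by show PT true (fun x : Om => 4 * (size x + p.length + 6) + 1); fun_prop
  have hq : PHp q := (PHp.eqc (by fun_prop) (by fun_prop)).and
    (hAp.pre (f := fun z : Om × Om => p ++ code z.1 ++ z.2) (by fun_prop)).not
  let ι : Om → Om := fun x => p ++ code x ++ og (pick q b x)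
  have hι : FH ι := by
    have h1 : FH (fun x : Om => (x, pick q b x)) := (FH.of_pt PT.id).pair (FH.pick hq hb)
    have h2 : PT true (fun z : Om × Option Om => p ++ code z.1 ++ og z.2) := by
      have h3 : PT true (fun z : Om × Option Om => og z.2) := PT.og'.comp PT.snd
      fun_prop
    exact h1.pt h2
  have hs : ∀ x, ∃ w, ι x = p ++ code x ++ w ∧ w.length = size x + p.length + 6 ∧
      ¬ A (p ++ code x ++ w) := by
    intro x
    obtain ⟨w, h1, h2⟩ := exists_avoid hκ hκ' hA p x
    have h3 : size w ≤ b x := by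
      have := (size_bits w).2
      rw [h1] at this
      exact this
    obtain ⟨w', h4, -, h6⟩ := exists_pick (q := q) (b := b) (a := x) ⟨w, h3, h1, h2⟩
    refine ⟨w', ?_, h6.1, h6.2⟩
    simp only [ι, h4]
    rfl
  refine ⟨ι, hι, ?_, fun x => ?_⟩
  · intro x y h
    obtain ⟨w, h1, -⟩ := hs x
    obtain ⟨w', h2, -⟩ := hs y
    rw [h1, h2, List.append_assoc, List.append_assoc] at h
    have h3 := List.append_cancel_left h
    exact Rep.rep_injective (D.code_append_inj _ _ _ _ h3).1
  · obtain ⟨w, h1, h2, h3⟩ := hs x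
    rw [h1]
    refine ⟨⟨by rw [List.append_assoc]; exact hX _, h3⟩, ?_⟩
    have h4 := lt_size_emb p x
    have h5 := size_append_eq (p ++ code x) w
    have h6 := size_pos w
    unfold emb at h4
    omega

/-- Move a sparse set to a standard place. -/
theorem exists_move {W : Om → Prop} (hW : PHp W) {Q : Om × Om → Prop} (hQ : PHp Q)
    {t dt : Om → Om} (ht : FH t) (hdt : PT true dt) (hinv : ∀ z, dt (t z) = z)
    (hQ1 : ∀ x z, Q (x, z) → size z ≤ size x ∧ W x ∧ W (t z))
    (hQ2 : ∀ x z z', Q (x, z) → Q (x, z') → z = z')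
    (hQ3 : ∀ x x' z, Q (x, z) → Q (x', z) → x = x')
    {b : Om → ℕ} (hb : PT true b) (hbd : ∀ x z, Q (x, z) → size x ≤ b z)
    (hL : Large fun x => W x ∧ ¬ ∃ z, size z ≤ size x ∧ Q (x, z))
    (hL' : Large fun y => W y ∧ ¬ ∃ z, t z = y) :
    ∃ g ∈ BH, (∀ x z, Q (x, z) → g x = t z) ∧ ∀ x, ¬ W x → g x = x := by
  have hs : PT true (fun x : Om => size x) := by fun_prop
  have hD : PHp (fun x : Om => ∃ z : Om, size z ≤ size x ∧ Q (x, z)) := hQ.ex hs
  have pk : ∀ x z, Q (x, z) → og (pick Q (fun x => size x) x) = z := by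
    intro x z h
    have := pick_unique (q := Q) (b := fun x => size x) (a := x) (y := z)
      ⟨(hQ1 x z h).1, h⟩ (fun z' h' => hQ2 x z' z h' h)
    rw [this]
    rfl
  obtain ⟨g, hg, e1, e2⟩ := exists_ext (W := W) (Dm := fun x => ∃ z, size z ≤ size x ∧ Q (x, z))
    (F := fun x => t (og (pick Q (fun x => size x) x))) hW hD
    (ht.comp ((FH.pick hQ hs).pt PT.og')) (by
      rintro x ⟨z, -, h⟩
      rw [pk x z h]
      exact (hQ1 x z h).2) (by
      rintro x y ⟨z, -, h⟩ ⟨z', -, h'⟩ e
      rw [pk x z h, pk y z' h'] at e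
      have : z = z' := by rw [← hinv z, e, hinv]
      subst this
      exact hQ3 _ _ _ h h') (b := fun y => b (dt y)) (hb.comp hdt) (by
      rintro x ⟨z, -, h⟩
      rw [pk x z h, hinv]
      exact hbd x z h) hL (hL'.mono (fun y h => ⟨h.1, fun ⟨x, ⟨z, _, hz⟩, e⟩ => h.2 ⟨z, by
        rw [← e, pk x z hz]⟩⟩))
  refine ⟨g, hg, fun x z h => ?_, e2⟩
  rw [e1 x ⟨z, (hQ1 x z h).1, h⟩, pk x z h]

/-- Standard sparse injections. -/
def st (p z : Om) : Om := emb p (z, 8 * size z)

theorem PT.st' (p : Om) : PT true (st p) := by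
  show PT true (fun z : Om => emb p (z, 8 * size z))
  fun_prop

/-- The inverse of a standard sparse injection. -/
def dst (p y : Om) : Om := (dcd p y : Om × ℕ).1

theorem PT.dst' (p : Om) : PT true (dst p) := by
  show PT true (fun y : Om => (dcd p y : Om × ℕ).1)
  fun_prop

theorem dst_st (p z : Om) : dst p (st p z) = z := by
  unfold dst st
  rw [dcd_emb]

theorem le_size_st (p z : Om) : 8 * size z ≤ size (st p z) := by
  have h1 := lt_size_emb p (z, 8 * size z)
  rw [size_pair, size_nat] at h1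
  unfold st
  omega

theorem st_injective (p : Om) : Function.Injective (st p) := by
  intro x y h
  rw [← dst_st p x, h, dst_st]

theorem stretch_st (p : Om) : Stretch (st p) :=
  ⟨FH.of_pt (PT.st' p), st_injective p, le_size_st p⟩

theorem pre_of_st {p q : Om} (h : Pre p q) (z : Om) : Pre p (st q z) := h.emb _

/-- First region. -/
abbrev R12 : Om → Prop := Pre [true]

/-- Complement of the third region. -/
abbrev R1 : Om → Prop := Pre [true, true]

theorem R12_of_R1 {x : Om} (h : R1 x) : R12 x := by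
  unfold R1 R12 Pre at *
  have := congrArg (List.take 1) h
  rw [List.take_take] at this
  simpa using this

section frag

variable {H : Subgroup (Equiv.Perm Om)}

theorem exists_place (h12 : ∀ g ∈ BH, (∀ x, ¬ R12 x → g x = x) → g ∈ H)
    (h23 : ∀ g ∈ BH, (∀ x, R1 x → g x = x) → g ∈ H) {κ : Om → Om} (hκ : Stretch κ) :
    ∃ h ∈ BH, h ∈ H ∧ ∀ z, h (κ z) = st [false] z := by
  obtain ⟨bκ, hbκ, hbκ'⟩ := hκ.1.bound
  have hs : PT true (fun x : Om => size x) := by fun_prop
  have rg : ∀ {κ : Om → Om}, FH κ → PHp (fun z : Om × Om => κ z.2 = z.1) := fun hκ =>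
    PHp.eqH (hκ.comp (FH.of_pt PT.snd)) (FH.of_pt PT.fst)
  have hle : ∀ z, size z ≤ size (κ z) := fun z => by have := hκ.2.2 z; omega
  -- first move
  have hQ1 : PHp (fun z : Om × Om => κ z.2 = z.1 ∧ R12 z.1) :=
    (rg hκ.1).and ((PHp.pre' _).pre PT.fst)
  obtain ⟨g, hg, e1, e2⟩ := exists_move (W := R12) (PHp.pre' _) hQ1
    (FH.of_pt (PT.st' [true, false])) (PT.dst' [true, false]) (dst_st _) (by
      rintro x z ⟨h0, h⟩
      simp only at h0 h
      subst h0
      exact ⟨hle z, h, pre_of_st (by exact rfl) z⟩) (by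
      rintro x z z' ⟨h1, -⟩ ⟨h2, -⟩
      exact hκ.2.1 (h1.trans h2.symm)) (by
      rintro x x' z ⟨h1, -⟩ ⟨h2, -⟩
      exact h1.symm.trans h2) hbκ (by
      rintro x z ⟨h0, -⟩
      simp only at h0
      subst h0
      exact hbκ' z)
    (large_avoid hκ hκ (fun y ⟨z, _, h, _⟩ => Or.inl ⟨z, h⟩) (hQ1.ex hs) [true]
      (fun w => pre_append [true] w))
    (Large.of_emb [true, true] (fun x => ⟨Pre.emb (by exact rfl) x, by
      rintro ⟨z, hz⟩
      have h1 : Pre [true, false] (emb [true, true] x) := by rw [← hz]; exact pre_of_st (by exact rfl) z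
      exact not_pre_of (by rfl) (by simp) h1 (pre_emb _ x)⟩))
  -- second move
  have hQ2 : PHp (fun z : Om × Om => (κ z.2 = z.1 ∧ ¬ R12 z.1) ∨
      (st [true, false] z.2 = z.1 ∧ R12 (κ z.2))) :=
    ((rg hκ.1).and ((PHp.pre' _).not.pre (f := fun z : Om × Om => z.1) PT.fst)).or
      ((rg (FH.of_pt (PT.st' _))).and ((PHp.pre' _).preH (hκ.1.comp (FH.of_pt PT.snd))))
  have pr : ∀ z, R12 (st [true, false] z) := fun z => pre_of_st (by exact rfl) z
  have npr : ∀ z, ¬ R1 (st [true, false] z) := fun z =>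
    not_pre_of (p := [true, false]) (by rfl) (by simp) (pre_of_st (by exact rfl) z)
  obtain ⟨g', hg', e1', e2'⟩ := exists_move (W := fun x => ¬ R1 x) (PHp.pre' _).not hQ2
    (FH.of_pt (PT.st' [false])) (PT.dst' [false]) (dst_st _) (by
      rintro x z (⟨h0, h⟩ | ⟨h0, h⟩) <;> simp only at h0 h <;> subst h0
      · refine ⟨hle z, fun h' => h (R12_of_R1 h'), fun h' => ?_⟩
        exact not_pre_of (p := [false]) (q := [true]) (by rfl) (by simp) (pre_of_st (by exact rfl) z)
          (R12_of_R1 h')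
      · refine ⟨by have := le_size_st [true, false] z; omega, npr z, fun h' => ?_⟩
        exact not_pre_of (p := [false]) (q := [true]) (by rfl) (by simp) (pre_of_st (by exact rfl) z)
          (R12_of_R1 h')) (by
      rintro x z z' (⟨h1, h2⟩ | ⟨h1, h2⟩) (⟨h3, h4⟩ | ⟨h3, h4⟩)
      · exact hκ.2.1 (h1.trans h3.symm)
      · exact absurd (h3 ▸ pr z') h2
      · exact absurd (h1 ▸ pr z) h4
      · exact st_injective _ (h1.trans h3.symm)) (by
      rintro x x' z (⟨h1, h2⟩ | ⟨h1, h2⟩) (⟨h3, h4⟩ | ⟨h3, h4⟩)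
      · exact h1.symm.trans h3
      · simp only at h1 h2 h4; rw [h1] at h4; exact absurd h4 h2
      · simp only at h3 h2 h4; rw [h3] at h2; exact absurd h2 h4
      · exact h1.symm.trans h3) (b := fun z => bκ z + size (st [true, false] z))
    (by have := (PT.st' [true, false]).size'; fun_prop) (by
      rintro x z (⟨h0, -⟩ | ⟨h0, -⟩) <;> simp only at h0 <;> subst h0
      · have := hbκ' z; show _ ≤ bκ z + size (st [true, false] z); omega
      · show _ ≤ bκ z + size (st [true, false] z); omega)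
    (large_avoid hκ (stretch_st [true, false]) (by
      rintro y ⟨z, -, (⟨h, -⟩ | ⟨h, -⟩)⟩
      · exact Or.inl ⟨z, h⟩
      · exact Or.inr ⟨z, h⟩) (hQ2.ex hs) [false] (fun w h => by simp [Pre] at h))
    (Large.of_emb [true, false] (fun x => ⟨fun h =>
      not_pre_of (p := [true, false]) (by rfl) (by simp) (pre_emb _ x) h, by
      rintro ⟨z, hz⟩
      have h1 : Pre [false] (emb [true, false] x) := by rw [← hz]; exact pre_of_st (by exact rfl) z
      exact not_pre_of (by rfl) (by simp) h1 (Pre.emb (p := [true]) (by exact rfl) x)⟩))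
  refine ⟨g' * g, BH.mul_mem hg' hg, H.mul_mem (h23 g' hg' (fun x hx => e2' x (fun h => h hx)))
    (h12 g hg e2), fun z => ?_⟩
  rw [Equiv.Perm.mul_apply]
  by_cases h : R12 (κ z)
  · rw [e1 (κ z) z ⟨rfl, h⟩]
    exact e1' _ z (Or.inr ⟨rfl, h⟩)
  · rw [e2 _ h]
    exact e1' _ z (Or.inl ⟨rfl, h⟩)

/-- Fragmentation. -/
theorem frag (h12 : ∀ g ∈ BH, (∀ x, ¬ R12 x → g x = x) → g ∈ H)
    (h23 : ∀ g ∈ BH, (∀ x, R1 x → g x = x) → g ∈ H) {f : Equiv.Perm Om} (hf : f ∈ BH) :
    f ∈ H := by
  -- a sparse set whose image is sparse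
  obtain ⟨b, hb, hb'⟩ := hf.2.bound
  obtain ⟨P, hP⟩ := hb.exists_size_le
  let κ : Om → Om := fun z => emb [false] (z, P.eval (8 * size z) + 8 * size z)
  have hκP : PT true κ := by
    have : PT true (fun z : Om => P.eval (8 * size z)) := PT.polyEval (by fun_prop) P
    show PT true (fun z : Om => emb [false] (z, P.eval (8 * size z) + 8 * size z))
    fun_prop
  have hκi : Function.Injective κ := by
    intro x y h
    have := emb_injective _ h
    exact (Prod.mk.inj this).1
  have hκs : ∀ z, P.eval (8 * size z) + 8 * size z < size (κ z) := by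
    intro z
    have h1 := lt_size_emb [false] (z, P.eval (8 * size z) + 8 * size z)
    rw [size_pair, size_nat] at h1
    show _ < size (emb [false] (z, P.eval (8 * size z) + 8 * size z))
    omega
  have s1 : Stretch κ := ⟨FH.of_pt hκP, hκi, fun z => by have := hκs z; omega⟩
  have s2 : Stretch (fun z => f (κ z)) := by
    refine ⟨hf.1.comp (FH.of_pt hκP), f.injective.comp hκi, fun z => ?_⟩
    by_contra hlt
    push Not at hlt
    have h1 : size (κ z) ≤ b (f (κ z)) := by
      have := hb' (f (κ z))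
      simpa using this
    have h2 := hP (f (κ z))
    rw [size_nat] at h2
    have h3 := polyMono P hlt.le
    have h4 := hκs z
    omega
  obtain ⟨h, hh, hhH, e1⟩ := exists_place h12 h23 s1
  obtain ⟨h', hh', hhH', e2⟩ := exists_place h12 h23 s2
  -- `k` fixes the standard sparse set
  let g : Equiv.Perm Om := f⁻¹ * h'⁻¹ * h
  have hg : g ∈ BH := BH.mul_mem (BH.mul_mem (BH.inv_mem hf) (BH.inv_mem hh')) hh
  have g1 : ∀ z, g (κ z) = κ z := by
    intro z
    simp only [g, Equiv.Perm.mul_apply, e1]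
    rw [← e2 z]
    simp
  let k : Equiv.Perm Om := h * g * h⁻¹
  have hk : k ∈ BH := BH.mul_mem (BH.mul_mem hh hg) (BH.inv_mem hh)
  have k1 : ∀ z, k (st [false] z) = st [false] z := by
    intro z
    have : h⁻¹ (st [false] z) = κ z := by rw [Equiv.Perm.inv_eq_iff_eq, e1]
    simp only [k, Equiv.Perm.mul_apply, this, g1, e1]
  -- move the standard sparse set onto the third region
  have hX : PHp (fun x : Om => st [false] (dst [false] x) = x) :=
    PHp.eqc ((PT.st' _).comp (PT.dst' _)) PT.id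
  have hXi : ∀ x : Om, st [false] (dst [false] x) = x ↔ ∃ z, st [false] z = x := by
    intro x
    constructor
    · intro h; exact ⟨_, h⟩
    · rintro ⟨z, rfl⟩; rw [dst_st]
  have n1 : ∀ z, ¬ R12 (st [false] z) := fun z =>
    not_pre_of (p := [false]) (by rfl) (by simp) (pre_of_st (by exact rfl) z)
  obtain ⟨q, hq, q1, q2⟩ := exists_conj (W := fun x => ¬ R1 x)
    (X := fun x => st [false] (dst [false] x) = x) (Y := fun x => ¬ R12 x)
    (PHp.pre' _).not hX (PHp.pre' _).not (by
      intro x hx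
      obtain ⟨z, rfl⟩ := (hXi x).1 hx
      exact fun h => n1 z (R12_of_R1 h)) (fun x h h' => h (R12_of_R1 h'))
    ⟨st [false], FH.of_pt (PT.st' _), st_injective _, fun z =>
      ⟨(hXi _).2 ⟨z, rfl⟩, by have := le_size_st [false] z; have := size_pos z; omega⟩⟩
    (Large.of_emb [false] (fun x =>
      not_pre_of (p := [false]) (by rfl) (by simp) (pre_emb _ x)))
    (Large.of_emb [true, false] (fun x => ⟨
      not_pre_of (p := [true, false]) (by rfl) (by simp) (pre_emb _ x), fun h => by
      obtain ⟨z, hz⟩ := (hXi _).1 h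
      have := n1 z
      rw [hz] at this
      exact this (Pre.emb (by exact rfl) x)⟩))
    (Large.of_emb [true, false] (fun x => ⟨
      not_pre_of (p := [true, false]) (by rfl) (by simp) (pre_emb _ x), fun h =>
      h (Pre.emb (by exact rfl) x)⟩))
  have hqH : q ∈ H := h23 q hq (fun x hx => q2 x (fun h => h hx))
  have hc : q * k * q⁻¹ ∈ H := by
    refine h12 _ (BH.mul_mem (BH.mul_mem hq hk) (BH.inv_mem hq)) (fun x hx => ?_)
    have h3 : st [false] (dst [false] (q⁻¹ x)) = q⁻¹ x := by
      rw [← q1]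
      simpa using hx
    have h4 : k (q⁻¹ x) = q⁻¹ x := by
      rw [← h3, k1]
    simp only [Equiv.Perm.mul_apply, h4]
    simp
  have hkH : k ∈ H := by
    have : k = q⁻¹ * (q * k * q⁻¹) * q := by group
    rw [this]
    exact H.mul_mem (H.mul_mem (H.inv_mem hqH) hc) hqH
  have : f = h'⁻¹ * k⁻¹ * h := by
    simp only [k, g]; group
  rw [this]
  exact H.mul_mem (H.mul_mem (H.inv_mem hhH') (H.inv_mem hkH)) hhH

end frag

end Pool.Agent.PPH
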