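import Pool.Agent.PPH.Frag

/-!
# Finite generation from a universal function
-/

namespace Pool.Agent.PPH

open Pool.Agent.PPS

variable {α β γ δ : Type} [Rep α] [Rep β] [Rep γ] [Rep δ]

/-! ### Paddings -/

/-- Square the top element. -/
def sqTop : List ℕ → List ℕ
  | [] => []
  | h :: t => (h * h) :: t

theorem PT.sqTop' {f : α → List ℕ} (hf : PT true f) : PT true (fun a => sqTop (f a)) := by
  have := PT.listCase (m := true) (α := List ℕ) (β := ℕ) (γ := List ℕ) (l := fun l => l)
    (f := fun _ => []) (g := fun z => (z.1.1 * z.1.1) :: z.1.2) PT.id (by fun_prop) (by fun_prop)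
  refine (this.of_eq (g := sqTop) (fun o => ?_)).comp hf
  cases o <;> rfl

theorem sqTop_injective : Function.Injective sqTop := by
  intro a b h
  cases a <;> cases b
  · rfl
  · simp [sqTop] at h
  · simp [sqTop] at h
  · simp only [sqTop, List.cons.injEq, Nat.mul_self_inj] at h
    rw [h.1, h.2]

theorem size_sqTop (P : List ℕ) : size P ≤ size (sqTop P) := by
  cases P with
  | nil => exact le_rfl
  | cons h t =>
    rw [sqTop, size_cons, size_cons, size_nat, size_nat]
    have : h ≤ h * h := Nat.le_mul_self h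
    omega

/-- One step of the construction of a padding. -/
def padStep (b : Bool) (x : Om) (P : List ℕ) : List ℕ :=
  bif b then (size x + size P + 2) :: P else sqTop P

/-- The padding of `x` constructed by a word. -/
def padW : List Bool → Om → List ℕ
  | [], _ => []
  | b :: w, x => padStep b x (padW w x)

/-- States. -/
abbrev St := Om × (Om × (Option Om × (List ℕ × List ℕ)))

/-- The copy of the words on which everything acts. -/
abbrev pY : Om := [false, false]

/-- Prefix of the codes of states. -/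
abbrev pS : Om := [false, true, true]

/-- Support of the generators. -/
def W1 (x : Om) : Prop := InR Om pY x ∨ Pre [false, true] x

theorem PHp.W1' : PHp W1 := (PHp.inR pY).or (PHp.pre' _)

theorem W1_st (s : St) : W1 (emb pS s) := Or.inr (Pre.emb (p := [false, true]) (by exact rfl) s)

theorem W1_y (x : Om) : W1 (emb pY x) := Or.inl (inR_emb _ _)

theorem room1 : Large fun x => W1 x ∧ ¬ InR St pS x :=
  Large.of_emb [false, true, false] (fun x => ⟨Or.inr (Pre.emb (p := [false, true]) (by exact rfl) x), by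
    intro h
    obtain ⟨t, ht⟩ := (inR_iff _ _).1 h
    have h1 : Pre [false, true, true] (emb [false, true, false] x) := by
      rw [← ht]; exact pre_emb _ t
    exact not_pre_of (by rfl) (by simp) h1 (pre_emb _ x)⟩)

theorem room2 : Large fun x => W1 x ∧ ¬ InR Om pY x :=
  Large.of_emb [false, true, false] (fun x => ⟨Or.inr (Pre.emb (p := [false, true]) (by exact rfl) x), by
    intro h
    obtain ⟨t, ht⟩ := (inR_iff _ _).1 h
    have h1 : Pre [false, false] (emb [false, true, false] x) := by
      rw [← ht]; exact pre_emb _ t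
    exact not_pre_of (p := [false, false]) (q := [false, true]) (by rfl) (by simp) h1
      (Pre.emb (p := [false, true]) (by exact rfl) x)⟩)

theorem exists_stop {Dm : St → Prop} (hD : PHp Dm) {F : St → St} (hF : FH F)
    (inj : ∀ s t, Dm s → Dm t → F s = F t → s = t) (hs : ∀ s, Dm s → size s ≤ size (F s)) :
    ∃ g ∈ BH, (∀ s, Dm s → g (emb pS s) = emb pS (F s)) ∧ ∀ x, ¬ W1 x → g x = x :=
  exists_op pS pS PHp.W1' hD hF (fun t _ => W1_st t) (fun t _ => W1_st _) inj
    (b := fun s => size s) (by fun_prop) hs room1 room1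

/-- The universal property used for the construction of generators. -/
def Univ (u u' : (Om × Om) × List ℕ → Om) : Prop :=
  ∀ f g : Om → Om, FH f → FH g → ∃ (e : Om) (w : List Bool), ∀ x,
    u ((e, x), padW w x) = f x ∧ u' ((e, x), padW w x) = g x

open Equiv.Perm in
/-- Step A1. -/
theorem exists_gens {u u' : (Om × Om) × List ℕ → Om} (hu : FH u) (hu' : FH u')
    (hU : Univ u u') :
    ∃ S : Set (Equiv.Perm Om), S.Finite ∧ S ⊆ BH ∧ (∀ g ∈ S, ∀ x, ¬ W1 x → g x = x) ∧
      ∀ a ∈ BH, ∃ Φ ∈ Subgroup.closure S, ∀ x, Φ (emb pY x) = emb pY (a x) := by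
  have top : PHp (fun _ : St => True) := (PHp.of_pt (f := fun _ : St => true) (by fun_prop)).congr
    (fun _ => by simp)
  -- entering
  obtain ⟨gE, hE, eE, wE⟩ := exists_op (α := Om) (β := St) pY pS PHp.W1' (Dm := fun _ => True)
    ((PHp.of_pt (f := fun _ : Om => true) (by fun_prop)).congr (fun _ => by simp))
    (F := fun x => ([], x, none, [], [])) (FH.of_pt (by fun_prop)) (fun t _ => W1_y t)
    (fun t _ => W1_st _) (by
      intro s t _ _ h
      simp only [Prod.mk.injEq, true_and, and_true] at h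
      exact h) (b := fun s => size s) (by fun_prop) (by
      intro t _
      simp only [size_pair]
      omega) room2 room1
  -- letters of the code
  have hJ : ∀ b : Bool, ∃ g ∈ BH, (∀ s : St, g (emb pS s) = emb pS (b :: s.1, s.2)) ∧
      ∀ x, ¬ W1 x → g x = x := by
    intro b
    obtain ⟨g, h1, h2, h3⟩ := exists_stop top (F := fun s => (b :: s.1, s.2))
      (FH.of_pt (by fun_prop)) (by
        rintro ⟨e, s⟩ ⟨e', s'⟩ _ _ h
        simp only [Prod.mk.injEq, List.cons.injEq, true_and] at h
        rw [h.1, h.2]) (by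
        rintro ⟨e, s⟩ _
        simp only [size_pair, size_cons]
        omega)
    exact ⟨g, h1, fun s => h2 s trivial, h3⟩
  choose gJ hJ eJ wJ using hJ
  -- paddings
  have hA : ∀ b : Bool, ∃ g ∈ BH, (∀ (e x : Om) (y : Option Om) (P Q : List ℕ),
      g (emb pS (e, x, y, P, Q)) = emb pS (e, x, y, padStep b x P, Q)) ∧
      ∀ x, ¬ W1 x → g x = x := by
    intro b
    obtain ⟨g, h1, h2, h3⟩ := exists_stop top
      (F := fun s => (s.1, s.2.1, s.2.2.1, padStep b s.2.1 s.2.2.2.1, s.2.2.2.2))
      (FH.of_pt (by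
        have : PT true (fun s : St => padStep b s.2.1 s.2.2.2.1) := by
          unfold padStep
          have := PT.sqTop' (f := fun s : St => s.2.2.2.1) (by fun_prop)
          fun_prop
        fun_prop)) (by
        rintro ⟨e, x, y, P, Q⟩ ⟨e', x', y', P', Q'⟩ _ _ h
        simp only [Prod.mk.injEq] at h
        obtain ⟨rfl, rfl, rfl, h4, rfl⟩ := h
        have : P = P' := by
          cases b
          · exact sqTop_injective h4
          · simp only [padStep, cond_true, List.cons.injEq] at h4
            exact h4.2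
        rw [this]) (by
        rintro ⟨e, x, y, P, Q⟩ _
        simp only [size_pair]
        have : size P ≤ size (padStep b x P) := by
          cases b
          · exact size_sqTop P
          · show size P ≤ size (_ :: P)
            rw [size_cons]; omega
        omega)
    exact ⟨g, h1, fun e x y P Q => h2 _ trivial, h3⟩
  choose gA hA eA wA using hA
  -- exchange
  obtain ⟨gW, hW, eW', wW⟩ := exists_stop (Dm := fun s => ¬ s.2.2.1 = none)
    (PHp.eqc (by fun_prop) (by fun_prop)).not
    (F := fun s => (s.1, og s.2.2.1, some s.2.1, s.2.2.2.2, s.2.2.2.1))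
    (FH.of_pt (by
      have : PT true (fun s : St => og s.2.2.1) := PT.og'.comp (by fun_prop)
      fun_prop)) (by
      rintro ⟨e, x, y, P, Q⟩ ⟨e', x', y', P', Q'⟩ h1 h2 h
      simp only [Prod.mk.injEq, Option.some.injEq] at h
      obtain ⟨rfl, h3, rfl, rfl, rfl⟩ := h
      simp only at h1 h2
      obtain ⟨z, rfl⟩ := Option.ne_none_iff_exists'.1 h1
      obtain ⟨z', rfl⟩ := Option.ne_none_iff_exists'.1 h2
      simp only [og, Option.getD_some] at h3
      rw [h3]) (by
      rintro ⟨e, x, y, P, Q⟩ h1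
      simp only at h1
      obtain ⟨z, rfl⟩ := Option.ne_none_iff_exists'.1 h1
      simp only [size_pair, size_some, og, Option.getD_some]
      omega)
  have eW : ∀ (e x y : Om) (P Q : List ℕ), gW (emb pS (e, x, some y, P, Q)) =
      emb pS (e, y, some x, Q, P) := by
    intro e x y P Q
    have := eW' (e, x, some y, P, Q) (by simp)
    exact this
  -- universal functions
  have hV : ∀ v : (Om × Om) × List ℕ → Om, FH v → ∃ g ∈ BH, (∀ (e x : Om) (P : List ℕ),
      g (emb pS (e, x, (none : Option Om), P, ([] : List ℕ))) =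
        emb pS (e, x, some (v ((e, x), P)), P, ([] : List ℕ))) ∧
      ∀ x, ¬ W1 x → g x = x := by
    intro v hv
    obtain ⟨g, h1, h2, h3⟩ := exists_stop (Dm := fun s => s.2.2.1 = none ∧ s.2.2.2.2 = [])
      ((PHp.eqc (by fun_prop) (by fun_prop)).and (PHp.eqc (by fun_prop) (by fun_prop)))
      (F := fun s => (s.1, s.2.1, some (v ((s.1, s.2.1), s.2.2.2.1)), s.2.2.2.1, s.2.2.2.2))
      (by
        have h1 : FH (fun s : St => (s, v ((s.1, s.2.1), s.2.2.2.1))) :=
          (FH.of_pt PT.id).pair (hv.comp (FH.of_pt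
            (f := fun s : St => ((s.1, s.2.1), s.2.2.2.1)) (by fun_prop)))
        exact h1.pt (g := fun z : St × Om => (z.1.1, z.1.2.1, some z.2, z.1.2.2.2.1,
          z.1.2.2.2.2)) (by fun_prop)) (by
        rintro ⟨e, x, y, P, Q⟩ ⟨e', x', y', P', Q'⟩ h1 h2 h
        simp only [Prod.mk.injEq] at h
        simp only at h1 h2
        obtain ⟨rfl, rfl⟩ := h1
        obtain ⟨rfl, rfl⟩ := h2
        obtain ⟨rfl, rfl, -, rfl, -⟩ := h
        rfl) (by
        rintro ⟨e, x, y, P, Q⟩ h1
        simp only at h1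
        obtain ⟨rfl, rfl⟩ := h1
        simp only [size_pair, size_some, size_none]
        omega)
    exact ⟨g, h1, fun e x P => h2 _ ⟨rfl, rfl⟩, h3⟩
  obtain ⟨gV, hV1, eV, wV⟩ := hV u hu
  obtain ⟨gV', hV1', eV', wV'⟩ := hV u' hu'
  let S : Set (Equiv.Perm Om) := {gE, gJ false, gJ true, gA false, gA true, gW, gV, gV'}
  have hfin : S.Finite := by
    simp only [S]
    exact Set.toFinite _
  have mE : gE ∈ Subgroup.closure S := Subgroup.subset_closure (by simp [S])
  have mJ : ∀ b, gJ b ∈ Subgroup.closure S := fun b =>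
    Subgroup.subset_closure (by cases b <;> simp [S])
  have mA : ∀ b, gA b ∈ Subgroup.closure S := fun b =>
    Subgroup.subset_closure (by cases b <;> simp [S])
  have mW : gW ∈ Subgroup.closure S := Subgroup.subset_closure (by simp [S])
  have mV : gV ∈ Subgroup.closure S := Subgroup.subset_closure (by simp [S])
  have mV' : gV' ∈ Subgroup.closure S := Subgroup.subset_closure (by simp [S])
  refine ⟨S, hfin, ?_, ?_, ?_⟩
  · intro g hg
    simp only [S, Set.mem_insert_iff, Set.mem_singleton_iff] at hg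
    rcases hg with rfl | rfl | rfl | rfl | rfl | rfl | rfl | rfl
    exacts [hE, hJ _, hJ _, hA _, hA _, hW, hV1, hV1']
  · intro g hg
    simp only [S, Set.mem_insert_iff, Set.mem_singleton_iff] at hg
    rcases hg with rfl | rfl | rfl | rfl | rfl | rfl | rfl | rfl
    exacts [wE, wJ _, wJ _, wA _, wA _, wW, wV, wV']
  · intro a ha
    obtain ⟨e, w, hew⟩ := hU a (a⁻¹ : Equiv.Perm Om) ha.1 ha.2
    -- words in the generators
    have exJ : ∀ l : Om, ∃ g ∈ Subgroup.closure S, ∀ s : Om × (Option Om × (List ℕ × List ℕ)),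
        g (emb pS (([] : Om), s)) = emb pS (l, s) := by
      intro l
      induction l with
      | nil => exact ⟨1, Subgroup.one_mem _, fun s => rfl⟩
      | cons b l ih =>
        obtain ⟨g, h1, h2⟩ := ih
        refine ⟨gJ b * g, Subgroup.mul_mem _ (mJ b) h1, fun s => ?_⟩
        rw [Equiv.Perm.mul_apply, h2, eJ]
    have exA : ∀ w : List Bool, ∃ g ∈ Subgroup.closure S, ∀ (e x : Om) (y : Option Om)
        (Q : List ℕ), g (emb pS (e, x, y, ([] : List ℕ), Q)) =
          emb pS (e, x, y, padW w x, Q) := by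
      intro l
      induction l with
      | nil => exact ⟨1, Subgroup.one_mem _, fun e x y Q => rfl⟩
      | cons b l ih =>
        obtain ⟨g, h1, h2⟩ := ih
        refine ⟨gA b * g, Subgroup.mul_mem _ (mA b) h1, fun e x y Q => ?_⟩
        rw [Equiv.Perm.mul_apply, h2, eA]
        rfl
    obtain ⟨j, mj, ej⟩ := exJ e
    obtain ⟨v, mv, ev⟩ := exA w
    refine ⟨gE⁻¹ * (j⁻¹ * (v⁻¹ * (gV'⁻¹ * (gW * (v⁻¹ * (gW * (v * (gW * (gV * (v * (j * gE))))))))))),
      ?_, fun x => ?_⟩
    · have im := fun {g : Equiv.Perm Om} (h : g ∈ Subgroup.closure S) =>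
        Subgroup.inv_mem _ h
      have mm := fun {g h : Equiv.Perm Om} (h1 : g ∈ Subgroup.closure S)
        (h2 : h ∈ Subgroup.closure S) => Subgroup.mul_mem _ h1 h2
      exact mm (im mE) (mm (im mj) (mm (im mv) (mm (im mV') (mm mW (mm (im mv) (mm mW (mm mv
        (mm mW (mm mV (mm mv (mm mj mE)))))))))))
    · have inv_eq : ∀ {g : Equiv.Perm Om} {y z : Om}, g z = y → g⁻¹ y = z := by
        intro g y z h
        rw [← h]; simp
      simp only [Equiv.Perm.mul_apply]
      rw [eE x trivial, ej, ev, eV, (hew x).1, eW, ev, eW,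
        inv_eq (ev e x (some (a x)) (padW w (a x))), eW]
      have h1 : u' ((e, a x), padW w (a x)) = x := by
        rw [(hew (a x)).2]; simp
      have h2 := eV' e (a x) (padW w (a x))
      rw [h1] at h2
      rw [inv_eq h2, inv_eq (ev e (a x) none []), inv_eq (ej _), inv_eq (eE (a x) trivial)]

/-! ### The commutator trick -/

/-- Exchange two prefixes. -/
def sw (x : Om) : Om :=
  bif decide (x.take 2 = [false, true]) then true :: false :: x.drop 2 else
    (bif decide (x.take 2 = [true, false]) then false :: true :: x.drop 2 else x)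

theorem PT.sw' : PT true sw := by
  show PT true (fun x : Om => bif decide (x.take 2 = [false, true]) then
    true :: false :: x.drop 2 else
    (bif decide (x.take 2 = [true, false]) then false :: true :: x.drop 2 else x))
  fun_prop

theorem sw_sw (x : Om) : sw (sw x) = x := by
  rcases x with _ | ⟨a, _ | ⟨b, x⟩⟩
  · rfl
  · cases a <;> rfl
  · cases a <;> cases b <;> simp [sw]

/-- The exchange as a permutation. -/
def swE : Equiv.Perm Om := ⟨sw, sw, sw_sw, sw_sw⟩

theorem swE_mem : swE ∈ BH := ⟨FH.of_pt PT.sw', FH.of_pt PT.sw'⟩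

theorem sw_y (x : Om) : sw (emb pY x) = emb pY x := by simp [sw, emb]

theorem sw_pre {x : Om} (h : Pre [false, true] (sw x)) : Pre [true, false] x := by
  rcases x with _ | ⟨a, _ | ⟨b, x⟩⟩
  · simp [sw, Pre] at h
  · cases a <;> simp [sw, Pre] at h
  · cases a <;> cases b <;> simp [sw, Pre] at h ⊢

/-- The copy on which all commutators act. -/
def c3 (x : Om) : Om := emb pY (emb [false] ((0 : ℕ), x))

/-- Its inverse. -/
def dc3 (y : Om) : Om := (dcd [false] (dcd pY y : Om) : ℕ × Om).2

theorem dc3_c3 (x : Om) : dc3 (c3 x) = x := by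
  unfold dc3 c3
  rw [dcd_emb, dcd_emb]

theorem PT.c3' : PT true c3 := by
  show PT true (fun x : Om => emb pY (emb [false] ((0 : ℕ), x)))
  fun_prop

theorem PT.dc3' : PT true dc3 := by
  show PT true (fun y : Om => (dcd [false] (dcd pY y : Om) : ℕ × Om).2)
  fun_prop

/-- Every bijection on a copy of the words is a commutator. -/
theorem swindle {f : Equiv.Perm Om} (hf : f ∈ BH) : ∃ a ∈ BH, ∃ t ∈ BH,
    IsLift (fun x : Om => emb [false] ((0 : ℕ), x)) f (a * t * a⁻¹ * t⁻¹) := by
  -- the shift
  obtain ⟨t, ht, et, -⟩ := exists_op (α := ℕ × Om) (β := ℕ × Om) [false] [false]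
    (W := fun _ => True) ((PHp.of_pt (f := fun _ : Om => true) (by fun_prop)).congr
      (fun _ => by simp)) (Dm := fun _ => True)
    ((PHp.of_pt (f := fun _ : ℕ × Om => true) (by fun_prop)).congr (fun _ => by simp))
    (F := fun z => (z.1 + 1, z.2)) (FH.of_pt (by fun_prop)) (fun _ _ => trivial)
    (fun _ _ => trivial) (by
      rintro ⟨i, x⟩ ⟨j, y⟩ _ _ h
      simp only [Prod.mk.injEq, Nat.add_right_cancel_iff] at h
      rw [h.1, h.2]) (b := fun z => size z) (by fun_prop) (by
      rintro ⟨i, x⟩ _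
      simp only [size_pair, size_nat]
      omega)
    (Large.of_emb [true] (fun x => ⟨trivial, fun h => by
      obtain ⟨t, ht⟩ := (inR_iff _ _).1 h
      have h1 : Pre [false] (emb [true] x) := by rw [← ht]; exact pre_emb _ t
      exact not_pre_of (by rfl) (by simp) h1 (pre_emb _ x)⟩))
    (Large.of_emb [true] (fun x => ⟨trivial, fun h => by
      obtain ⟨t, ht⟩ := (inR_iff _ _).1 h
      have h1 : Pre [false] (emb [true] x) := by rw [← ht]; exact pre_emb _ t
      exact not_pre_of (by rfl) (by simp) h1 (pre_emb _ x)⟩))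
  have et : ∀ (i : ℕ) (x : Om), t (emb [false] (i, x)) = emb [false] (i + 1, x) :=
    fun i x => et (i, x) trivial
  -- the diagonal copy
  have fh : ∀ g : Om → Om, FH g → FH (fun z : ℕ × Om => (z.1, g z.2)) := fun g hg =>
    (FH.of_pt PT.fst).pair (hg.comp (FH.of_pt PT.snd))
  obtain ⟨a, ha, ea⟩ := exists_lift (α := ℕ × Om) [false]
    ⟨fun z => (z.1, f z.2), fun z => (z.1, f⁻¹ z.2), fun z => by simp, fun z => by simp⟩
    (fh _ hf.1) (fh _ hf.2)
  have ea1 : ∀ (i : ℕ) (x : Om), a (emb [false] (i, x)) = emb [false] (i, f x) :=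
    fun i x => ea.1 (i, x)
  have ea2 : ∀ (i : ℕ) (x : Om), a⁻¹ (emb [false] (i, x)) = emb [false] (i, f⁻¹ x) := by
    intro i x
    rw [Equiv.Perm.inv_eq_iff_eq, ea1]
    simp
  have ea3 : ∀ y, (∀ z : ℕ × Om, emb [false] z ≠ y) → a y = y := ea.2
  have ea4 : ∀ y, (∀ z : ℕ × Om, emb [false] z ≠ y) → a⁻¹ y = y := by
    intro y hy
    rw [Equiv.Perm.inv_eq_iff_eq, ea3 y hy]
  refine ⟨a, ha, t, ht, ?_, ?_⟩
  · intro x
    simp only [Equiv.Perm.mul_apply]
    have h1 : ∀ z : ℕ × Om, emb [false] z ≠ t⁻¹ (emb [false] ((0 : ℕ), x)) := by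
      rintro ⟨i, z⟩ h
      have h2 : t (emb [false] (i, z)) = emb [false] ((0 : ℕ), x) := by rw [h]; simp
      rw [et] at h2
      have := emb_injective _ h2
      simp at this
    rw [ea4 _ h1]
    simp only [Equiv.Perm.coe_inv, Equiv.apply_symm_apply, ea1]
  · intro y hy
    simp only [Equiv.Perm.mul_apply]
    by_cases hr : ∃ z : ℕ × Om, emb [false] z = y
    · obtain ⟨⟨i, x⟩, rfl⟩ := hr
      cases i with
      | zero => exact absurd rfl (hy x)
      | succ i =>
        have h1 : t⁻¹ (emb [false] (i + 1, x)) = emb [false] (i, x) := by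
          rw [Equiv.Perm.inv_eq_iff_eq, et]
        rw [h1, ea2, et, ea1]
        simp
    · push Not at hr
      have h1 : ∀ z : ℕ × Om, emb [false] z ≠ t⁻¹ y := by
        rintro ⟨i, z⟩ h
        have h2 : t (emb [false] (i, z)) = y := by rw [h]; simp
        rw [et] at h2
        exact hr _ h2
      rw [ea4 _ h1]
      simp only [Equiv.Perm.coe_inv, Equiv.apply_symm_apply]
      exact ea3 y hr

/-- Step A. -/
theorem exists_gens2 {u u' : (Om × Om) × List ℕ → Om} (hu : FH u) (hu' : FH u')
    (hU : Univ u u') :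
    ∃ S : Set (Equiv.Perm Om), S.Finite ∧ S ⊆ BH ∧
      ∀ f ∈ BH, ∀ g : Equiv.Perm Om, IsLift c3 f g → g ∈ Subgroup.closure S := by
  obtain ⟨S, hfin, hS, hsupp, hgen⟩ := exists_gens hu hu' hU
  refine ⟨insert swE S, hfin.insert _, ?_, ?_⟩
  · intro g hg
    rcases Set.mem_insert_iff.1 hg with rfl | hg
    · exact swE_mem
    · exact hS hg
  have mS : Subgroup.closure S ≤ Subgroup.closure (insert swE S) :=
    Subgroup.closure_mono (Set.subset_insert _ _)
  have mσ : swE ∈ Subgroup.closure (insert swE S) :=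
    Subgroup.subset_closure (Set.mem_insert _ _)
  have hsupp' : ∀ g ∈ Subgroup.closure S, ∀ x, ¬ W1 x → g x = x := by
    intro g hg
    induction hg using Subgroup.closure_induction with
    | mem g hg => exact hsupp g hg
    | one => intro x _; rfl
    | mul g h _ _ h1 h2 =>
      intro x hx
      rw [Equiv.Perm.mul_apply, h2 x hx, h1 x hx]
    | inv g _ h1 =>
      intro x hx
      rw [Equiv.Perm.inv_eq_iff_eq, h1 x hx]
  intro f hf g hg
  obtain ⟨a, ha, t, ht, hat⟩ := swindle hf
  obtain ⟨A, mA, eA⟩ := hgen a ha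
  obtain ⟨T, mT, eT⟩ := hgen t ht
  -- `g` is a commutator
  let B : Equiv.Perm Om := swE * T * swE⁻¹
  have key : g = A * B * A⁻¹ * B⁻¹ := by
    have sinv : swE⁻¹ = swE := rfl
    have eA' : ∀ x, A⁻¹ (emb pY x) = emb pY (a⁻¹ x) := by
      intro x; rw [Equiv.Perm.inv_eq_iff_eq, eA]; simp
    have eT' : ∀ x, T⁻¹ (emb pY x) = emb pY (t⁻¹ x) := by
      intro x; rw [Equiv.Perm.inv_eq_iff_eq, eT]; simp
    have B1 : ∀ y, B y = sw (T (sw y)) := fun y => rfl
    have B2 : ∀ y, B⁻¹ y = sw (T⁻¹ (sw y)) := by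
      intro y
      rw [Equiv.Perm.inv_eq_iff_eq, B1, sw_sw]
      simp [sw_sw]
    have eB : ∀ x, B (emb pY x) = emb pY (t x) := by
      intro x; rw [B1, sw_y, eT, sw_y]
    have eB' : ∀ x, B⁻¹ (emb pY x) = emb pY (t⁻¹ x) := by
      intro x; rw [B2, sw_y, eT', sw_y]
    -- invariance of the complement of the copy
    have nY : ∀ (g : Equiv.Perm Om) (s : Equiv.Perm Om), (∀ x, g (emb pY x) = emb pY (s x)) →
        ∀ y, ¬ InR Om pY y → ¬ InR Om pY (g y) := by
      intro g s h y hy hy'
      obtain ⟨z, hz⟩ := (inR_iff _ _).1 hy'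
      apply hy
      have : g (emb pY (s⁻¹ z)) = g y := by rw [h, ← hz]; simp
      rw [← g.injective this]
      exact inR_emb _ _
    have sY : ∀ y, ¬ InR Om pY y → ¬ InR Om pY (sw y) := by
      intro y hy hy'
      obtain ⟨z, hz⟩ := (inR_iff _ _).1 hy'
      apply hy
      have : sw (sw y) = sw (emb pY z) := by rw [hz]
      rw [sw_sw, sw_y] at this
      rw [this]
      exact inR_emb _ _
    have invA : ∀ y, ¬ W1 y → A⁻¹ y = y := fun y hy => by
      rw [Equiv.Perm.inv_eq_iff_eq, hsupp' A mA y hy]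
    have invT : ∀ y, ¬ W1 y → T⁻¹ y = y := fun y hy => by
      rw [Equiv.Perm.inv_eq_iff_eq, hsupp' T mT y hy]
    -- `B` is trivial outside the copy and the region `[true, false]`
    have B0 : ∀ y, ¬ InR Om pY y → ¬ Pre [true, false] y → B y = y ∧ B⁻¹ y = y := by
      intro y h1 h2
      have h3 : ¬ W1 (sw y) := by
        rintro (h | h)
        · exact sY y h1 h
        · exact h2 (sw_pre h)
      rw [B1, B2, hsupp' T mT _ h3, invT _ h3, sw_sw]
      exact ⟨rfl, rfl⟩
    have A0 : ∀ y, ¬ InR Om pY y → ¬ Pre [false, true] y → A y = y ∧ A⁻¹ y = y := by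
      intro y h1 h2
      have h3 : ¬ W1 y := by
        rintro (h | h)
        · exact h1 h
        · exact h2 h
      exact ⟨hsupp' A mA _ h3, invA _ h3⟩
    have pA : ∀ y, ¬ InR Om pY y → Pre [false, true] y → Pre [false, true] (A⁻¹ y) := by
      intro y h1 h2
      by_contra h3
      have h4 := nY A⁻¹ a⁻¹ eA' y h1
      have h5 := (A0 _ h4 h3).1
      simp only [Equiv.Perm.coe_inv, Equiv.apply_symm_apply] at h5
      apply h3
      simp only [Equiv.Perm.coe_inv]
      rw [← h5]
      exact h2
    have pB : ∀ y, ¬ InR Om pY y → Pre [true, false] y → Pre [true, false] (B⁻¹ y) := by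
      intro y h1 h2
      by_contra h3
      have h4 := nY B⁻¹ t⁻¹ eB' y h1
      have h5 := (B0 _ h4 h3).1
      simp only [Equiv.Perm.coe_inv, Equiv.apply_symm_apply] at h5
      apply h3
      simp only [Equiv.Perm.coe_inv]
      rw [← h5]
      exact h2
    ext1 y
    simp only [Equiv.Perm.mul_apply]
    by_cases hy : InR Om pY y
    · obtain ⟨x, rfl⟩ := (inR_iff _ _).1 hy
      rw [eB', eA', eB, eA]
      have h1 : a (t (a⁻¹ (t⁻¹ x))) = (a * t * a⁻¹ * t⁻¹) x := rfl
      rw [h1]
      by_cases hx : ∃ z : Om, emb [false] ((0 : ℕ), z) = x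
      · obtain ⟨z, rfl⟩ := hx
        rw [hat.1 z]
        exact hg.1 z
      · push Not at hx
        rw [hat.2 x hx]
        refine hg.2 _ (fun z hz => hx z ?_)
        exact emb_injective _ hz
    · have h1 : g y = y := by
        refine hg.2 y (fun x hx => hy ?_)
        rw [← hx]
        exact inR_emb _ _
      rw [h1]
      by_cases h2 : Pre [true, false] y
      · -- `A` is trivial here
        have h3 : ¬ InR Om pY (B⁻¹ y) := nY _ _ eB' y hy
        have h4 := pB y hy h2
        have h5 : ¬ Pre [false, true] (B⁻¹ y) := not_pre_of (by rfl) (by simp) h4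
        rw [(A0 _ h3 h5).2]
        have h6 : B (B⁻¹ y) = y := by simp
        rw [h6, (A0 y hy (not_pre_of (by rfl) (by simp) h2)).1]
      · rw [(B0 y hy h2).2]
        by_cases h3 : Pre [false, true] y
        · have h4 := pA y hy h3
          have h5 : ¬ InR Om pY (A⁻¹ y) := nY _ _ eA' y hy
          rw [(B0 _ h5 (not_pre_of (by rfl) (by simp) h4)).1]
          simp
        · rw [(A0 y hy h3).2, (B0 y hy h2).1, (A0 y hy h3).1]
  rw [key]
  have m1 := mS mA
  have m2 : B ∈ Subgroup.closure (insert swE S) :=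
    Subgroup.mul_mem _ (Subgroup.mul_mem _ mσ (mS mT)) (Subgroup.inv_mem _ mσ)
  exact Subgroup.mul_mem _ (Subgroup.mul_mem _ (Subgroup.mul_mem _ m1 m2)
    (Subgroup.inv_mem _ m1)) (Subgroup.inv_mem _ m2)

/-- Finite generation from a universal function. -/
theorem fg_of_univ {u u' : (Om × Om) × List ℕ → Om} (hu : FH u) (hu' : FH u')
    (hU : Univ u u') : BH.FG := by
  obtain ⟨S, hfin, hS, hgen⟩ := exists_gens2 hu hu' hU
  have hX : PHp (fun x : Om => c3 (dc3 x) = x) :=
    PHp.eqc (PT.c3'.comp PT.dc3') PT.id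
  have hXi : ∀ x : Om, c3 (dc3 x) = x ↔ ∃ z, c3 z = x := by
    intro x
    constructor
    · intro h; exact ⟨_, h⟩
    · rintro ⟨z, rfl⟩; rw [dc3_c3]
  have cinj : Function.Injective c3 := fun x y h => by rw [← dc3_c3 x, h, dc3_c3]
  have lX : Large fun x : Om => c3 (dc3 x) = x :=
    ⟨c3, FH.of_pt PT.c3', cinj, fun x => ⟨(hXi _).2 ⟨x, rfl⟩, by
      have h1 := lt_size_emb pY (emb [false] ((0 : ℕ), x))
      have h2 := lt_size_emb [false] ((0 : ℕ), x)
      rw [size_pair] at h2
      show size x < size (emb pY (emb [false] ((0 : ℕ), x)))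
      omega⟩⟩
  have top : PHp (fun _ : Om => True) := (PHp.of_pt (f := fun _ : Om => true) (by fun_prop)).congr
    (fun _ => by simp)
  have lX' : Large fun x : Om => True ∧ ¬ c3 (dc3 x) = x :=
    Large.of_emb [true] (fun x => ⟨trivial, fun h => by
      obtain ⟨z, hz⟩ := (hXi _).1 h
      have h1 : Pre [false] (emb [true] x) := by
        rw [← hz]; exact Pre.emb (p := [false]) (by exact rfl) _
      exact not_pre_of (by rfl) (by simp) h1 (pre_emb _ x)⟩)
  -- conjugators for the two regions
  have conj : ∀ (Y : Om → Prop), PHp Y → Large Y → (Large fun x => True ∧ ¬ Y x) →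
      ∃ h ∈ BH, ∀ g ∈ BH, (∀ x, ¬ Y x → g x = x) →
        g ∈ Subgroup.closure (insert h S) := by
    intro Y hY lY lY'
    obtain ⟨h, hh, h1, -⟩ := exists_conj (W := fun _ => True) top hX hY (fun _ _ => trivial)
      (fun _ _ => trivial) lX lY lX' lY'
    refine ⟨h, hh, fun g hg hs => ?_⟩
    have hk : h⁻¹ * g * h ∈ BH := BH.mul_mem (BH.mul_mem (BH.inv_mem hh) hg) hh
    obtain ⟨f, hf, hl⟩ := exists_unlift (c := c3) (dc := dc3) (FH.of_pt PT.c3')
      (FH.of_pt PT.dc3') dc3_c3 hk (by
        intro y hy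
        have h2 : ¬ Y (h y) := by
          rw [h1, hXi]
          rintro ⟨z, hz⟩
          exact hy z hz
        simp only [Equiv.Perm.mul_apply, hs _ h2]
        simp)
    have h2 := hgen f hf _ hl
    have h3 : Subgroup.closure S ≤ Subgroup.closure (insert h S) :=
      Subgroup.closure_mono (Set.subset_insert _ _)
    have h4 : h ∈ Subgroup.closure (insert h S) := Subgroup.subset_closure (Set.mem_insert _ _)
    have : g = h * (h⁻¹ * g * h) * h⁻¹ := by group
    rw [this]
    exact Subgroup.mul_mem _ (Subgroup.mul_mem _ h4 (h3 h2)) (Subgroup.inv_mem _ h4)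
  obtain ⟨h, hh, e1⟩ := conj R12 (PHp.pre' _)
    (Large.of_emb [true] (fun x => pre_emb _ x))
    (Large.of_emb [false] (fun x => ⟨trivial,
      not_pre_of (p := [false]) (by rfl) (by simp) (pre_emb _ x)⟩))
  obtain ⟨h', hh', e2⟩ := conj (fun x => ¬ R1 x) (PHp.pre' _).not
    (Large.of_emb [true, false] (fun x =>
      not_pre_of (p := [true, false]) (by rfl) (by simp) (pre_emb _ x)))
    (Large.of_emb [true, true] (fun x => ⟨trivial, fun h => h (pre_emb _ x)⟩))
  have hfin2 : (insert h (insert h' S)).Finite := (hfin.insert _).insert _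
  refine ⟨hfin2.toFinset, ?_⟩
  rw [Set.Finite.coe_toFinset]
  apply le_antisymm
  · rw [Subgroup.closure_le]
    intro g hg
    rcases Set.mem_insert_iff.1 hg with rfl | hg
    · exact hh
    rcases Set.mem_insert_iff.1 hg with rfl | hg
    · exact hh'
    · exact hS hg
  · intro f hf
    refine frag (H := Subgroup.closure (insert h (insert h' S))) ?_ ?_ hf
    · intro g hg hs
      exact Subgroup.closure_mono (Set.insert_subset_insert (Set.subset_insert _ _)) (e1 g hg hs)
    · intro g hg hs
      exact Subgroup.closure_mono (Set.subset_insert _ _)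
        (e2 g hg (fun x hx => hs x (not_not.1 hx)))

end Pool.Agent.PPH
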