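import Pool.Agent.PPH.Mono

/-!
# The groups attached to the polynomial hierarchy
-/

namespace Pool.Agent.PPH

open Pool.Agent.PPS

theorem graph_ph_iff (f : Om → Om) :
    graphL f ∈ PH ↔ PHp (fun z : Om × Om => f z.1 = z.2) := by
  constructor
  · rintro ⟨k, h⟩; exact ⟨k, (graphL_iff k f).1 h⟩
  · rintro ⟨k, h⟩; exact ⟨k, (graphL_iff k f).2 h⟩

/-- The group of all bijections `f` of the set of words over `{0, 1}` such that `f` and its
inverse are polynomially bounded in length and the graph of `f` is in the polynomial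
hierarchy. -/
def BPH : Subgroup (Equiv.Perm (List Bool)) where
  carrier := {f | PolyBounded f ∧ graphL f ∈ PH}
  one_mem' := (mem_BH_iff 1).1 BH.one_mem
  mul_mem' := by
    intro f g hf hg
    exact (mem_BH_iff _).1 (BH.mul_mem ((mem_BH_iff f).2 hf) ((mem_BH_iff g).2 hg))
  inv_mem' := by
    intro f hf
    exact (mem_BH_iff _).1 (BH.inv_mem ((mem_BH_iff f).2 hf))

theorem BPH_eq : BPH = BH := by
  ext f
  exact (mem_BH_iff f).symm

theorem mem_MH_iff (f : Function.End Om) :
    f ∈ MH ↔ (∃ p : Polynomial ℕ, ∀ x : List Bool, (f x).length ≤ p.eval x.length) ∧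
      graphL f ∈ PH := by
  rw [graph_ph_iff, bound_iff]
  constructor
  · intro h
    exact ⟨FH.bound h, FH.graph h⟩
  · rintro ⟨h1, h2⟩
    exact FH.mk h1 h2

/-- The monoid of all functions `f` from the set of words over `{0, 1}` to itself such that `f`
is polynomially bounded in length and the graph of `f` is in the polynomial hierarchy. -/
def MPH : Submonoid (Function.End (List Bool)) where
  carrier := {f | (∃ p : Polynomial ℕ, ∀ x : List Bool, (f x).length ≤ p.eval x.length) ∧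
    graphL f ∈ PH}
  one_mem' := (mem_MH_iff 1).1 MH.one_mem
  mul_mem' := by
    intro f g hf hg
    exact (mem_MH_iff _).1 (MH.mul_mem ((mem_MH_iff f).2 hf) ((mem_MH_iff g).2 hg))

theorem MPH_eq : MPH = MH := by
  ext f
  exact (mem_MH_iff f).symm

theorem mem_GS_iff (k : ℕ) (f : Equiv.Perm Om) :
    f ∈ GS k ↔ (∀ x, (f x).length = x.length) ∧ graphL f ∈ SigmaP (k + 1) := by
  rw [graphL_iff]
  exact Iff.rfl

/-- The group of all length preserving permutations of the set of words over `{0, 1}` whose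
graph is in `Σᵖ_(k+1)`. -/
def GLev (k : ℕ) : Subgroup (Equiv.Perm (List Bool)) where
  carrier := {f | (∀ x, (f x).length = x.length) ∧ graphL f ∈ SigmaP (k + 1)}
  one_mem' := (mem_GS_iff k 1).1 (GS k).one_mem
  mul_mem' := by
    intro f g hf hg
    exact (mem_GS_iff k _).1 ((GS k).mul_mem ((mem_GS_iff k f).2 hf) ((mem_GS_iff k g).2 hg))
  inv_mem' := by
    intro f hf
    exact (mem_GS_iff k _).1 ((GS k).inv_mem ((mem_GS_iff k f).2 hf))

theorem GLev_eq (k : ℕ) : GLev k = GS k := by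
  ext f
  exact (mem_GS_iff k f).symm

theorem GS_mono {k l : ℕ} (h : k ≤ l) : GS k ≤ GS l := fun _ hf =>
  ⟨hf.1, hf.2.mono (by omega)⟩

/-- The group of all length preserving permutations of the set of words over `{0, 1}` whose
graph is in the polynomial hierarchy. -/
def GPH : Subgroup (Equiv.Perm (List Bool)) where
  carrier := {f | (∀ x, (f x).length = x.length) ∧ graphL f ∈ PH}
  one_mem' := ⟨fun _ => rfl, (graph_ph_iff _).2 ⟨1, (GS 0).one_mem.2⟩⟩
  mul_mem' := by
    rintro f g ⟨h1, h2⟩ ⟨h3, h4⟩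
    rw [graph_ph_iff] at h2 h4
    obtain ⟨k, h2⟩ := h2
    obtain ⟨l, h4⟩ := h4
    have a : f ∈ GS (max k l) := ⟨h1, h2.mono (by omega)⟩
    have b : g ∈ GS (max k l) := ⟨h3, h4.mono (by omega)⟩
    have c := (GS _).mul_mem a b
    exact ⟨c.1, (graph_ph_iff _).2 ⟨_, c.2⟩⟩
  inv_mem' := by
    rintro f ⟨h1, h2⟩
    rw [graph_ph_iff] at h2
    obtain ⟨k, h2⟩ := h2
    have a : f ∈ GS k := ⟨h1, h2.mono (by omega)⟩
    have c := (GS _).inv_mem a
    exact ⟨c.1, (graph_ph_iff _).2 ⟨_, c.2⟩⟩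

theorem GS_le_GPH (k : ℕ) : GS k ≤ GPH := fun _ hf => ⟨hf.1, (graph_ph_iff _).2 ⟨_, hf.2⟩⟩

theorem GPH_le_of_coll {K : ℕ} (h : Coll K) {k : ℕ} (hk : K ≤ k + 1) : GPH ≤ GS k := by
  rintro f ⟨h1, h2⟩
  rw [graph_ph_iff] at h2
  exact ⟨h1, (h.typed h2).mono hk⟩

end Pool.Agent.PPH
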