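import Pool.Agent.PPH.Trans

/-!
# Isomorphisms between the groups of two levels give advice
-/

namespace Pool.Agent.PPH

open Pool.Agent.PPS Equiv

variable {α β γ δ : Type} [PPS.Rep α] [PPS.Rep β] [PPS.Rep γ] [PPS.Rep δ]

/-! ### Transfer of the group theoretic property -/

/-- The property in an abstract group. -/
def TrG {G : Type} [Group G] (t : G) : Prop :=
  t * t = 1 ∧ ∀ g : G, (t * (g * t * g⁻¹)) ^ 2 = 1 ∨ (t * (g * t * g⁻¹)) ^ 3 = 1

theorem tr_iff {G : Subgroup (Perm Om)} (t : G) : Tr G (t : Perm Om) ↔ TrG t := by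
  constructor
  · rintro ⟨h1, h2⟩
    refine ⟨Subtype.ext h1, fun g => ?_⟩
    rcases h2 g g.2 with h | h
    · exact Or.inl (Subtype.ext h)
    · exact Or.inr (Subtype.ext h)
  · rintro ⟨h1, h2⟩
    refine ⟨congrArg Subtype.val h1, fun g hg => ?_⟩
    rcases h2 ⟨g, hg⟩ with h | h
    · exact Or.inl (congrArg Subtype.val h)
    · exact Or.inr (congrArg Subtype.val h)

theorem TrG.map {G G' : Type} [Group G] [Group G'] (Φ : G ≃* G') {t : G} (h : TrG t) :
    TrG (Φ t) := by
  refine ⟨by rw [← map_mul, h.1, map_one], fun g => ?_⟩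
  rcases h.2 (Φ.symm g) with h | h
  · left
    have := congrArg Φ h
    simpa using this
  · right
    have := congrArg Φ h
    simpa using this

theorem iso_len {m : ℕ} {H : Subgroup (Perm Om)} (hH : ∀ h ∈ H, ∀ x, (h x).length = x.length)
    (Φ : GS m ≃* H) {a b : Om} (hab : a.length = b.length) {t : GS m}
    (ht : (Φ t : Perm Om) = swap a b) {x : Om} (hx : (t : Perm Om) x ≠ x) (hl : 3 ≤ x.length) :
    x.length ≤ 2 * a.length := by
  classical
  by_contra hlt
  push Not at hlt
  set y := (t : Perm Om) x with hy
  have ly : y.length = x.length := GS.length t.2 x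
  let c : Om → GS m := fun z => if h : y.length = z.length then ⟨swap y z, swap_mem_GS m h⟩ else 1
  have hc : ∀ z, z.length = x.length → (c z : Perm Om) = swap y z := by
    intro z hz
    simp only [c, dif_pos (ly.trans hz.symm)]
  let κ : Om → GS m := fun z => c z * t * (c z)⁻¹
  have hκ : ∀ z, z.length = x.length → z ≠ x → (κ z : Perm Om) x = z := by
    intro z hz hne
    simp only [κ, Subgroup.coe_mul, Subgroup.coe_inv, hc z hz, Perm.mul_apply]
    rw [show (swap y z)⁻¹ = swap y z from swap_inv _ _, swap_apply_of_ne_of_ne (Ne.symm hx)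
      (Ne.symm hne), ← hy, swap_apply_left]
  have hΦ : ∀ z, (Φ (κ z) : Perm Om) = swap ((Φ (c z) : Perm Om) a) ((Φ (c z) : Perm Om) b) := by
    intro z
    simp only [κ, map_mul, map_inv, Subgroup.coe_mul, Subgroup.coe_inv, ht]
    rw [swap_apply_apply]
  let F : Om → Om × Om := fun z => ((Φ (c z) : Perm Om) a, (Φ (c z) : Perm Om) b)
  have h1 : ((words x.length).erase x).card ≤ (words a.length ×ˢ words a.length).card := by
    refine Finset.card_le_card_of_injOn F ?_ ?_
    · intro z _
      simp only [F, Finset.coe_product, Set.mem_prod, Finset.mem_coe, mem_words]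
      exact ⟨hH _ (Φ (c z)).2 a, (hH _ (Φ (c z)).2 b).trans hab.symm⟩
    · intro z hz z' hz' h
      simp only [Finset.coe_erase, Set.mem_sdiff, Finset.mem_coe, mem_words,
        Set.mem_singleton_iff] at hz hz'
      simp only [F, Prod.mk.injEq] at h
      have h2 : Φ (κ z) = Φ (κ z') := Subtype.ext (by rw [hΦ, hΦ, h.1, h.2])
      have h3 := Φ.injective h2
      rw [← hκ z hz.1 hz.2, h3, hκ z' hz'.1 hz'.2]
  rw [Finset.card_erase_of_mem (mem_words.2 rfl), card_words, Finset.card_product, card_words] at h1
  have h2 : 2 ^ a.length * 2 ^ a.length = 2 ^ (2 * a.length) := by rw [← pow_add, two_mul]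
  rw [h2] at h1
  have h3 : 2 ^ (2 * a.length + 1) ≤ 2 ^ x.length := Nat.pow_le_pow_right (by norm_num) hlt
  have h4 : 8 ≤ 2 ^ x.length := by
    calc 8 = 2 ^ 3 := rfl
      _ ≤ 2 ^ x.length := Nat.pow_le_pow_right (by norm_num) hl
  rw [pow_succ] at h3
  omega

/-- The finitely many words moved by the preimage of a transposition. -/
theorem exists_keys {m : ℕ} {H : Subgroup (Perm Om)} (hH : ∀ h ∈ H, ∀ x, (h x).length = x.length)
    (Φ : GS m ≃* H) {a b : Om} (hab : a.length = b.length)
    {t : GS m} (ht : (Φ t : Perm Om) = swap a b) :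
    ∃ K : List Om, K.length ≤ 9 ∧ (∀ y ∈ K, y.length ≤ 2 * a.length + 2) ∧
      ∀ y, (t : Perm Om) y ≠ y → y ∈ K := by
  have htr : Tr (GS m) (t : Perm Om) := by
    rw [tr_iff]
    have h1 : TrG (Φ t) := by
      rw [← tr_iff, ht]
      exact tr_swap _ a b
    have := h1.map Φ.symm
    simpa using this
  let S2 : List Om := (words 0).toList ++ ((words 1).toList ++ (words 2).toList)
  have hS2 : S2.length = 7 := by
    simp [S2, card_words]
  have hS2' : ∀ y ∈ S2, y.length ≤ 2 := by
    intro y hy
    simp only [S2, List.mem_append, Finset.mem_toList, mem_words] at hy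
    omega
  have hS2'' : ∀ y : Om, y.length ≤ 2 → y ∈ S2 := by
    intro y hy
    simp only [S2, List.mem_append, Finset.mem_toList, mem_words]
    omega
  by_cases hx : ∃ x : Om, 3 ≤ x.length ∧ (t : Perm Om) x ≠ x
  · obtain ⟨x, hl, hx⟩ := hx
    have hlen := iso_len hH Φ hab ht hx hl
    refine ⟨S2 ++ [x, (t : Perm Om) x], by simp [hS2], ?_, ?_⟩
    · intro y hy
      rcases List.mem_append.1 hy with hy | hy
      · have := hS2' y hy; omega
      · simp only [List.mem_cons, List.not_mem_nil, or_false] at hy
        rcases hy with rfl | rfl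
        · omega
        · rw [GS.length t.2 x]; omega
    · intro y hy
      by_cases hy2 : y.length ≤ 2
      · exact List.mem_append_left _ (hS2'' y hy2)
      · refine List.mem_append_right _ ?_
        have := moved_long (fun _ _ h => swap_mem_GS m h) (fun x => GS.length t.2 x) htr hx hy hl
          (by omega)
        simpa using this
  · push Not at hx
    refine ⟨S2, by omega, fun y hy => by have := hS2' y hy; omega, fun y hy => ?_⟩
    by_contra h
    exact hy (hx y (by by_contra h'; exact h (hS2'' y (by omega))))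

/-! ### Finite tables -/

/-- Apply a table. -/
def app (M : List (Om × Om)) (y : Om) : Om := M.foldr (fun e r => if e.1 = y then e.2 else r) y

theorem app_map (K : List Om) (t : Om → Om) (h : ∀ y, t y ≠ y → y ∈ K) (y : Om) :
    app (K.map fun y => (y, t y)) y = t y := by
  have key : ∀ K : List Om, app (K.map fun y => (y, t y)) y = if y ∈ K then t y else y := by
    intro K
    induction K with
    | nil => simp [app]
    | cons k K ih =>
      show (if k = y then t k else app (K.map fun y => (y, t y)) y) = _
      rw [ih]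
      by_cases hk : k = y
      · subst hk; simp
      · have : y ≠ k := fun h => hk h.symm
        simp [hk, this]
  rw [key]
  by_cases hy : y ∈ K
  · rw [if_pos hy]
  · rw [if_neg hy]
    by_contra hne
    exact hy (h y (Ne.symm hne))

theorem size_app_le (M : List (Om × Om)) (y : Om) : size (app M y) ≤ size M + size y := by
  induction M with
  | nil => simp [app]
  | cons e M ih =>
    show size (if e.1 = y then e.2 else app M y) ≤ _
    rw [size_cons]
    split_ifs
    · rw [show size e = size e.1 + size e.2 + 1 from size_pair e.1 e.2]; omega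
    · omega

theorem PT.app' {M : α → List (Om × Om)} {y : α → Om} (hM : PT true M) (hy : PT true y) :
    PT true (fun a => app (M a) (y a)) := by
  obtain ⟨p, hp⟩ := hM.exists_size_le
  obtain ⟨q, hq⟩ := hy.exists_size_le
  have := PT.foldr (m := true) (ini := y) (l := M)
    (s := fun z : α × ((Om × Om) × Om) => if z.2.1.1 = y z.1 then z.2.1.2 else z.2.2) hM hy
    (by
      have h1 : PT true (fun z : α × ((Om × Om) × Om) => decide (z.2.1.1 = y z.1)) :=
        PT.decideEq (by fun_prop) (hy.comp PT.fst)
      have h2 : PT true (fun z : α × ((Om × Om) × Om) => bif decide (z.2.1.1 = y z.1) then z.2.1.2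
        else z.2.2) := by fun_prop
      refine h2.of_eq (fun z => ?_)
      by_cases h : z.2.1.1 = y z.1 <;> simp [h]) (p + q) (by
      intro a j
      rw [Polynomial.eval_add]
      refine (size_app_le ((M a).drop j) (y a)).trans (Nat.add_le_add ?_ (hq a))
      exact (size_drop_le _ _).trans (hp a))
  exact this

/-! ### Folds -/

/-- Length preserving functions can be iterated along a word. -/
theorem FS.fold {k : ℕ} {H : Bool → Om → Om} (hH : ∀ c, FS (k + 1) (H c))
    (hl : ∀ c y, (H c y).length = y.length) :
    FS (k + 1) (fun z : Om × Om => z.1.foldl (fun y c => H c y) z.2) := by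
  have hlen : ∀ (x y : Om), (x.foldl (fun y c => H c y) y).length = y.length := by
    intro x
    induction x with
    | nil => intro y; rfl
    | cons c x ih => intro y; rw [List.foldl_cons, ih, hl]
  have hH' : FS (k + 1) (fun z : Bool × Om => if z.1 = true then H true z.2 else H false z.2) := by
    refine FS.ite ((hH true).comp (FS.of_pt PT.snd)) ((hH false).comp (FS.of_pt PT.snd)) ?_ ?_
    · exact Sg.of_pt (f := fun z : Bool × Om => z.1) PT.fst
    · exact Sg.nec PT.fst (PT.const true)
  have hHe : ∀ c y, (if (c, y).1 = true then H true (c, y).2 else H false (c, y).2) = H c y := by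
    intro c y; cases c <;> rfl
  refine ⟨⟨fun z => 4 * z.2.length + 1, by fun_prop, fun z => ?_⟩, ?_⟩
  · have := size_le_length (z.1.foldl (fun y c => H c y) z.2)
    rw [hlen] at this
    exact this
  -- the graph
  let b : (Om × Om) × Om → ℕ := fun z => (z.1.1.length + 1) * (4 * z.1.2.length + 2) + 1
  have hb : PT true b := by
    show PT true (fun z : (Om × Om) × Om => (z.1.1.length + 1) * (4 * z.1.2.length + 2) + 1)
    fun_prop
  have a1 : Sg (k + 1) (fun v : ((Om × Om) × Om) × List Om => v.2.getD 0 [] = v.1.1.2) :=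
    Sg.eqc (by fun_prop) (by fun_prop)
  have a2 : Sg (k + 1) (fun v : ((Om × Om) × Om) × List Om =>
      v.2.getD v.1.1.1.length [] = v.1.2) := Sg.eqc (by fun_prop) (by fun_prop)
  have a3 : Sg (k + 1) (fun v : (((Om × Om) × Om) × List Om) × ℕ =>
      (fun z : Bool × Om => if z.1 = true then H true z.2 else H false z.2)
        (v.1.1.1.1.getD v.2 false, v.1.2.getD v.2 []) = v.1.2.getD (v.2 + 1) []) :=
    hH'.graph.pre (f := fun v : (((Om × Om) × Om) × List Om) × ℕ =>
      ((v.1.1.1.1.getD v.2 false, v.1.2.getD v.2 []), v.1.2.getD (v.2 + 1) [])) (by fun_prop)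
  have a4 := a3.allLt (n := fun v : ((Om × Om) × Om) × List Om => v.1.1.1.length) (by fun_prop)
  refine (((a1.and a2).and a4).ex hb).congr (fun v => ?_)
  obtain ⟨⟨x, y⟩, w⟩ := v
  simp only
  constructor
  · intro hw
    have hget : ∀ i ≤ x.length, ((List.range (x.length + 1)).map
        (fun i => (x.take i).foldl (fun y c => H c y) y)).getD i [] =
        (x.take i).foldl (fun y c => H c y) y := by
      intro i hi
      rw [List.getD_eq_getElem?_getD]
      simp [Nat.lt_succ_of_le hi]
    refine ⟨(List.range (x.length + 1)).map (fun i => (x.take i).foldl (fun y c => H c y) y),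
      ?_, ⟨?_, ?_⟩, ?_⟩
    · refine (size_list_le (B := 4 * y.length + 1) ?_).trans (by simp [b])
      intro d hd
      obtain ⟨i, -, rfl⟩ := List.mem_map.1 hd
      have := size_le_length ((x.take i).foldl (fun y c => H c y) y)
      rw [hlen] at this
      exact this
    · rw [hget 0 (by omega)]; rfl
    · rw [hget _ le_rfl, List.take_length]
      exact hw
    · intro i hi
      rw [hHe, hget i hi.le, hget (i + 1) hi, List.take_succ_eq_append_getElem hi,
        List.foldl_append]
      have : x.getD i false = x[i] := by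
        rw [List.getD_eq_getElem?_getD, List.getElem?_eq_getElem hi]; rfl
      rw [this]
      rfl
  · rintro ⟨L, -, ⟨h1, h2⟩, h3⟩
    have key : ∀ i ≤ x.length, L.getD i [] = (x.take i).foldl (fun y c => H c y) y := by
      intro i
      induction i with
      | zero => intro _; rw [h1]; rfl
      | succ i ih =>
        intro hi
        have h4 := h3 i (by omega)
        rw [hHe] at h4
        rw [← h4, ih (by omega), List.take_succ_eq_append_getElem (by omega), List.foldl_append]
        have : x.getD i false = x[i] := by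
          rw [List.getD_eq_getElem?_getD, List.getElem?_eq_getElem (by omega)]; rfl
        rw [this]
        rfl
    have h4 := key _ le_rfl
    rw [List.take_length] at h4
    rw [← h4, h2]

/-! ### Words in a group -/

/-- The product along a word. -/
def Wd {G : Type} [Group G] (h : Bool → G) : List Bool → G
  | [] => 1
  | c :: x => Wd h x * h c

theorem map_Wd {G G' : Type} [Group G] [Group G'] (φ : G →* G') (h : Bool → G) (x : List Bool) :
    φ (Wd h x) = Wd (fun c => φ (h c)) x := by
  induction x with
  | nil => exact map_one φ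
  | cons c x ih => rw [Wd, map_mul, ih]; rfl

theorem Wd_apply (h : Bool → Perm Om) (x y : Om) :
    Wd h x y = x.foldl (fun y c => h c y) y := by
  induction x generalizing y with
  | nil => rfl
  | cons c x ih => rw [Wd, Perm.mul_apply, ih]; rfl

theorem Wd_inv_apply (h : Bool → Perm Om) (x y : Om) :
    (Wd h x)⁻¹ y = x.reverse.foldl (fun y c => (h c)⁻¹ y) y := by
  induction x generalizing y with
  | nil => rfl
  | cons c x ih =>
    rw [Wd, mul_inv_rev, Perm.mul_apply, ih, List.reverse_cons, List.foldl_append]
    rfl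

/-! ### Rotations -/

/-- Test whether a rotation acts. -/
def rc (w : Om) : Bool := decide (3 ≤ w.length) && w.headD false

/-- Rotate the word after the first two letters, and add `c` to the moved letter. -/
def rotF (c : Bool) (w : Om) : Om :=
  bif rc w then w.take 2 ++ (w.drop 3 ++ [xor (bitAt w 2) c]) else w

/-- The inverse. -/
def unrotF (c : Bool) (w : Om) : Om :=
  bif rc w then w.take 2 ++ (xor (bitAt w (w.length - 1)) c :: (w.drop 2).take (w.length - 3))
  else w

theorem rotF_cons (c b d : Bool) (y : Om) :
    rotF c (true :: b :: d :: y) = true :: b :: (y ++ [xor d c]) := by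
  simp [rotF, rc, bitAt]

theorem unrotF_cons (c b d : Bool) (y : Om) :
    unrotF c (true :: b :: (y ++ [d])) = true :: b :: (xor d c) :: y := by
  have h1 : rc (true :: b :: (y ++ [d])) = true := by simp [rc]
  have h2 : bitAt (true :: b :: (y ++ [d])) ((true :: b :: (y ++ [d])).length - 1) = d := by
    simp [bitAt]
  rw [unrotF, h1, cond_true, h2]
  simp

theorem rotF_false (c : Bool) (w : Om) (h : rc w = false) : rotF c w = w := by
  rw [rotF, h, cond_false]

theorem unrotF_false (c : Bool) (w : Om) (h : rc w = false) : unrotF c w = w := by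
  rw [unrotF, h, cond_false]

theorem rc_true {w : Om} (h : rc w = true) : ∃ b d y, w = true :: b :: d :: y := by
  rcases w with _ | ⟨a, _ | ⟨b, _ | ⟨d, y⟩⟩⟩
  · simp [rc] at h
  · simp [rc] at h
  · simp [rc] at h
  · have : a = true := by simpa [rc] using h
    subst this
    exact ⟨b, d, y, rfl⟩

theorem rc_true' {w : Om} (h : rc w = true) : ∃ b d y, w = true :: b :: (y ++ [d]) := by
  obtain ⟨b, d, y, rfl⟩ := rc_true h
  obtain ⟨z, e, hz⟩ : ∃ z e, d :: y = z ++ [e] := ⟨_, _, (List.dropLast_append_getLast (by simp)).symm⟩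
  exact ⟨b, e, z, by rw [hz]⟩

/-- Rotation as a permutation. -/
def rotE (c : Bool) : Perm Om where
  toFun := rotF c
  invFun := unrotF c
  left_inv := by
    intro w
    by_cases h : rc w = true
    · obtain ⟨b, d, y, rfl⟩ := rc_true h
      rw [rotF_cons, unrotF_cons]
      cases d <;> cases c <;> rfl
    · rw [rotF_false c w (by simpa using h), unrotF_false c w (by simpa using h)]
  right_inv := by
    intro w
    by_cases h : rc w = true
    · obtain ⟨b, d, y, rfl⟩ := rc_true' h
      rw [unrotF_cons, rotF_cons]
      cases d <;> cases c <;> rfl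
    · rw [unrotF_false c w (by simpa using h), rotF_false c w (by simpa using h)]

theorem rotE_mem (k : ℕ) (c : Bool) : rotE c ∈ GS k := by
  refine GS.of_fs (fun w => ?_) (FS.of_pt ?_)
  · show (rotF c w).length = w.length
    by_cases h : rc w = true
    · obtain ⟨b, d, y, rfl⟩ := rc_true h
      rw [rotF_cons]
      simp
    · rw [rotF_false c w (by simpa using h)]
  · show PT true (fun w => rotF c w)
    unfold rotF rc
    have := PT.headDB (f := fun w : Om => w) PT.id
    fun_prop

theorem Wd_rot (x y : Om) (b : Bool) :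
    Wd rotE x (true :: b :: (List.replicate x.length false ++ y)) = true :: b :: (y ++ x) := by
  induction x generalizing y with
  | nil => simp [Wd]
  | cons c x ih =>
    rw [Wd, Perm.mul_apply]
    have h1 : rotE c (true :: b :: (List.replicate (c :: x).length false ++ y)) =
        true :: b :: (List.replicate x.length false ++ (y ++ [c])) := by
      rw [List.length_cons, List.replicate_succ]
      show rotF c (true :: b :: (false :: List.replicate x.length false ++ y)) = _
      rw [List.cons_append, rotF_cons, List.append_assoc]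
      cases c <;> rfl
    rw [h1, ih]
    simp

theorem Wd_rot_false (x : Om) (w : Om) (h : w.headD false = false) : Wd rotE x w = w := by
  induction x with
  | nil => rfl
  | cons c x ih =>
    rw [Wd, Perm.mul_apply]
    have : rotE c w = w := rotF_false c w (by simp only [rc, h, Bool.and_false])
    rw [this, ih]

/-! ### The flip of the second letter -/

open Classical in
/-- Flip the second letter if the first one is `true` and the rest satisfies `p`. -/
noncomputable def flip2F (p : Om → Prop) (w : Om) : Om :=
  if (2 ≤ w.length ∧ w.headD false = true) ∧ p (w.drop 2) then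
    w.take 1 ++ (!(bitAt w 1)) :: w.drop 2 else w

theorem flip2F_cons {p : Om → Prop} (b : Bool) {x : Om} (h : p x) :
    flip2F p (true :: b :: x) = true :: (!b) :: x := by simp [flip2F, h, bitAt]

theorem flip2F_cons' {p : Om → Prop} (b : Bool) {x : Om} (h : ¬ p x) :
    flip2F p (true :: b :: x) = true :: b :: x := by simp [flip2F, h]

theorem flip2F_false {p : Om → Prop} {w : Om} (h : w.headD false = false) :
    flip2F p w = w := by
  unfold flip2F
  rw [if_neg]
  rintro ⟨⟨-, h1⟩, -⟩
  rw [h] at h1
  exact absurd h1 (by simp)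

theorem flip2F_flip2F (p : Om → Prop) (w : Om) : flip2F p (flip2F p w) = w := by
  rcases w with _ | ⟨a, _ | ⟨b, x⟩⟩
  · simp [flip2F]
  · simp [flip2F]
  · cases a
    · rw [flip2F_false rfl, flip2F_false rfl]
    · by_cases h : p x
      · rw [flip2F_cons b h, flip2F_cons _ h, Bool.not_not]
      · rw [flip2F_cons' b h, flip2F_cons' b h]

/-- The flip as a permutation. -/
noncomputable def flip2E (p : Om → Prop) : Perm Om :=
  ⟨flip2F p, flip2F p, flip2F_flip2F p, flip2F_flip2F p⟩

theorem flip2E_mem {k : ℕ} {p : Om → Prop} (hp : Sg (k + 1) p) (hp' : Sg (k + 1) fun x => ¬ p x) :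
    flip2E p ∈ GS k := by
  classical
  refine GS.of_fs (fun w => ?_) ?_
  · show (flip2F p w).length = w.length
    rcases w with _ | ⟨a, _ | ⟨b, x⟩⟩
    · simp [flip2F]
    · simp [flip2F]
    · cases a
      · rw [flip2F_false rfl]
      · by_cases h : p x
        · rw [flip2F_cons b h]; rfl
        · rw [flip2F_cons' b h]
  · have hh := PT.headDB (f := fun w : Om => w) PT.id
    have h1 : Sg (k + 1) (fun w : Om => (2 ≤ w.length ∧ w.headD false = true) ∧ p (w.drop 2)) :=
      ((Sg.of_dec (PT.decideLe (by fun_prop) (by fun_prop))).and (Sg.of_pt hh)).and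
        (hp.pre (f := fun w : Om => w.drop 2) (by fun_prop))
    have h2 : Sg (k + 1) (fun w : Om =>
        ¬ ((2 ≤ w.length ∧ w.headD false = true) ∧ p (w.drop 2))) := by
      have h3 : Sg (k + 1) (fun w : Om => w.length < 2) :=
        Sg.of_dec (PT.decideLt (by fun_prop) (by fun_prop))
      have h4 : Sg (k + 1) (fun w : Om => (!(w.headD false)) = true) := Sg.of_pt hh.not'
      have h5 := hp'.pre (f := fun w : Om => w.drop 2) (by fun_prop)
      refine (h3.or (h4.or h5)).congr (fun w => ?_)
      simp only [not_and_or, not_le, Bool.not_eq_true, Bool.not_eq_eq_eq_not, Bool.not_true,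
        or_assoc]
    have h3 : FS (k + 1) (fun w : Om => w.take 1 ++ (!(bitAt w 1)) :: w.drop 2) :=
      FS.of_pt (by fun_prop)
    have h4 := FS.ite h3 (FS.of_pt (PT.id (m := true) (α := Om))) h1 h2
    have : (flip2E p : Om → Om) = fun w => if (2 ≤ w.length ∧ w.headD false = true) ∧
        p (w.drop 2) then w.take 1 ++ (!(bitAt w 1)) :: w.drop 2 else w := by
      funext w
      show flip2F p w = _
      unfold flip2F
      split_ifs <;> rfl
    rw [this]
    exact h4

/-! ### Advice from an isomorphism -/

theorem adv_of_iso {m : ℕ} {H : Subgroup (Perm Om)} (hH : ∀ h ∈ H, ∀ x, (h x).length = x.length)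
    (hmH : GS (m + 1) ≤ H) (Φ : GS m ≃* H) : Adv (m + 1) := by
  classical
  intro p hp
  -- the flip
  have hf : flip2E (fun x => ¬ p x) ∈ H := hmH
    (flip2E_mem (hp.not.mono (by omega)) ((hp.mono (by omega)).congr (fun x => not_not)))
  let f : H := ⟨_, hf⟩
  let g : GS m := Φ.symm f
  let r : Bool → H := fun c => ⟨rotE c, hmH (rotE_mem _ c)⟩
  let r' : Bool → GS m := fun c => Φ.symm (r c)
  -- the transposition
  let A : ℕ → Om := fun l => true :: false :: List.replicate l false
  let B : ℕ → Om := fun l => false :: false :: List.replicate l false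
  have hAB : ∀ l, (A l).length = (B l).length := fun l => by simp [A, B]
  let u : ℕ → H := fun l => ⟨swap (A l) (B l), hmH (swap_mem_GS _ (hAB l))⟩
  let t : ℕ → GS m := fun l => Φ.symm (u l)
  have ht : ∀ l, (Φ (t l) : Perm Om) = swap (A l) (B l) := by
    intro l
    simp only [t, MulEquiv.apply_symm_apply]
    rfl
  have hk := fun l => exists_keys hH Φ (hAB l) (ht l)
  choose K hK1 hK2 hK3 using hk
  have hAl : ∀ l, (A l).length = l + 2 := fun l => by simp [A]
  let M : ℕ → List (Om × Om) := fun l => (K l).map fun y => (y, (t l : Perm Om) y)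
  have hM : ∀ l y, app (M l) y = (t l : Perm Om) y := fun l y => app_map (K l) _ (hK3 l) y
  -- the element which is tested
  let s : Om → H := fun x => Wd r x * u x.length * (Wd r x)⁻¹
  let s' : Om → GS m := fun x => Wd r' x * t x.length * (Wd r' x)⁻¹
  have hs' : ∀ x, s' x = Φ.symm (s x) := by
    intro x
    have h1 : Φ.symm (Wd r x) = Wd r' x := map_Wd Φ.symm.toMonoidHom r x
    simp only [s, s', map_mul, map_inv, h1]
    rfl
  have coeW : ∀ x, ((Wd r x : H) : Perm Om) = Wd rotE x := fun x =>
    map_Wd H.subtype r x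
  have coeW' : ∀ x, ((Wd r' x : GS m) : Perm Om) = Wd (fun c => (r' c : Perm Om)) x := fun x =>
    map_Wd (GS m).subtype r' x
  have hs : ∀ x, (s x : Perm Om) = swap (true :: false :: x) (B x.length) := by
    intro x
    simp only [s, Subgroup.coe_mul, Subgroup.coe_inv, coeW]
    show Wd rotE x * swap (A x.length) (B x.length) * (Wd rotE x)⁻¹ = _
    rw [← swap_apply_apply]
    have h1 := Wd_rot x [] false
    rw [List.append_nil, List.nil_append] at h1
    rw [h1, Wd_rot_false x (B x.length) rfl]
  -- the test
  have test : ∀ x, p x ↔ f * s x = s x * f := by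
    intro x
    have hne : (true :: false :: x : Om) ≠ B x.length := by simp [B]
    have hfB : flip2E (fun x => ¬ p x) (B x.length) = B x.length :=
      flip2F_false (p := fun x => ¬ p x) (w := B x.length) rfl
    have e1 : f * s x = s x * f ↔ (f : Perm Om) * (s x : Perm Om) = (s x : Perm Om) * f := by
      rw [Subtype.ext_iff]; rfl
    rw [e1, hs]
    show _ ↔ flip2E (fun x => ¬ p x) * swap (true :: false :: x) (B x.length) =
      swap (true :: false :: x) (B x.length) * flip2E (fun x => ¬ p x)
    rw [mul_swap_eq_swap_mul, hfB, mul_left_inj]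
    constructor
    · intro h
      have : flip2E (fun x => ¬ p x) (true :: false :: x) = true :: false :: x :=
        flip2F_cons' (p := fun x => ¬ p x) false (not_not.2 h)
      rw [this]
    · intro h
      by_contra hp
      have h1 : flip2E (fun x => ¬ p x) (true :: false :: x) = true :: true :: x :=
        flip2F_cons (p := fun x => ¬ p x) false hp
      rw [h1] at h
      have h2 := congrArg (fun σ : Perm Om => σ (B x.length)) h
      simp only [swap_apply_right] at h2
      simp at h2
  have test' : ∀ x, ¬ p x ↔ ∃ y, (g : Perm Om) ((s' x : Perm Om) y) ≠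
      (s' x : Perm Om) ((g : Perm Om) y) := by
    intro x
    rw [test x]
    have e1 : f * s x = s x * f ↔ g * s' x = s' x * g := by
      rw [hs', ← map_mul, ← map_mul, Φ.symm.injective.eq_iff]
    rw [e1, Subtype.ext_iff, Subgroup.coe_mul, Subgroup.coe_mul, Perm.ext_iff]
    push Not
    rfl
  -- the functions
  have len' : ∀ c y, ((r' c : Perm Om) y).length = y.length := fun c y => GS.length (r' c).2 y
  have len'' : ∀ c y, ((r' c : Perm Om)⁻¹ y).length = y.length := fun c y =>
    GS.length ((GS m).inv_mem (r' c).2) y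
  have F1 : FS (m + 1) (fun z : Om × Om => z.1.foldl (fun y c => (r' c : Perm Om) y) z.2) :=
    FS.fold (fun c => GS.fs (r' c).2) len'
  have F2 : FS (m + 1) (fun z : Om × Om => z.1.foldl (fun y c => (r' c : Perm Om)⁻¹ y) z.2) :=
    FS.fold (fun c => GS.fs ((GS m).inv_mem (r' c).2)) len''
  let V : (Om × List (Om × Om)) × Om → Om := fun z =>
    z.1.1.foldl (fun y c => (r' c : Perm Om) y)
      (app z.1.2 (z.1.1.reverse.foldl (fun y c => (r' c : Perm Om)⁻¹ y) z.2))
  have hV : FS (m + 1) V := by
    have h1 : FS (m + 1) (fun z : (Om × List (Om × Om)) × Om =>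
        z.1.1.reverse.foldl (fun y c => (r' c : Perm Om)⁻¹ y) z.2) :=
      F2.comp (f := fun z : (Om × List (Om × Om)) × Om => (z.1.1.reverse, z.2))
        (FS.of_pt (by fun_prop))
    have h2 : FS (m + 1) (fun z : (Om × List (Om × Om)) × Om => (z, 
        z.1.1.reverse.foldl (fun y c => (r' c : Perm Om)⁻¹ y) z.2)) :=
      (FS.of_pt PT.id).pair h1
    have h3 : FS (m + 1) (fun z : ((Om × List (Om × Om)) × Om) × Om =>
        (z.1.1.1, app z.1.1.2 z.2)) := by
      refine FS.of_pt ?_
      have := PT.app' (M := fun z : ((Om × List (Om × Om)) × Om) × Om => z.1.1.2)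
        (y := fun z => z.2) (by fun_prop) (by fun_prop)
      fun_prop
    exact F1.comp (h3.comp h2)
  have hVs : ∀ x y, V ((x, M x.length), y) = (s' x : Perm Om) y := by
    intro x y
    simp only [V, hM, s', Subgroup.coe_mul, Subgroup.coe_inv, coeW', Perm.mul_apply, Wd_apply]
    rw [← Wd_inv_apply (fun c => (r' c : Perm Om))]
  -- the predicate with advice
  let q : Om × D → Prop := fun z => ∃ y : Om, size y ≤ 4 * (2 * (z.1.length + 2) + 2) + 1 ∧
    (g : Perm Om) (V ((z.1, Cod.dec z.2), y)) ≠ V ((z.1, Cod.dec z.2), (g : Perm Om) y)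
  have hq : Sg (m + 1) q := by
    have hg : FS (m + 1) (g : Perm Om) := GS.fs g.2
    have h0 : FS (m + 1) (fun v : (Om × D) × Om =>
        V ((v.1.1, (Cod.dec v.1.2 : List (Om × Om))), v.2)) :=
      hV.comp (f := fun v : (Om × D) × Om => ((v.1.1, (Cod.dec v.1.2 : List (Om × Om))), v.2))
        (FS.of_pt (by fun_prop))
    have h1 : FS (m + 1) (fun v : (Om × D) × Om =>
        (g : Perm Om) (V ((v.1.1, (Cod.dec v.1.2 : List (Om × Om))), v.2))) := hg.comp h0
    have h2 : FS (m + 1) (fun v : (Om × D) × Om =>
        V ((v.1.1, (Cod.dec v.1.2 : List (Om × Om))), (g : Perm Om) v.2)) := by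
      have h3 : FS (m + 1) (fun v : (Om × D) × Om =>
          ((v.1.1, (Cod.dec v.1.2 : List (Om × Om))), (g : Perm Om) v.2)) :=
        (FS.of_pt (by fun_prop)).pair (hg.comp (FS.of_pt PT.snd))
      exact hV.comp h3
    have h3 : Sg (m + 1) (fun w : Om × Om => w.1 ≠ w.2) := Sg.nec PT.fst PT.snd
    exact (h3.preS (h1.pair h2)).ex (b := fun z : Om × D => 4 * (2 * (z.1.length + 2) + 2) + 1)
      (by fun_prop)
  refine ⟨q, fun l => PPS.Rep.rep (M l), 9 * (2 * (4 * (2 * (Polynomial.X + 2) + 2) + 1) + 2) + 1,
    hq, fun l => ?_, fun x => ?_⟩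
  · -- size of the advice
    have h1 : size (PPS.Rep.rep (M l)) = size (M l) := rfl
    rw [h1]
    refine (size_list_le (B := 2 * (4 * (2 * (l + 2) + 2) + 1) + 1) ?_).trans ?_
    · intro e he
      obtain ⟨y, hy, rfl⟩ := List.mem_map.1 he
      have h2 := hK2 l y hy
      rw [hAl] at h2
      have h3 := size_le_length y
      have h4 := size_le_length ((t l : Perm Om) y)
      rw [GS.length (t l).2] at h4
      rw [size_pair]
      omega
    · simp only [M, List.length_map, Polynomial.eval_add, Polynomial.eval_mul,
        Polynomial.eval_ofNat, Polynomial.eval_X, Polynomial.eval_one]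
      have := Nat.mul_le_mul_right (2 * (4 * (2 * (l + 2) + 2) + 1) + 1 + 1) (hK1 l)
      omega
  · rw [test' x]
    simp only [q, Cod.dec_rep, hVs]
    constructor
    · rintro ⟨y, hy⟩
      refine ⟨y, ?_, hy⟩
      -- `y` or its image is moved
      have hm : ∃ z : Om, z.length = y.length ∧ (s' x : Perm Om) z ≠ z := by
        by_contra hno
        push Not at hno
        apply hy
        rw [hno y rfl, hno _ (GS.length g.2 y)]
      obtain ⟨z, hz, hz'⟩ := hm
      have h1 : (t x.length : Perm Om) ((Wd r' x : GS m)⁻¹.1 z) ≠ (Wd r' x : GS m)⁻¹.1 z := by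
        intro h2
        apply hz'
        show (Wd r' x : GS m).1 ((t x.length : Perm Om) ((Wd r' x : GS m)⁻¹.1 z)) = z
        rw [h2]
        simp
      have h2 := hK2 _ _ (hK3 _ _ h1)
      rw [hAl, GS.length ((Wd r' x : GS m)⁻¹).2, hz] at h2
      have h3 := size_le_length y
      omega
    · rintro ⟨y, -, hy⟩
      exact ⟨y, hy⟩

end Pool.Agent.PPH
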