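import Pool.Agent.PPH.Iso

/-!
# The monoid of all functions in the hierarchy
-/

namespace Pool.Agent.PPH

open Pool.Agent.PPS

/-- The monoid of functions in the hierarchy. -/
def MH : Submonoid (Function.End Om) where
  carrier := {f | FH (f : Om → Om)}
  one_mem' := FH.of_pt PT.id
  mul_mem' := by
    intro f g h1 h2
    exact (show FH (fun x => f (g x)) from FH.comp (g := f) (f := g) h1 h2)

/-- The monoid of functions of a level. -/
def ML (k : ℕ) : Submonoid (Function.End Om) where
  carrier := {f | FS (k + 1) (f : Om → Om)}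
  one_mem' := FS.of_pt PT.id
  mul_mem' := by
    intro f g h1 h2
    exact (show FS (k + 1) (fun x => f (g x)) from FS.comp (g := f) (f := g) h1 h2)

theorem ML_mono {k l : ℕ} (h : k ≤ l) : ML k ≤ ML l := fun _ hg => FS.mono hg (by omega)

theorem coll_of_fg' (h : MH.FG) : ∃ K, Coll K := by
  obtain ⟨S, hS⟩ := h
  have hb : ∀ g ∈ S, ∃ k, g ∈ ML k := fun g hg => by
    have : g ∈ MH := by rw [← hS]; exact Submonoid.subset_closure hg
    exact this
  choose! k hk using hb
  let K := S.sup k
  have hK : MH ≤ ML K := by
    rw [← hS, Submonoid.closure_le]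
    intro g hg
    exact ML_mono (Finset.le_sup (f := k) hg) (hk g hg)
  refine ⟨K + 1, fun p hp => ?_⟩
  have h0 : (flipF p : Function.End Om) ∈ MH := FH.flipF' hp
  have h1 : FS (K + 1) (flipF p) := hK h0
  refine (h1.graph.pre (f := fun x : Om => (false :: x, true :: x)) (by fun_prop)).congr
    (fun x => ?_)
  show p x ↔ flipF p (false :: x) = true :: x
  by_cases h : p x
  · rw [flipF_cons p _ x h]; simp [h]
  · rw [flipF_cons' p _ x h]; simp [h]

/-- States. -/
abbrev St2 := Om × (Om × List ℕ)

/-- A typed operation as a function on words. -/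
def opF (F : St2 → St2) (w : Om) : Om := emb [] (F (dcd [] w))

theorem opF_emb (F : St2 → St2) (s : St2) : opF F (emb [] s) = emb [] (F s) := by
  unfold opF; rw [dcd_emb]

theorem FH.opF' {F : St2 → St2} (hF : FH F) : FH (opF F) :=
  (FH.of_pt (f := fun s : St2 => emb [] s) (by fun_prop)).comp
    (hF.comp (FH.of_pt (f := fun w : Om => (dcd [] w : St2)) (by fun_prop)))

theorem fg_of_coll' {K : ℕ} (hK : Coll K) : MH.FG := by
  classical
  have hu := FH.uF K (x := hd) (by fun_prop)
  have hU := univ_of_coll hK
  let gE : Function.End Om := fun x => emb [] ((([] : Om), (x, ([] : List ℕ))) : St2)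
  let gX : Function.End Om := fun w => (dcd [] w : St2).2.1
  let gJ : Bool → Function.End Om := fun b => opF (fun s => (b :: s.1, s.2))
  let gA : Bool → Function.End Om := fun b => opF (fun s => (s.1, (s.2.1, padStep b s.2.1 s.2.2)))
  let gV : Function.End Om := opF (fun s => (s.1, (uF K hd ((s.1, s.2.1), s.2.2), s.2.2)))
  let S : Finset (Function.End Om) := {gE, gX, gJ false, gJ true, gA false, gA true, gV}
  have mE : gE ∈ MH := FH.of_pt (by
    show PT true (fun x : Om => emb [] ((([] : Om), (x, ([] : List ℕ))) : St2))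
    fun_prop)
  have mX : gX ∈ MH := FH.of_pt (by
    show PT true (fun w : Om => (dcd [] w : St2).2.1)
    fun_prop)
  have mJ : ∀ b, gJ b ∈ MH := fun b => FH.opF' (FH.of_pt (by fun_prop))
  have mA : ∀ b, gA b ∈ MH := fun b => FH.opF' (FH.of_pt (by
    have : PT true (fun s : St2 => padStep b s.2.1 s.2.2) := by
      unfold padStep
      have := PT.sqTop' (f := fun s : St2 => s.2.2) (by fun_prop)
      fun_prop
    fun_prop))
  have mV : gV ∈ MH := FH.opF' (by
    have h1 : FH (fun s : St2 => (s, uF K hd ((s.1, s.2.1), s.2.2))) :=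
      (FH.of_pt PT.id).pair (hu.comp (FH.of_pt (f := fun s : St2 => ((s.1, s.2.1), s.2.2))
        (by fun_prop)))
    exact h1.pt (g := fun z : St2 × Om => (z.1.1, (z.2, z.1.2.2))) (by fun_prop))
  refine ⟨S, le_antisymm ?_ ?_⟩
  · rw [Submonoid.closure_le]
    intro g hg
    simp only [S, Finset.coe_insert, Finset.coe_singleton, Set.mem_insert_iff,
      Set.mem_singleton_iff] at hg
    rcases hg with rfl | rfl | rfl | rfl | rfl | rfl | rfl
    exacts [mE, mX, mJ _, mJ _, mA _, mA _, mV]
  · intro f hf
    obtain ⟨e, w, hew⟩ := hU f (fun x => x) hf (FH.of_pt PT.id)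
    have cE : gE ∈ Submonoid.closure (S : Set (Function.End Om)) :=
      Submonoid.subset_closure (by simp [S])
    have cX : gX ∈ Submonoid.closure (S : Set (Function.End Om)) :=
      Submonoid.subset_closure (by simp [S])
    have cJ : ∀ b, gJ b ∈ Submonoid.closure (S : Set (Function.End Om)) := fun b =>
      Submonoid.subset_closure (by cases b <;> simp [S])
    have cA : ∀ b, gA b ∈ Submonoid.closure (S : Set (Function.End Om)) := fun b =>
      Submonoid.subset_closure (by cases b <;> simp [S])
    have cV : gV ∈ Submonoid.closure (S : Set (Function.End Om)) :=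
      Submonoid.subset_closure (by simp [S])
    have exJ : ∀ l : Om, ∃ g ∈ Submonoid.closure (S : Set (Function.End Om)),
        ∀ s : Om × List ℕ, g (emb [] ((([] : Om), s) : St2)) = emb [] ((l, s) : St2) := by
      intro l
      induction l with
      | nil => exact ⟨1, Submonoid.one_mem _, fun s => rfl⟩
      | cons b l ih =>
        obtain ⟨g, h1, h2⟩ := ih
        refine ⟨gJ b * g, Submonoid.mul_mem _ (cJ b) h1, fun s => ?_⟩
        show gJ b (g (emb [] ((([] : Om), s) : St2))) = _
        rw [h2]
        exact opF_emb _ _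
    have exA : ∀ l : List Bool, ∃ g ∈ Submonoid.closure (S : Set (Function.End Om)),
        ∀ e x : Om, g (emb [] ((e, (x, ([] : List ℕ))) : St2)) =
          emb [] ((e, (x, padW l x)) : St2) := by
      intro l
      induction l with
      | nil => exact ⟨1, Submonoid.one_mem _, fun e x => rfl⟩
      | cons b l ih =>
        obtain ⟨g, h1, h2⟩ := ih
        refine ⟨gA b * g, Submonoid.mul_mem _ (cA b) h1, fun e x => ?_⟩
        show gA b (g (emb [] ((e, (x, ([] : List ℕ))) : St2))) = _
        rw [h2]
        exact opF_emb _ _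
    obtain ⟨j, mj, ej⟩ := exJ e
    obtain ⟨v, mv, ev⟩ := exA w
    have key : f = gX * (gV * (v * (j * gE))) := by
      funext x
      show f x = gX (gV (v (j (gE x))))
      have h1 : gE x = emb [] ((([] : Om), (x, ([] : List ℕ))) : St2) := rfl
      have h2 : ∀ s : St2, gV (emb [] s) =
          emb [] ((s.1, (uF K hd ((s.1, s.2.1), s.2.2), s.2.2)) : St2) := fun s => opF_emb _ s
      have h3 : ∀ s : St2, gX (emb [] s) = s.2.1 := by
        intro s
        show (dcd [] (emb [] s) : St2).2.1 = _
        rw [dcd_emb]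
      rw [h1, ej, ev, h2, h3]
      exact (hew x).1.symm
    rw [key]
    exact Submonoid.mul_mem _ cX (Submonoid.mul_mem _ cV (Submonoid.mul_mem _ mv
      (Submonoid.mul_mem _ mj cE)))

end Pool.Agent.PPH
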