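import Pool.Agent.PPH.Cod

/-!
# The levels of the polynomial hierarchy, for predicates on typed data
-/

namespace Pool.Agent.PPH

open Pool.Agent.PPS

variable {α β γ δ : Type} [Rep α] [Rep β] [Rep γ] [Rep δ]

/-- `Sg k p`: the predicate `p` is in level `k` of the polynomial hierarchy. -/
def Sg : ℕ → ∀ {α : Type} [Rep α], (α → Prop) → Prop
  | 0, α, _, p => ∃ f : α → Bool, PT true f ∧ ∀ a, p a ↔ f a = true
  | k + 1, α, _, p => ∃ (q : α × D → Prop) (b : α → ℕ), PT true b ∧ Sg k q ∧
      ∀ a, p a ↔ ∃ d : D, size d ≤ b a ∧ ¬ q (a, d)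

variable {k l : ℕ}

theorem Sg.congr {p q : α → Prop} (h : Sg k p) (e : ∀ a, q a ↔ p a) : Sg k q :=
  (funext fun a => propext (e a) : q = p) ▸ h

theorem Sg.pre {p : β → Prop} (h : Sg k p) {f : α → β} (hf : PT true f) :
    Sg k (fun a => p (f a)) := by
  induction k generalizing α β with
  | zero =>
    obtain ⟨g, hg, e⟩ := h
    exact ⟨fun a => g (f a), hg.comp hf, fun a => e _⟩
  | succ k ih =>
    obtain ⟨q, b, hb, hq, e⟩ := h
    exact ⟨fun z => q (f z.1, z.2), fun a => b (f a), hb.comp hf,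
      ih (f := fun z : α × D => (f z.1, z.2)) hq
        ((hf.comp PT.fst).pair PT.snd), fun a => e _⟩

theorem Sg.of_pt {f : α → Bool} (hf : PT true f) : Sg k (fun a => f a = true) := by
  induction k generalizing α with
  | zero => exact ⟨f, hf, fun _ => Iff.rfl⟩
  | succ k ih =>
    refine ⟨fun z => (!(f z.1)) = true, fun _ => 1, by fun_prop, ih (by fun_prop), fun a => ?_⟩
    constructor
    · intro h
      exact ⟨D.nil, le_rfl, by simp [h]⟩
    · rintro ⟨d, -, h⟩
      simpa using h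

theorem Sg.of_dec {p : α → Prop} [DecidablePred p] (hf : PT true (fun a => decide (p a))) :
    Sg k p :=
  (Sg.of_pt hf).congr (fun a => by simp)

theorem Sg.or_and {p q : α → Prop} (hp : Sg k p) (hq : Sg k q) :
    Sg k (fun a => p a ∨ q a) ∧ Sg k (fun a => p a ∧ q a) := by
  induction k generalizing α with
  | zero =>
    obtain ⟨f, hf, e⟩ := hp
    obtain ⟨g, hg, e'⟩ := hq
    exact ⟨⟨fun a => f a || g a, by fun_prop, fun a => by simp [e, e']⟩,
      ⟨fun a => f a && g a, by fun_prop, fun a => by simp [e, e']⟩⟩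
  | succ k ih =>
    obtain ⟨p', b, hb, hp', e⟩ := hp
    obtain ⟨q', b', hb', hq', e'⟩ := hq
    constructor
    · have h1 : Sg k (fun z : α × D => b z.1 < size z.2) :=
        Sg.of_dec (PT.decideLt (hb.comp PT.fst) (by fun_prop))
      have h2 : Sg k (fun z : α × D => b' z.1 < size z.2) :=
        Sg.of_dec (PT.decideLt (hb'.comp PT.fst) (by fun_prop))
      refine ⟨fun z => (p' z ∨ b z.1 < size z.2) ∧ (q' z ∨ b' z.1 < size z.2),
        fun a => b a + b' a, by fun_prop, (ih (ih hp' h1).1 (ih hq' h2).1).2, fun a => ?_⟩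
      beta_reduce
      rw [e, e']
      constructor
      · rintro (⟨d, h1, h2⟩ | ⟨d, h1, h2⟩)
        · refine ⟨d, by omega, fun h => ?_⟩
          rcases h.1 with h | h
          · exact h2 h
          · simp only at h; omega
        · refine ⟨d, by omega, fun h => ?_⟩
          rcases h.2 with h | h
          · exact h2 h
          · simp only at h; omega
      · rintro ⟨d, -, h⟩
        simp only [not_and_or, not_or, not_lt] at h
        rcases h with h | h
        · exact Or.inl ⟨d, h.2, h.1⟩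
        · exact Or.inr ⟨d, h.2, h.1⟩
    · have g1 : Sg k (fun z : α × D => p' (z.1, hd z.2)) :=
        hp'.pre (f := fun z : α × D => (z.1, hd z.2)) (by fun_prop)
      have g2 : Sg k (fun z : α × D => q' (z.1, tl z.2)) :=
        hq'.pre (f := fun z : α × D => (z.1, tl z.2)) (by fun_prop)
      have h1 : Sg k (fun z : α × D => b z.1 < size (hd z.2)) :=
        Sg.of_dec (PT.decideLt (hb.comp PT.fst) (by fun_prop))
      have h2 : Sg k (fun z : α × D => b' z.1 < size (tl z.2)) :=
        Sg.of_dec (PT.decideLt (hb'.comp PT.fst) (by fun_prop))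
      refine ⟨fun z => (p' (z.1, hd z.2) ∨ b z.1 < size (hd z.2)) ∨
        (q' (z.1, tl z.2) ∨ b' z.1 < size (tl z.2)),
        fun a => b a + b' a + 1, by fun_prop, (ih (ih g1 h1).1 (ih g2 h2).1).1, fun a => ?_⟩
      beta_reduce
      rw [e, e']
      constructor
      · rintro ⟨⟨d, h1, h2⟩, ⟨d', h3, h4⟩⟩
        refine ⟨D.cons d d', by rw [size_tree_cons]; omega, ?_⟩
        simp only [not_or, not_lt]
        exact ⟨⟨h2, h1⟩, h4, h3⟩
      · rintro ⟨d, -, h⟩
        simp only [not_or, not_lt] at h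
        exact ⟨⟨hd d, h.1.2, h.1.1⟩, ⟨tl d, h.2.2, h.2.1⟩⟩

theorem Sg.or {p q : α → Prop} (hp : Sg k p) (hq : Sg k q) : Sg k (fun a => p a ∨ q a) :=
  (hp.or_and hq).1

theorem Sg.and {p q : α → Prop} (hp : Sg k p) (hq : Sg k q) : Sg k (fun a => p a ∧ q a) :=
  (hp.or_and hq).2

theorem Sg.not {p : α → Prop} (hp : Sg k p) : Sg (k + 1) (fun a => ¬ p a) := by
  refine ⟨fun z => p z.1, fun _ => 1, by fun_prop, hp.pre (by fun_prop), fun a => ?_⟩
  constructor
  · intro h
    exact ⟨D.nil, le_rfl, h⟩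
  · rintro ⟨d, -, h⟩
    exact h

theorem Sg.succ {p : α → Prop} (hp : Sg k p) : Sg (k + 1) p := by
  induction k generalizing α with
  | zero =>
    obtain ⟨f, hf, e⟩ := hp
    exact (Sg.of_pt hf).congr e
  | succ k ih =>
    obtain ⟨q, b, hb, hq, e⟩ := hp
    exact ⟨q, b, hb, ih hq, e⟩

theorem Sg.mono {p : α → Prop} (hp : Sg k p) (h : k ≤ l) : Sg l p := by
  induction l, h using Nat.le_induction with
  | base => exact hp
  | succ l _ ih => exact ih.succ

/-- Introduction of a typed quantifier. -/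
theorem Sg.mk [Cod β] {r : α × β → Prop} (hr : Sg k r) {b : α → ℕ} (hb : PT true b) :
    Sg (k + 1) (fun a => ∃ y : β, size y ≤ b a ∧ ¬ r (a, y)) := by
  have h1 : Sg k (fun z : α × D => b z.1 < size (Cod.dec z.2 : β)) :=
    Sg.of_dec (PT.decideLt (hb.comp PT.fst) (by fun_prop))
  have h2 : Sg k (fun z : α × D => r (z.1, (Cod.dec z.2 : β))) :=
    hr.pre (f := fun z : α × D => (z.1, (Cod.dec z.2 : β))) (by fun_prop)
  refine ⟨fun z => b z.1 < size (Cod.dec z.2 : β) ∨ r (z.1, (Cod.dec z.2 : β)), b, hb,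
    h1.or h2, fun a => ?_⟩
  constructor
  · rintro ⟨y, h3, h4⟩
    refine ⟨Rep.rep y, h3, ?_⟩
    simp only [Cod.dec_rep, not_or, not_lt]
    exact ⟨h3, h4⟩
  · rintro ⟨d, h3, h4⟩
    simp only [not_or, not_lt] at h4
    exact ⟨_, h4.1, h4.2⟩

/-- A polynomial-time bound for a bounded family of bounds. -/
theorem exists_bound {b' : α × β → ℕ} (hb' : PT true b') {b : α → ℕ} (hb : PT true b) :
    ∃ B : α → ℕ, PT true B ∧ ∀ a y, size y ≤ b a → b' (a, y) ≤ B a := by
  obtain ⟨p, hp⟩ := hb'.exists_size_le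
  refine ⟨fun a => p.eval (size a + b a + 1), PT.polyEval (by fun_prop) p, fun a y hy => ?_⟩
  have h1 := hp (a, y)
  rw [size_nat, size_pair] at h1
  have h2 := polyMono p (show size a + size y + 1 ≤ size a + b a + 1 by omega)
  show b' (a, y) ≤ p.eval (size a + b a + 1)
  omega

theorem Sg.ex [Cod β] {q : α × β → Prop} (hq : Sg (k + 1) q) {b : α → ℕ} (hb : PT true b) :
    Sg (k + 1) (fun a => ∃ y : β, size y ≤ b a ∧ q (a, y)) := by
  obtain ⟨r, b', hb', hr, e⟩ := hq
  obtain ⟨B, hB, hB'⟩ := exists_bound hb' hb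
  have h1 : Sg k (fun z : α × (β × D) => r ((z.1, z.2.1), z.2.2)) :=
    hr.pre (f := fun z : α × (β × D) => ((z.1, z.2.1), z.2.2)) (by fun_prop)
  have h2 : Sg k (fun z : α × (β × D) => b z.1 < size z.2.1) :=
    Sg.of_dec (PT.decideLt (hb.comp PT.fst) (by fun_prop))
  have h3 : Sg k (fun z : α × (β × D) => b' (z.1, z.2.1) < size z.2.2) :=
    Sg.of_dec (PT.decideLt (hb'.comp (f := fun z : α × (β × D) => (z.1, z.2.1)) (by fun_prop))
      (by fun_prop))
  refine (Sg.mk (β := β × D) ((h2.or h3).or h1) (b := fun a => b a + B a + 1)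
    (by fun_prop)).congr (fun a => ?_)
  constructor
  · rintro ⟨y, hy, hqy⟩
    obtain ⟨d, hd1, hd2⟩ := (e (a, y)).1 hqy
    refine ⟨(y, d), ?_, ?_⟩
    · rw [size_pair]
      have := hB' a y hy
      omega
    · simp only [not_or, not_lt]
      exact ⟨⟨hy, hd1⟩, hd2⟩
  · rintro ⟨⟨y, d⟩, -, h⟩
    simp only [not_or, not_lt] at h
    exact ⟨y, h.1.1, (e (a, y)).2 ⟨d, h.1.2, h.2⟩⟩

/-- Sharply bounded quantifiers. -/
theorem Sg.exLt_allLt {q : α × ℕ → Prop} (hq : Sg k q) {n : α → ℕ} (hn : PT true n) :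
    Sg k (fun a => ∃ i < n a, q (a, i)) ∧ Sg k (fun a => ∀ i < n a, q (a, i)) := by
  induction k generalizing α with
  | zero =>
    obtain ⟨f, hf, e⟩ := hq
    constructor
    · refine ⟨fun a => (List.range (n a)).any (fun i => f (a, i)), PT.any' (by fun_prop) hf,
        fun a => ?_⟩
      simp [List.any_eq_true, e]
    · refine ⟨fun a => (List.range (n a)).all (fun i => f (a, i)), PT.all' (by fun_prop) hf,
        fun a => ?_⟩
      simp [List.all_eq_true, e]
  | succ k ih =>
    constructor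
    · have h1 : Sg (k + 1) (fun z : α × ℕ => z.2 < n z.1) :=
        Sg.of_dec (PT.decideLt (by fun_prop) (hn.comp PT.fst))
      refine ((h1.and hq).ex (b := fun a => 2 * n a + 1) (by fun_prop)).congr (fun a => ?_)
      constructor
      · rintro ⟨i, hi, h⟩
        exact ⟨i, by rw [size_nat]; omega, hi, h⟩
      · rintro ⟨i, -, hi, h⟩
        exact ⟨i, hi, h⟩
    · obtain ⟨r, b, hb, hr, e⟩ := hq
      obtain ⟨B, hB, hB'⟩ := exists_bound (α := α) (β := ℕ) hb (b := fun a => 2 * n a + 1)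
        (by fun_prop)
      have h1 : Sg k (fun z : (α × List D) × ℕ =>
          b (z.1.1, z.2) < size (z.1.2.getD z.2 D.nil)) :=
        Sg.of_dec (PT.decideLt (hb.comp (f := fun z : (α × List D) × ℕ => (z.1.1, z.2))
          (by fun_prop)) (by fun_prop))
      have h2 : Sg k (fun z : (α × List D) × ℕ =>
          r ((z.1.1, z.2), z.1.2.getD z.2 D.nil)) :=
        hr.pre (f := fun z : (α × List D) × ℕ => ((z.1.1, z.2), z.1.2.getD z.2 D.nil))
          (by fun_prop)
      have h3 := (ih (h1.or h2) (n := fun z : α × List D => n z.1) (by fun_prop)).1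
      refine (Sg.mk (β := List D) h3 (b := fun a => n a * (B a + 1) + 1)
        (by fun_prop)).congr (fun a => ?_)
      simp only [not_exists, not_and, not_or, not_lt]
      constructor
      · intro h
        have h' : ∀ i, ∃ d : D, i < n a → size d ≤ b (a, i) ∧ ¬ r ((a, i), d) := by
          intro i
          by_cases hi : i < n a
          · obtain ⟨d, hd⟩ := (e (a, i)).1 (h i hi)
            exact ⟨d, fun _ => hd⟩
          · exact ⟨D.nil, fun h => absurd h hi⟩
        choose F hF using h'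
        refine ⟨(List.range (n a)).map F, ?_, ?_⟩
        · refine (size_list_le (B := B a) ?_).trans (by simp)
          intro d hd
          obtain ⟨i, hi, rfl⟩ := List.mem_map.1 hd
          have hi := List.mem_range.1 hi
          exact (hF i hi).1.trans (hB' a i (by rw [size_nat]; omega))
        · intro i hi
          have : ((List.range (n a)).map F).getD i D.nil = F i := by
            rw [List.getD_eq_getElem?_getD]
            simp [hi]
          rw [this]
          exact hF i hi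
      · rintro ⟨L, -, hL⟩ i hi
        exact (e (a, i)).2 ⟨_, hL i hi⟩

theorem Sg.exLt {q : α × ℕ → Prop} (hq : Sg k q) {n : α → ℕ} (hn : PT true n) :
    Sg k (fun a => ∃ i < n a, q (a, i)) := (hq.exLt_allLt hn).1

theorem Sg.allLt {q : α × ℕ → Prop} (hq : Sg k q) {n : α → ℕ} (hn : PT true n) :
    Sg k (fun a => ∀ i < n a, q (a, i)) := (hq.exLt_allLt hn).2

/-! ### The union of the levels -/

/-- The predicate is in the polynomial hierarchy. -/
def PHp (p : α → Prop) : Prop := ∃ k, Sg k p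

theorem Sg.ph {p : α → Prop} (h : Sg k p) : PHp p := ⟨k, h⟩

theorem PHp.congr {p q : α → Prop} (h : PHp p) (e : ∀ a, q a ↔ p a) : PHp q := by
  obtain ⟨k, h⟩ := h
  exact ⟨k, h.congr e⟩

theorem PHp.pre {p : β → Prop} (h : PHp p) {f : α → β} (hf : PT true f) :
    PHp (fun a => p (f a)) := by
  obtain ⟨k, h⟩ := h
  exact ⟨k, h.pre hf⟩

theorem PHp.of_dec {p : α → Prop} [DecidablePred p] (hf : PT true (fun a => decide (p a))) :
    PHp p := ⟨0, Sg.of_dec hf⟩

theorem PHp.of_pt {f : α → Bool} (hf : PT true f) : PHp (fun a => f a = true) :=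
  ⟨0, Sg.of_pt hf⟩

theorem PHp.or {p q : α → Prop} (hp : PHp p) (hq : PHp q) : PHp (fun a => p a ∨ q a) := by
  obtain ⟨k, hp⟩ := hp
  obtain ⟨l, hq⟩ := hq
  exact ⟨max k l, (hp.mono (le_max_left _ _)).or (hq.mono (le_max_right _ _))⟩

theorem PHp.and {p q : α → Prop} (hp : PHp p) (hq : PHp q) : PHp (fun a => p a ∧ q a) := by
  obtain ⟨k, hp⟩ := hp
  obtain ⟨l, hq⟩ := hq
  exact ⟨max k l, (hp.mono (le_max_left _ _)).and (hq.mono (le_max_right _ _))⟩

theorem PHp.not {p : α → Prop} (hp : PHp p) : PHp (fun a => ¬ p a) := by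
  obtain ⟨k, hp⟩ := hp
  exact ⟨k + 1, hp.not⟩

theorem PHp.imp {p q : α → Prop} (hp : PHp p) (hq : PHp q) : PHp (fun a => p a → q a) :=
  (hp.not.or hq).congr (fun a => by rw [imp_iff_not_or])

theorem PHp.ex [Cod β] {q : α × β → Prop} (hq : PHp q) {b : α → ℕ} (hb : PT true b) :
    PHp (fun a => ∃ y : β, size y ≤ b a ∧ q (a, y)) := by
  obtain ⟨k, hq⟩ := hq
  exact ⟨k + 1, hq.succ.ex hb⟩

theorem PHp.all [Cod β] {q : α × β → Prop} (hq : PHp q) {b : α → ℕ} (hb : PT true b) :
    PHp (fun a => ∀ y : β, size y ≤ b a → q (a, y)) :=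
  (hq.not.ex hb).not.congr (fun a => by push Not; rfl)

theorem PHp.allLt {q : α × ℕ → Prop} (hq : PHp q) {n : α → ℕ} (hn : PT true n) :
    PHp (fun a => ∀ i < n a, q (a, i)) := by
  obtain ⟨k, hq⟩ := hq
  exact ⟨k, hq.allLt hn⟩

theorem PHp.eqc {f g : α → β} (hf : PT true f) (hg : PT true g) : PHp (fun a => f a = g a) :=
  (PHp.of_dec (PT.eqc hf hg)).congr (fun a => code_eq_iff.symm)

theorem Sg.eqc {f g : α → β} (hf : PT true f) (hg : PT true g) : Sg k (fun a => f a = g a) :=
  (Sg.of_dec (PT.eqc hf hg)).congr (fun a => code_eq_iff.symm)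

theorem Sg.nec {f g : α → β} (hf : PT true f) (hg : PT true g) : Sg k (fun a => f a ≠ g a) := by
  have := PT.not' (PT.eqc hf hg)
  refine (Sg.of_pt this).congr (fun a => ?_)
  simp only [Bool.not_eq_eq_eq_not, Bool.not_true, decide_eq_false_iff_not, ne_eq]
  exact not_congr code_eq_iff.symm

end Pool.Agent.PPH
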