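import Pool.Agent.PPH.Bridge

/-!
# Groups of length preserving permutations; transpositions
-/

namespace Pool.Agent.PPH

open Pool.Agent.PPS Equiv

/-- Length preserving permutations with graph in level `k + 1`. -/
def GS (k : ℕ) : Subgroup (Perm Om) where
  carrier := {g | (∀ x, (g x).length = x.length) ∧ Sg (k + 1) (fun z : Om × Om => g z.1 = z.2)}
  one_mem' := ⟨fun _ => rfl, Sg.eqc PT.fst PT.snd⟩
  mul_mem' := by
    rintro g h ⟨h1, h2⟩ ⟨h3, h4⟩
    refine ⟨fun x => by rw [Perm.mul_apply, h1, h3], ?_⟩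
    have b : ∀ g : Perm Om, (∀ x, (g x).length = x.length) →
        ∃ b : Om → ℕ, PT true b ∧ ∀ x, size (g x) ≤ b x := fun g hg =>
      ⟨fun x => 4 * x.length + 1, by fun_prop, fun x => by
        have := size_le_length (g x)
        rw [hg] at this
        exact this⟩
    have f1 : FS (k + 1) g := ⟨b g h1, h2⟩
    have f2 : FS (k + 1) h := ⟨b h h3, h4⟩
    exact (f1.comp f2).graph
  inv_mem' := by
    rintro g ⟨h1, h2⟩
    refine ⟨fun x => ?_, graph_inv h2⟩
    have := h1 (g⁻¹ x)
    simpa using this.symm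

theorem GS.length {k : ℕ} {g : Perm Om} (hg : g ∈ GS k) (x : Om) : (g x).length = x.length :=
  hg.1 x

theorem GS.fs {k : ℕ} {g : Perm Om} (hg : g ∈ GS k) : FS (k + 1) (g : Om → Om) :=
  ⟨⟨fun x => 4 * x.length + 1, by fun_prop, fun x => by
    have := size_le_length (g x)
    rw [hg.1] at this
    exact this⟩, hg.2⟩

theorem GS.of_fs {k : ℕ} {g : Perm Om} (h : ∀ x, (g x).length = x.length)
    (hg : FS (k + 1) (g : Om → Om)) : g ∈ GS k := ⟨h, hg.2⟩

theorem swap_mem_GS (k : ℕ) {x y : Om} (h : x.length = y.length) : swap x y ∈ GS k := by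
  have hp : PT true (fun z : Om => swap x y z) := by
    have : PT true (fun z : Om => bif decide (z = x) then y else (bif decide (z = y) then x else z)) := by
      fun_prop
    refine this.of_eq (fun z => ?_)
    rw [swap_apply_def]
    by_cases h1 : z = x
    · simp [h1]
    · by_cases h2 : z = y <;> simp [h1, h2]
  refine GS.of_fs (fun z => ?_) (FS.of_pt hp)
  rw [swap_apply_def]
  split_ifs with h1 h2
  · rw [h1, h]
  · rw [h2, h]
  · rfl

/-! ### Finding words -/

/-- The words of length `l`. -/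
def words (l : ℕ) : Finset Om := (Finset.range (2 ^ l)).image (bits l)

theorem card_words (l : ℕ) : (words l).card = 2 ^ l := by
  rw [words, Finset.card_image_of_injOn, Finset.card_range]
  intro s hs t ht h
  have h1 := congrArg val h
  rw [val_bits, val_bits, Nat.mod_eq_of_lt (by simpa using hs),
    Nat.mod_eq_of_lt (by simpa using ht)] at h1
  exact h1

theorem mem_words {l : ℕ} {x : Om} : x ∈ words l ↔ x.length = l := by
  rw [words, Finset.mem_image]
  constructor
  · rintro ⟨t, -, rfl⟩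
    exact length_bits _ _
  · rintro rfl
    exact ⟨val x, by simpa using val_lt x, bits_val x⟩

theorem exists_word (l : ℕ) (F : Finset Om) (h : F.card < 2 ^ l) :
    ∃ y : Om, y.length = l ∧ y ∉ F := by
  rw [← card_words l] at h
  obtain ⟨y, h1, h2⟩ := Finset.exists_mem_notMem_of_card_lt_card h
  exact ⟨y, mem_words.1 h1, h2⟩

/-! ### Transpositions -/

/-- A group theoretic property of transpositions. -/
def Tr (G : Subgroup (Perm Om)) (t : Perm Om) : Prop :=
  t * t = 1 ∧ ∀ g ∈ G, (t * (g * t * g⁻¹)) ^ 2 = 1 ∨ (t * (g * t * g⁻¹)) ^ 3 = 1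

theorem swap_mul_swap_pow (a b c d : Om) :
    (swap a b * swap c d) ^ 2 = 1 ∨ (swap a b * swap c d) ^ 3 = 1 := by
  have three : ∀ x y z : Om, (swap x y * swap x z) ^ 2 = 1 ∨ (swap x y * swap x z) ^ 3 = 1 := by
    intro x y z
    by_cases hxy : x = y
    · subst hxy; left
      rw [swap_self, show (Equiv.refl Om : Perm Om) = 1 from rfl, one_mul, pow_two, swap_mul_self]
    by_cases hxz : x = z
    · subst hxz; left
      rw [swap_self, show (Equiv.refl Om : Perm Om) = 1 from rfl, mul_one, pow_two, swap_mul_self]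
    by_cases hyz : y = z
    · subst hyz; left; simp
    right
    have ux : (swap x y * swap x z) x = z := by
      rw [Perm.mul_apply, swap_apply_left, swap_apply_of_ne_of_ne (Ne.symm hxz) (Ne.symm hyz)]
    have uz : (swap x y * swap x z) z = y := by
      rw [Perm.mul_apply, swap_apply_right, swap_apply_left]
    have uy : (swap x y * swap x z) y = x := by
      rw [Perm.mul_apply, swap_apply_of_ne_of_ne (Ne.symm hxy) hyz, swap_apply_right]
    ext1 w
    have e : ((swap x y * swap x z) ^ 3) w =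
        (swap x y * swap x z) ((swap x y * swap x z) ((swap x y * swap x z) w)) := rfl
    rw [e, Perm.one_apply]
    by_cases h1 : w = x
    · rw [h1, ux, uz, uy]
    by_cases h2 : w = y
    · rw [h2, uy, ux, uz]
    by_cases h3 : w = z
    · rw [h3, uz, uy, ux]
    have uw : (swap x y * swap x z) w = w := by
      rw [Perm.mul_apply, swap_apply_of_ne_of_ne h1 h3, swap_apply_of_ne_of_ne h1 h2]
    rw [uw, uw, uw]
  by_cases h1 : c = a
  · subst h1; exact three _ _ _
  by_cases h2 : c = b
  · subst h2; rw [swap_comm a c]; exact three _ _ _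
  by_cases h3 : d = a
  · subst h3; rw [swap_comm c d]; exact three _ _ _
  by_cases h4 : d = b
  · subst h4; rw [swap_comm a d, swap_comm c d]; exact three _ _ _
  left
  have hc : Commute (swap a b) (swap c d) := by
    show swap a b * swap c d = swap c d * swap a b
    rw [mul_swap_eq_swap_mul]
    rw [swap_apply_of_ne_of_ne h1 h2, swap_apply_of_ne_of_ne h3 h4]
  rw [hc.mul_pow, pow_two, pow_two, swap_mul_self, swap_mul_self, one_mul]

theorem tr_swap (G : Subgroup (Perm Om)) (a b : Om) : Tr G (swap a b) := by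
  refine ⟨swap_mul_self a b, fun g _ => ?_⟩
  rw [← swap_apply_apply]
  exact swap_mul_swap_pow _ _ _ _

section moved

variable {G : Subgroup (Perm Om)} {t : Perm Om}

theorem tr_apply {g : Perm Om} {y z : Om} (h : g z = y) :
    (t * (g * t * g⁻¹)) y = t (g (t z)) := by
  have : g⁻¹ y = z := by rw [← h]; simp
  simp only [Perm.mul_apply, this]

theorem tr_false (ht : Tr G t) {g : Perm Om} (hg : g ∈ G) {a b c d : Om}
    (h1 : (t * (g * t * g⁻¹)) a = b) (h2 : (t * (g * t * g⁻¹)) b = c)
    (h3 : (t * (g * t * g⁻¹)) c = d) (hc : c ≠ a) (hd : d ≠ a) : False := by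
  rcases ht.2 g hg with h | h
  · have := congrArg (fun u : Perm Om => u a) h
    simp only [pow_two, Perm.one_apply] at this
    rw [Perm.mul_apply, h1, h2] at this
    exact hc this
  · have := congrArg (fun u : Perm Om => u a) h
    simp only [pow_succ, pow_zero, one_mul, Perm.one_apply] at this
    rw [Perm.mul_apply, Perm.mul_apply, h1, h2, h3] at this
    exact hd this

theorem tr_false' (ht : Tr G t) {g : Perm Om} (hg : g ∈ G) {a b c : Om}
    (h1 : (t * (g * t * g⁻¹)) a = b) (h2 : (t * (g * t * g⁻¹)) b = c) (hc : c ≠ a)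
    {a' b' : Om} (h1' : (t * (g * t * g⁻¹)) a' = b') (h2' : (t * (g * t * g⁻¹)) b' = a')
    (hb' : b' ≠ a') : False := by
  rcases ht.2 g hg with h | h
  · have := congrArg (fun u : Perm Om => u a) h
    simp only [pow_two, Perm.one_apply] at this
    rw [Perm.mul_apply, h1, h2] at this
    exact hc this
  · have := congrArg (fun u : Perm Om => u a') h
    simp only [pow_succ, pow_zero, one_mul, Perm.one_apply] at this
    rw [Perm.mul_apply, Perm.mul_apply, h1', h2', h1'] at this
    exact hb' this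

theorem moved_same (hG : ∀ x y : Om, x.length = y.length → swap x y ∈ G) (ht : Tr G t) {x₁ x₂ : Om} (h1 : t x₁ ≠ x₁)
    (h2 : t x₂ ≠ x₂) (hl : x₁.length = x₂.length) (h3 : 3 ≤ x₁.length) (hne : x₂ ≠ x₁)
    (hne' : x₂ ≠ t x₁) : False := by
  have tt : ∀ x, t (t x) = x := fun x => by
    have := congrArg (fun u : Perm Om => u x) ht.1
    simpa using this
  set y₁ := t x₁ with hy1
  set y₂ := t x₂ with hy2
  have ty1 : t y₁ = x₁ := tt _
  have ty2 : t y₂ = x₂ := tt _
  have e1 : y₁ ≠ y₂ := fun h => hne (t.injective h).symm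
  have e2 : y₂ ≠ x₁ := fun h => hne' (by rw [← ty2, h])
  by_cases hp : ∃ p : Om, p.length = x₁.length ∧ t p = p
  · obtain ⟨p, hpl, hp⟩ := hp
    have p1 : p ≠ x₁ := fun h => h1 (by rw [← h, hy1, ← h, hp])
    have p2 : p ≠ x₂ := fun h => h2 (by rw [← h, hy2, ← h, hp])
    have p3 : p ≠ y₁ := fun h => p1 (by rw [← hp, h, ty1])
    have p4 : p ≠ y₂ := fun h => p2 (by rw [← hp, h, ty2])
    let g : Perm Om := swap x₁ x₂ * swap x₂ p
    have hg : g ∈ G := G.mul_mem (hG _ _ hl) (hG _ _ (by rw [hpl, hl]))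
    have g1 : g x₁ = x₂ := by
      simp only [g, Perm.mul_apply, swap_apply_of_ne_of_ne hne.symm p1.symm, swap_apply_left]
    have g2 : g x₂ = p := by
      simp only [g, Perm.mul_apply, swap_apply_left, swap_apply_of_ne_of_ne p1 p2]
    have g3 : g p = x₁ := by
      simp only [g, Perm.mul_apply, swap_apply_right]
    have g4 : g y₁ = y₁ := by
      simp only [g, Perm.mul_apply, swap_apply_of_ne_of_ne hne'.symm p3.symm,
        swap_apply_of_ne_of_ne h1 hne'.symm]
    have g5 : g y₂ = y₂ := by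
      simp only [g, Perm.mul_apply, swap_apply_of_ne_of_ne h2 p4.symm,
        swap_apply_of_ne_of_ne e2 h2]
    refine tr_false ht hg (a := x₁) (b := y₁) (c := y₂) (d := p) ?_ ?_ ?_ e2 p1
    · rw [tr_apply g3, hp, g3]
    · rw [tr_apply g4, ty1, g1]
    · rw [tr_apply g5, ty2, g2, hp]
  · push Not at hp
    have hpow : 8 ≤ 2 ^ x₁.length := by
      calc 8 = 2 ^ 3 := rfl
        _ ≤ 2 ^ x₁.length := Nat.pow_le_pow_right (by norm_num) h3
    obtain ⟨x₃, l3, n3⟩ := exists_word x₁.length {x₁, y₁, x₂, y₂} (by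
      have := Finset.card_le_four (a := x₁) (b := y₁) (c := x₂) (d := y₂); omega)
    have m3 := hp x₃ l3
    simp only [Finset.mem_insert, Finset.mem_singleton, not_or] at n3
    obtain ⟨a1, a2, a3, a4⟩ := n3
    set y₃ := t x₃ with hy3
    have ty3 : t y₃ = x₃ := tt _
    obtain ⟨x₄, l4, n4⟩ := exists_word x₁.length {x₁, y₁, x₂, y₂, x₃, y₃} (by
      have := Finset.card_le_six (a := x₁) (b := y₁) (c := x₂) (d := y₂) (e := x₃) (f := y₃)
      omega)
    have m4 := hp x₄ l4
    simp only [Finset.mem_insert, Finset.mem_singleton, not_or] at n4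
    obtain ⟨b1, b2, b3, b4, b5, b6⟩ := n4
    set y₄ := t x₄ with hy4
    have ty4 : t y₄ = x₄ := tt _
    -- `y₃` and `y₄` are different from the `xᵢ`
    have c1 : y₃ ≠ x₁ := fun h => a2 (by rw [← ty3, h])
    have c2 : y₃ ≠ x₂ := fun h => a4 (by rw [← ty3, h])
    have d1 : y₄ ≠ x₁ := fun h => b2 (by rw [← ty4, h])
    have d2 : y₄ ≠ x₂ := fun h => b4 (by rw [← ty4, h])
    have d3 : y₄ ≠ x₃ := fun h => b6 (by rw [← ty4, h])
    let g : Perm Om := swap x₁ x₂ * (swap x₂ x₃ * swap x₃ x₄)
    have hg : g ∈ G := G.mul_mem (hG _ _ hl) (G.mul_mem (hG _ _ (by rw [l3, hl]))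
      (hG _ _ (by rw [l3, l4])))
    have g1 : g x₁ = x₂ := by
      simp only [g, Perm.mul_apply, swap_apply_of_ne_of_ne (Ne.symm a1) (Ne.symm b1),
        swap_apply_of_ne_of_ne hne.symm (Ne.symm a1), swap_apply_left]
    have g2 : g x₂ = x₃ := by
      simp only [g, Perm.mul_apply, swap_apply_of_ne_of_ne (Ne.symm a3) (Ne.symm b3),
        swap_apply_left, swap_apply_of_ne_of_ne a1 a3]
    have g3 : g x₃ = x₄ := by
      simp only [g, Perm.mul_apply, swap_apply_left, swap_apply_of_ne_of_ne b3 b5,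
        swap_apply_of_ne_of_ne b1 b3]
    have g4 : g x₄ = x₁ := by
      simp only [g, Perm.mul_apply, swap_apply_right]
    have k2 : g y₂ = y₂ := by
      simp only [g, Perm.mul_apply, swap_apply_of_ne_of_ne (Ne.symm a4) (Ne.symm b4),
        swap_apply_of_ne_of_ne h2 (Ne.symm a4), swap_apply_of_ne_of_ne e2 h2]
    have k3 : g y₃ = y₃ := by
      simp only [g, Perm.mul_apply, swap_apply_of_ne_of_ne m3 (Ne.symm b6),
        swap_apply_of_ne_of_ne c2 m3, swap_apply_of_ne_of_ne c1 c2]
    have k4 : g y₄ = y₄ := by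
      simp only [g, Perm.mul_apply, swap_apply_of_ne_of_ne d3 m4,
        swap_apply_of_ne_of_ne d2 d3, swap_apply_of_ne_of_ne d1 d2]
    refine tr_false ht hg (a := x₁) (b := x₄) (c := x₃) (d := x₂) ?_ ?_ ?_ a1 hne
    · rw [tr_apply g4, ← hy4, k4, ty4]
    · rw [tr_apply g3, ← hy3, k3, ty3]
    · rw [tr_apply g2, ← hy2, k2, ty2]

/-- An element with the group theoretic property moves at most two long words. -/
theorem moved_long (hG : ∀ x y : Om, x.length = y.length → swap x y ∈ G)
    (hlen : ∀ x, (t x).length = x.length) (ht : Tr G t) {x₁ x₂ : Om} (h1 : t x₁ ≠ x₁)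
    (h2 : t x₂ ≠ x₂) (l1 : 3 ≤ x₁.length) (l2 : 3 ≤ x₂.length) : x₂ = x₁ ∨ x₂ = t x₁ := by
  by_contra hno
  push Not at hno
  obtain ⟨hne, hne'⟩ := hno
  by_cases hl : x₁.length = x₂.length
  · exact moved_same hG ht h1 h2 hl l1 hne hne'
  have tt : ∀ x, t (t x) = x := fun x => by
    have := congrArg (fun u : Perm Om => u x) ht.1
    simpa using this
  set y₁ := t x₁ with hy1
  set y₂ := t x₂ with hy2
  have ty1 : t y₁ = x₁ := tt _
  have ty2 : t y₂ = x₂ := tt _
  have ly1 : y₁.length = x₁.length := hlen _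
  have ly2 : y₂.length = x₂.length := hlen _
  have hpow : ∀ l, 3 ≤ l → 8 ≤ 2 ^ l := fun l hl => by
    calc 8 = 2 ^ 3 := rfl
      _ ≤ 2 ^ l := Nat.pow_le_pow_right (by norm_num) hl
  obtain ⟨p, lp, np⟩ := exists_word x₁.length {x₁, y₁} (by
    have := Finset.card_le_two (a := x₁) (b := y₁)
    have := hpow _ l1; omega)
  obtain ⟨p', lp', np'⟩ := exists_word x₂.length {x₂, y₂} (by
    have := Finset.card_le_two (a := x₂) (b := y₂)
    have := hpow _ l2; omega)
  obtain ⟨q', lq', nq'⟩ := exists_word x₂.length {x₂, y₂, p'} (by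
    have := Finset.card_le_three (a := x₂) (b := y₂) (c := p')
    have := hpow _ l2; omega)
  simp only [Finset.mem_insert, Finset.mem_singleton, not_or] at np np' nq'
  obtain ⟨q1, q2, q3⟩ := nq'
  have tp : t p = p := by
    by_contra h
    exact moved_same hG ht h1 h lp.symm l1 np.1 np.2
  have tp' : t p' = p' := by
    by_contra h
    exact moved_same hG ht h2 h lp'.symm l2 np'.1 np'.2
  have tq' : t q' = q' := by
    by_contra h
    exact moved_same hG ht h2 h lq'.symm l2 q1 q2
  have nel : ∀ {a b : Om}, a.length ≠ b.length → a ≠ b := fun h h' => h (by rw [h'])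
  let g : Perm Om := swap x₁ p * (swap x₂ p' * swap y₂ q')
  have hg : g ∈ G := G.mul_mem (hG _ _ lp.symm) (G.mul_mem (hG _ _ lp'.symm)
    (hG _ _ (by rw [ly2, lq'])))
  have g1 : g x₁ = p := by
    simp only [g, Perm.mul_apply,
      swap_apply_of_ne_of_ne (nel (a := x₁) (b := y₂) (by omega)) (nel (a := x₁) (b := q') (by omega)),
      swap_apply_of_ne_of_ne (nel (a := x₁) (b := x₂) (by omega)) (nel (a := x₁) (b := p') (by omega)),
      swap_apply_left]
  have g2 : g p = x₁ := by
    simp only [g, Perm.mul_apply,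
      swap_apply_of_ne_of_ne (nel (a := p) (b := y₂) (by omega)) (nel (a := p) (b := q') (by omega)),
      swap_apply_of_ne_of_ne (nel (a := p) (b := x₂) (by omega)) (nel (a := p) (b := p') (by omega)),
      swap_apply_right]
  have g3 : g y₁ = y₁ := by
    simp only [g, Perm.mul_apply,
      swap_apply_of_ne_of_ne (nel (a := y₁) (b := y₂) (by omega)) (nel (a := y₁) (b := q') (by omega)),
      swap_apply_of_ne_of_ne (nel (a := y₁) (b := x₂) (by omega)) (nel (a := y₁) (b := p') (by omega)),
      swap_apply_of_ne_of_ne h1 (Ne.symm np.2)]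
  have g4 : g p' = x₂ := by
    simp only [g, Perm.mul_apply, swap_apply_of_ne_of_ne np'.2 (Ne.symm q3), swap_apply_right,
      swap_apply_of_ne_of_ne (nel (a := x₂) (b := x₁) (by omega)) (nel (a := x₂) (b := p) (by omega))]
  have g5 : g q' = y₂ := by
    simp only [g, Perm.mul_apply, swap_apply_right, swap_apply_of_ne_of_ne h2 (Ne.symm np'.2),
      swap_apply_of_ne_of_ne (nel (a := y₂) (b := x₁) (by omega)) (nel (a := y₂) (b := p) (by omega))]
  refine tr_false' ht hg (a := x₁) (b := y₁) (c := p) ?_ ?_ np.1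
    (a' := x₂) (b' := y₂) ?_ ?_ h2
  · rw [tr_apply g2, tp, g2]
  · rw [tr_apply g3, ty1, g1, tp]
  · rw [tr_apply g4, tp', g4]
  · rw [tr_apply g5, tq', g5, ty2]

end moved

end Pool.Agent.PPH
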