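import Pool.Agent.PPH.UnivP
import Pool.Agent.PPH.Gen

/-!
# Universal predicates of the levels, and the universal function if the hierarchy collapses
-/

namespace Pool.Agent.PPH

open Pool.Agent.PPS

variable {α β γ δ : Type} [Rep α] [Rep β] [Rep γ] [Rep δ]

/-- The universal predicates. -/
def UC : ℕ → (D × D × List ℕ) → Prop
  | 0, z => uT ((Cod.dec z.1 : Mch), (z.2.1, z.2.2.headD 0)) = true
  | k + 1, z => ∃ y : D, size y ≤ z.2.2.headD 0 ∧ ¬ UC k (z.1, D.cons z.2.1 y, z.2.2.tail)

theorem PT.headDN {f : α → List ℕ} (hf : PT true f) : PT true (fun a => (f a).headD 0) :=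
  PT.headD' hf (by fun_prop)

theorem Sg.UC (k : ℕ) : Sg k (UC k) := by
  induction k with
  | zero =>
    refine (Sg.of_pt (f := fun z : D × D × List ℕ =>
      uT ((Cod.dec z.1 : Mch), (z.2.1, z.2.2.headD 0))) (pt_uT.comp ?_)).congr (fun z => Iff.rfl)
    have := PT.headDN (f := fun z : D × D × List ℕ => z.2.2) (by fun_prop)
    fun_prop
  | succ k ih =>
    exact ⟨fun z => PPH.UC k (z.1.1, D.cons z.1.2.1 z.2, z.1.2.2.tail), fun z => z.2.2.headD 0,
      PT.headDN (by fun_prop), ih.pre (f := fun z : (D × D × List ℕ) × D =>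
        (z.1.1, D.cons z.1.2.1 z.2, z.1.2.2.tail)) (by fun_prop), fun z => Iff.rfl⟩

/-- Sufficiently large paddings. -/
def Gd (c : ℕ) : ℕ → ℕ → List ℕ → Prop
  | 0, s, L => (s + 2) ^ c ≤ L.headD 0
  | k + 1, s, L => (s + 2) ^ c ≤ L.headD 0 ∧ Gd c k (s + L.headD 0 + 1) L.tail

theorem Gd.head {c k s : ℕ} {L : List ℕ} (h : Gd c k s L) : (s + 2) ^ c ≤ L.headD 0 := by
  cases k with
  | zero => exact h
  | succ k => exact h.1

theorem Gd.mono {c c' k s s' : ℕ} {L : List ℕ} (h : Gd c' k s' L) (hc : c ≤ c') (hs : s ≤ s') :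
    Gd c k s L := by
  induction k generalizing s s' L with
  | zero =>
    exact ((Nat.pow_le_pow_left (by omega) c).trans (Nat.pow_le_pow_right (by omega) hc)).trans h
  | succ k ih =>
    exact ⟨((Nat.pow_le_pow_left (by omega) c).trans
      (Nat.pow_le_pow_right (by omega) hc)).trans h.1, ih h.2 (by omega)⟩

theorem poly_le_pow (p : Polynomial ℕ) : ∃ c, ∀ n, p.eval n ≤ (n + 2) ^ c := by
  induction p using Polynomial.induction_on' with
  | add p q hp hq =>
    obtain ⟨c, hc⟩ := hp
    obtain ⟨d, hd⟩ := hq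
    refine ⟨c + d + 1, fun n => ?_⟩
    rw [Polynomial.eval_add]
    have h1 : (n + 2) ^ c ≤ (n + 2) ^ (c + d) := Nat.pow_le_pow_right (by omega) (by omega)
    have h2 : (n + 2) ^ d ≤ (n + 2) ^ (c + d) := Nat.pow_le_pow_right (by omega) (by omega)
    have h3 : 2 * (n + 2) ^ (c + d) ≤ (n + 2) ^ (c + d + 1) := by
      rw [pow_succ, mul_comm]
      exact Nat.mul_le_mul_left _ (by omega)
    have := hc n
    have := hd n
    omega
  | monomial k a =>
    refine ⟨a + k, fun n => ?_⟩
    rw [Polynomial.eval_monomial, pow_add]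
    refine Nat.mul_le_mul ?_ (Nat.pow_le_pow_left (by omega) k)
    calc a ≤ 2 ^ a := Nat.lt_two_pow_self.le
      _ ≤ (n + 2) ^ a := Nat.pow_le_pow_left (by omega) a

theorem UC_complete {k : ℕ} {p : α → Prop} (hp : Sg k p) :
    ∃ (e : D) (c : ℕ), ∀ a L, Gd c k (size a) L → (p a ↔ UC k (e, Rep.rep a, L)) := by
  induction k generalizing α with
  | zero =>
    obtain ⟨f, hf, e⟩ := hp
    obtain ⟨M, P, hM⟩ := uT_complete hf
    obtain ⟨c, hc⟩ := poly_le_pow P
    refine ⟨Rep.rep M, c, fun a L hL => ?_⟩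
    have h1 : (size a + 2) ^ c ≤ L.headD 0 := hL
    rw [e, ← hM a (L.headD 0) ((hc _).trans h1)]
    simp only [UC, Cod.dec_rep]
  | succ k ih =>
    obtain ⟨q, b, hb, hq, e⟩ := hp
    have h1 : Sg k (fun z : α × D => q z ∨ b z.1 < size z.2) :=
      hq.or (Sg.of_dec (PT.decideLt (hb.comp PT.fst) (by fun_prop)))
    obtain ⟨u, c, hu⟩ := ih h1
    obtain ⟨P, hP⟩ := hb.exists_size_le
    obtain ⟨d, hd⟩ := poly_le_pow P
    refine ⟨u, c + d, fun a L hL => ?_⟩
    have h2 : b a ≤ L.headD 0 := by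
      have h3 := hP a
      rw [size_nat] at h3
      have h4 := hd (size a)
      have h5 : (size a + 2) ^ d ≤ (size a + 2) ^ (c + d) :=
        Nat.pow_le_pow_right (by omega) (by omega)
      have h6 := hL.1
      omega
    have h3 : ∀ y : D, size y ≤ L.headD 0 →
        (q (a, y) ∨ b a < size y ↔ UC k (u, D.cons (Rep.rep a) y, L.tail)) := by
      intro y hy
      refine hu (a, y) L.tail (hL.2.mono (by omega) ?_)
      rw [size_pair]
      omega
    rw [e]
    show _ ↔ ∃ y : D, size y ≤ L.headD 0 ∧ ¬ UC k (u, D.cons (Rep.rep a) y, L.tail)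
    constructor
    · rintro ⟨y, hy, hq⟩
      refine ⟨y, by omega, ?_⟩
      rw [← h3 y (by omega)]
      rintro (h | h)
      · exact hq h
      · omega
    · rintro ⟨y, hy, hn⟩
      rw [← h3 y hy] at hn
      simp only [not_or, not_lt] at hn
      exact ⟨y, hn.2, hn.1⟩

/-! ### Paddings -/

/-- Extension of a padding. -/
def padFrom : List Bool → Om → List ℕ → List ℕ
  | [], _, P => P
  | b :: w, x, P => padStep b x (padFrom w x P)

theorem padFrom_append (w w' : List Bool) (x : Om) (P : List ℕ) :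
    padFrom (w ++ w') x P = padFrom w x (padFrom w' x P) := by
  induction w with
  | nil => rfl
  | cons b w ih => rw [List.cons_append, padFrom, ih, padFrom]

theorem padW_eq (w : List Bool) (x : Om) : padW w x = padFrom w x [] := by
  induction w with
  | nil => rfl
  | cons b w ih => rw [padW, padFrom, ih]

theorem padFrom_sq (j : ℕ) (x : Om) (h : ℕ) (P : List ℕ) :
    padFrom (List.replicate j false) x (h :: P) = (h ^ (2 ^ j)) :: P := by
  induction j with
  | zero => simp [padFrom]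
  | succ j ih =>
    rw [List.replicate_succ, padFrom, ih]
    show (h ^ 2 ^ j * h ^ 2 ^ j) :: P = _
    rw [← pow_add, pow_succ, mul_two]

/-- One element of a padding. -/
theorem padFrom_one (j : ℕ) (x : Om) (P : List ℕ) :
    padFrom (List.replicate j false ++ [true]) x P = ((size x + size P + 2) ^ (2 ^ j)) :: P := by
  rw [padFrom_append]
  exact padFrom_sq j x _ P

theorem exists_pad (c : ℕ) (hc : 1 ≤ c) (k : ℕ) : ∃ w : List Bool, ∀ (x : Om) (P : List ℕ) (s : ℕ),
    s ≤ (size x + size P + 2) ^ c → ∃ L : List ℕ, padFrom w x P = L.reverse ++ P ∧ Gd c k s L := by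
  -- the length of one block of squarings
  obtain ⟨j, hj⟩ : ∃ j : ℕ, (c + 1) * c ≤ 2 ^ j := ⟨(c + 1) * c, Nat.lt_two_pow_self.le⟩
  have blk : ∀ (x : Om) (P : List ℕ) (s : ℕ), s ≤ (size x + size P + 2) ^ c →
      (s + 2) ^ c ≤ (size x + size P + 2) ^ (2 ^ j) := by
    intro x P s hs
    set n := size x + size P + 2
    have h1 : s + 2 ≤ n ^ (c + 1) := by
      have h2 : 2 ≤ n := by omega
      have h3 : n ≤ n ^ c := by
        calc n = n ^ 1 := (pow_one n).symm
          _ ≤ n ^ c := Nat.pow_le_pow_right (by omega) hc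
      have h4 : n ^ c * 2 ≤ n ^ (c + 1) := by
        rw [pow_succ]; exact Nat.mul_le_mul_left _ h2
      omega
    calc (s + 2) ^ c ≤ (n ^ (c + 1)) ^ c := Nat.pow_le_pow_left h1 c
      _ = n ^ ((c + 1) * c) := (pow_mul _ _ _).symm
      _ ≤ n ^ (2 ^ j) := Nat.pow_le_pow_right (by omega) hj
  induction k with
  | zero =>
    refine ⟨List.replicate j false ++ [true], fun x P s hs => ⟨[(size x + size P + 2) ^ (2 ^ j)], ?_, ?_⟩⟩
    · rw [padFrom_one]; rfl
    · exact blk x P s hs
  | succ k ih =>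
    obtain ⟨w, hw⟩ := ih
    refine ⟨w ++ (List.replicate j false ++ [true]), fun x P s hs => ?_⟩
    rw [padFrom_append, padFrom_one]
    have h1 := blk x P s hs
    set t := (size x + size P + 2) ^ (2 ^ j) with ht
    have h2 : s + 2 ≤ t := by
      refine le_trans ?_ h1
      calc s + 2 = (s + 2) ^ 1 := (pow_one _).symm
        _ ≤ (s + 2) ^ c := Nat.pow_le_pow_right (by omega) hc
    obtain ⟨L, h3, h4⟩ := hw x (t :: P) (s + t + 1) (by
      have h5 : s + t + 1 ≤ size x + size (t :: P) + 2 := by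
        rw [size_cons, size_nat]; omega
      refine h5.trans ?_
      calc size x + size (t :: P) + 2 = (size x + size (t :: P) + 2) ^ 1 := (pow_one _).symm
        _ ≤ (size x + size (t :: P) + 2) ^ c := Nat.pow_le_pow_right (by omega) hc)
    refine ⟨t :: L, ?_, h1, h4⟩
    rw [h3]
    simp

/-- The hierarchy collapses to level `K`. -/
def Coll (K : ℕ) : Prop := ∀ p : Om → Prop, PHp p → Sg K p

theorem Coll.typed [Cod α] {K : ℕ} (h : Coll K) {p : α → Prop} (hp : PHp p) : Sg K p := by
  have h1 : PHp (fun x : Om => p (Cod.dec (decodeD x))) :=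
    hp.pre (f := fun x : Om => (Cod.dec (decodeD x) : α)) (by fun_prop)
  have h2 := (h _ h1).pre (f := fun a : α => code a) (by fun_prop)
  refine h2.congr (fun a => ?_)
  rw [decodeD_codeT, Cod.dec_rep]

/-- The universal function for the code extracted by `x`. -/
noncomputable def uF (K : ℕ) (x : D → D) : (Om × Om) × List ℕ → Om := fun z =>
  og (pick (fun v : ((Om × Om) × List ℕ) × Om => UC K (x (decodeD v.1.1.1),
    D.cons (Rep.rep v.1.1.2) (Rep.rep v.2), v.1.2.reverse)) (fun z => size z.2) z)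

theorem FH.uF (K : ℕ) {x : D → D} (hx : PT true x) : FH (uF K x) := by
  have h1 : PHp (fun v : ((Om × Om) × List ℕ) × Om => UC K (x (decodeD v.1.1.1),
      D.cons (Rep.rep v.1.1.2) (Rep.rep v.2), v.1.2.reverse)) := by
    refine PHp.pre (f := fun v : ((Om × Om) × List ℕ) × Om => (x (decodeD v.1.1.1),
      D.cons (Rep.rep v.1.1.2) (Rep.rep v.2), v.1.2.reverse)) ⟨K, Sg.UC K⟩ ?_
    have : PT true (fun v : ((Om × Om) × List ℕ) × Om => x (decodeD v.1.1.1)) :=
      hx.comp (by fun_prop)
    fun_prop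
  exact (FH.pick h1 (b := fun z => size z.2) (by fun_prop)).pt PT.og'

theorem uF_spec {K : ℕ} {f : Om → Om} {e : D} {c : ℕ}
    (he : ∀ (z : Om × Om) L, Gd c K (size z) L → (f z.1 = z.2 ↔ UC K (e, Rep.rep z, L)))
    {x : D → D} {E : Om} (hx : x (decodeD E) = e) {y : Om} {P : List ℕ}
    (hP : Gd c K (size y + size (f y) + 1) P.reverse) (hs : size (f y) ≤ size P) :
    uF K x ((E, y), P) = f y := by
  have h1 : ∀ y', size y' ≤ size (f y) → (f y = y' ↔ UC K (e, Rep.rep (y, y'), P.reverse)) := by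
    intro y' hy'
    refine he (y, y') _ (hP.mono le_rfl ?_)
    rw [size_pair]; omega
  have h2 : pick (fun v : ((Om × Om) × List ℕ) × Om => UC K (x (decodeD v.1.1.1),
      D.cons (Rep.rep v.1.1.2) (Rep.rep v.2), v.1.2.reverse)) (fun z => size z.2)
      ((E, y), P) = some (f y) := by
    rw [pick_eq_some_iff]
    simp only [hx]
    refine ⟨⟨hs, (h1 (f y) le_rfl).1 rfl⟩, ?_⟩
    rintro y' ⟨-, h3⟩
    by_contra hlt
    push Not at hlt
    have h4 := (h1 y' (size_le_of_rank_le hlt.le)).2 h3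
    rw [h4] at hlt
    omega
  unfold uF
  rw [h2]
  rfl

theorem univ_of_coll {K : ℕ} (hK : Coll K) : Univ (uF K hd) (uF K tl) := by
  intro f g hf hg
  obtain ⟨e1, c1, h1⟩ := UC_complete (hK.typed hf.graph)
  obtain ⟨e2, c2, h2⟩ := UC_complete (hK.typed hg.graph)
  obtain ⟨b1, hb1, hb1'⟩ := hf.bound
  obtain ⟨b2, hb2, hb2'⟩ := hg.bound
  obtain ⟨P, hP⟩ := (show PT true (fun x => size x + b1 x + b2 x + 1) by fun_prop).exists_size_le
  obtain ⟨d, hd'⟩ := poly_le_pow P
  obtain ⟨w, hw⟩ := exists_pad (c1 + c2 + d + 1) (by omega) K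
  refine ⟨code (D.cons e1 e2), w, fun x => ?_⟩
  have hdec : decodeD (code (D.cons e1 e2)) = D.cons e1 e2 := decodeD_codeT _
  obtain ⟨L, h3, h4⟩ := hw x [] (size x + b1 x + b2 x + 1) (by
    have h5 := hP x
    rw [size_nat] at h5
    have h6 := hd' (size x)
    have h7 : (size x + 2) ^ d ≤ (size x + size ([] : List ℕ) + 2) ^ (c1 + c2 + d + 1) :=
      (Nat.pow_le_pow_left (by omega) d).trans (Nat.pow_le_pow_right (by omega) (by omega))
    omega)
  rw [List.append_nil, ← padW_eq] at h3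
  have h5 : (padW w x).reverse = L := by rw [h3, List.reverse_reverse]
  have h6 : size x + b1 x + b2 x + 1 ≤ size (padW w x) := by
    have h7 := h4.head
    have h8 : L ≠ [] := by
      rintro rfl
      have : 0 < (size x + b1 x + b2 x + 1 + 2) ^ (c1 + c2 + d + 1) := by positivity
      simp only [List.headD_nil] at h7
      omega
    obtain ⟨t, L', rfl⟩ := List.exists_cons_of_ne_nil h8
    have h9 : t ∈ padW w x := by rw [h3]; simp
    have h10 := size_le_of_mem h9
    rw [size_nat] at h10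
    simp only [List.headD_cons] at h7
    have h11 : size x + b1 x + b2 x + 1 + 2 ≤
        (size x + b1 x + b2 x + 1 + 2) ^ (c1 + c2 + d + 1) := by
      calc size x + b1 x + b2 x + 1 + 2 = (size x + b1 x + b2 x + 1 + 2) ^ 1 := (pow_one _).symm
        _ ≤ _ := Nat.pow_le_pow_right (by omega) (by omega)
    omega
  constructor
  · refine uF_spec h1 (x := hd) (by rw [hdec]; rfl) ?_ ?_
    · rw [h5]
      exact h4.mono (by omega) (by have := hb1' x; omega)
    · have := hb1' x; omega
  · refine uF_spec h2 (x := tl) (by rw [hdec]; rfl) ?_ ?_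
    · rw [h5]
      exact h4.mono (by omega) (by have := hb2' x; omega)
    · have := hb2' x; omega

/-- If the hierarchy collapses then the group is finitely generated. -/
theorem fg_of_coll {K : ℕ} (hK : Coll K) : BH.FG :=
  fg_of_univ (FH.uF K (by fun_prop)) (FH.uF K (by fun_prop)) (univ_of_coll hK)

end Pool.Agent.PPH
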