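import Pool.Agent.H9.Universal
import Pool.Agent.PPH.FH

/-!
# A universal predicate for polynomial time
-/

namespace Pool.Agent.PPH

open Pool.Agent.PPS Pool.Agent.H9

variable {α β γ δ : Type} [PPS.Rep α] [PPS.Rep β] [PPS.Rep γ] [PPS.Rep δ]

/-- Every polynomial-time predicate is decided by iterating a row system polynomially often. -/
theorem exists_rowSysT {f : α → Bool} (hf : PT true f) :
    ∃ (ι : Type) (_ : DecidableEq ι) (_ : Finite ι) (P : Type) (_ : Finite P)
      (m : P → Instr ι (Option P)) (io : ι) (p₀ : P) (p : Polynomial ℕ),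
      (∀ n, n ≤ p.eval n) ∧
      ∀ x n k, p.eval (size x) < n → p.eval (size x) ≤ k →
        ((flowSys m io).Acc ((flowSys m io).step^[k]
          (rowOf n (some p₀, one io (code x)))) ↔ f x = true) := by
  obtain ⟨I⟩ := hf.impl
  refine ⟨I.ι, I.dec, I.fin, I.c.Pos, inferInstance, I.c.instr, I.io, I.c.entry, I.p, I.le, ?_⟩
  intro a n K hn hK
  let c := I.c.instr
  let x₀ : Option I.c.Pos × Store I.ι := (some I.c.entry, one I.io (code a))
  obtain ⟨T, ⟨t, htT, hE⟩, hT⟩ := I.spec a
  have hT := hT rfl
  have hS0 : ∀ i, (one I.io (code a) i).length ≤ I.p.eval (size a) := by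
    intro i
    simp only [one]
    split_ifs
    · exact I.le _
    · simp
  have hflow0 := Prog.flowRun_of_exec hE (Prog.embeds_self I.c) hS0
  have hflow1 : (fstep c)^[t] x₀ = (none, one I.io (code (f a))) := hflow0.1
  have hflow2 : ∀ j ≤ t, ∀ i, (((fstep c)^[j] x₀).2 i).length ≤ I.p.eval (size a) :=
    hflow0.2
  have hstay : ∀ j, t ≤ j → (fstep c)^[j] x₀ = (fstep c)^[t] x₀ := by
    intro j hj
    obtain ⟨d, rfl⟩ := Nat.exists_eq_add_of_le hj
    rw [Nat.add_comm, Function.iterate_add_apply, hflow1]
    exact fstep_iterate_none c _ d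
  have hbd : ∀ j i, (((fstep c)^[j] x₀).2 i).length ≤ n := by
    intro j i
    rcases le_total j t with h | h
    · exact (hflow2 j h i).trans hn.le
    · rw [hstay j h]
      exact (hflow2 t le_rfl i).trans hn.le
  have hn0 : 0 < n := by omega
  have hrow : (flowSys c I.io).step^[K] (rowOf n x₀) =
      rowOf n ((none : Option I.c.Pos), one I.io (code (f a))) := by
    rw [iterate_step_rowOf c I.io n x₀ hbd, hstay _ (by omega), hflow1]
  have hgoal : ((flowSys c I.io).Acc ((flowSys c I.io).step^[K]
      (rowOf n x₀)) ↔ f a = true) := by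
    rw [hrow]
    unfold RowSys.Acc
    have hh : (rowOf n ((none : Option I.c.Pos), one I.io (code (f a)))).head? =
        some (emb (colOf ((none : Option I.c.Pos), one I.io (code (f a))) 0)) := by
      obtain ⟨n', rfl⟩ := Nat.exists_eq_succ_of_ne_zero hn0.ne'
      simp [rowOf, List.range_succ_eq_map]
    rw [hh]
    simp only [Option.some.injEq, forall_eq']
    simp only [flowSys, unemb_emb, colOf, one, if_true, decide_eq_true_eq]
    cases hfa : f a
    · simp [code_false]
    · simp [code_true]
  exact hgoal

/-- Data of a machine: transition table, acceptance table, codes of the letters. -/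
abbrev Mch := (List (Key × ℕ) × List (ℕ × ℕ)) × (ℕ × (ℕ × ℕ))

/-- The initial row. -/
def row0 (e : Mch) (d : D) (t : ℕ) : List ℕ :=
  (code d).map (fun b => bif b then e.2.1 else e.2.2.1) ++
    List.replicate (t - (code d).length) e.2.2.2

/-- The universal predicate. -/
def uT (z : Mch × (D × ℕ)) : Bool :=
  decide (look z.1.1.2 (((ustep z.1.1.1)^[z.2.2] (row0 z.1 z.2.1 z.2.2)).headD 0) = 1)

theorem length_row0_le (e : Mch) (d : D) (t : ℕ) : (row0 e d t).length ≤ size d + t := by
  simp only [row0, List.length_append, List.length_map, List.length_replicate, size]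
  omega

theorem PT.row0' : PT true (fun z : Mch × (D × ℕ) => row0 z.1 z.2.1 z.2.2) := by
  have h1 : PT true (fun z : (Mch × (D × ℕ)) × Bool => bif z.2 then z.1.1.2.1 else z.1.1.2.2.1) := by
    fun_prop
  have h2 := PT.map' (m := true) (l := fun z : Mch × (D × ℕ) => code z.2.1) (by fun_prop) h1
  unfold row0
  fun_prop

theorem pt_uT : PT true uT := by
  obtain ⟨p, hp⟩ := PT.row0'.exists_size_le
  have h1 := PT.iterate (m := true) (α := Mch × (D × ℕ)) (σ := List ℕ)
    (n := fun z => z.2.2) (ini := fun z => row0 z.1 z.2.1 z.2.2)
    (s := fun z => ustep z.1.1.1.1 z.2) (by fun_prop) PT.row0'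
    (PT.ustep' (by fun_prop) (by fun_prop))
    (p + Polynomial.X * (Polynomial.X + 1) + 1) (by
      intro z k hk
      refine (size_iterate_ustep z.1.1.1 (row0 z.1 z.2.1 z.2.2) k).trans ?_
      have h2 := hp z
      have h3 := length_row0_le z.1 z.2.1 z.2.2
      have h4 : size z = ((size z.1.1.1 + size z.1.1.2 + 1) + size z.1.2 + 1) +
          (size z.2.1 + (2 * z.2.2 + 1) + 1) + 1 := by
        obtain ⟨⟨⟨a, b⟩, c⟩, d, e⟩ := z
        rw [size_pair, size_pair (a, b) c, size_pair a b, size_pair d e, size_nat]
      simp only [Polynomial.eval_add, Polynomial.eval_mul, Polynomial.eval_X,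
        Polynomial.eval_one]
      have h5 : (row0 z.1 z.2.1 z.2.2).length * (size z.1.1.1 + 1) ≤ size z * (size z + 1) :=
        Nat.mul_le_mul (by omega) (by omega)
      omega)
  have h3 : PT true (fun z : Mch × (D × ℕ) =>
      look z.1.1.2 (((ustep z.1.1.1)^[z.2.2] (row0 z.1 z.2.1 z.2.2)).headD 0)) :=
    PT.look' (by fun_prop) (PT.headD' h1 (by fun_prop))
  exact PT.decideEq h3 (by fun_prop)

/-- Completeness of the universal predicate. -/
theorem uT_complete {f : α → Bool} (hf : PT true f) :
    ∃ (e : Mch) (p : Polynomial ℕ), ∀ a t, p.eval (size a) ≤ t →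
      uT (e, (PPS.Rep.rep a, t)) = f a := by
  obtain ⟨ι, _, _, P, _, m, io, p₀, p, hp, hspec⟩ := exists_rowSysT hf
  let R := flowSys m io
  let cw : Option Bool → ℕ := fun o => num (emb ((some p₀, fun i => if i = io then o else none) : X ι P))
  refine ⟨((tabT R, tabA R), (cw (some true), (cw (some false), cw none))), p + 1, ?_⟩
  intro x t ht
  simp only [Polynomial.eval_add, Polynomial.eval_one] at ht
  have hcd : code (PPS.Rep.rep x : D) = code x := rfl
  have hrow : row0 ((tabT R, tabA R), (cw (some true), (cw (some false), cw none)))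
      (PPS.Rep.rep x) t = (rowOf t (some p₀, one io (code x))).map num := by
    have hlen : (code x).length ≤ t := by
      have := hp (size x)
      show size x ≤ _
      omega
    unfold row0
    rw [hcd]
    symm
    apply List.ext_getElem
    · simp; omega
    · intro j h1 h2
      have hj : j < t := by simpa using h1
      have e1 : ((rowOf t (some p₀, one io (code x))).map num)[j] =
          cw ((code x)[j]?) := by
        simp only [rowOf, List.getElem_map, List.getElem_range, cw]
        congr 2
        unfold colOf one
        simp only [Prod.mk.injEq, true_and]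
        funext i
        split_ifs <;> simp
      rw [e1]
      by_cases hjl : j < (code x).length
      · rw [List.getElem_append_left (by simpa using hjl)]
        simp only [List.getElem_map]
        rw [List.getElem?_eq_getElem hjl]
        cases (code x)[j] <;> rfl
      · rw [List.getElem_append_right (by simpa using hjl)]
        simp only [List.getElem_replicate]
        rw [List.getElem?_eq_none (by omega)]
  rw [Bool.eq_iff_iff, ← hspec x t t (by omega) (by omega)]
  unfold uT
  simp only [hrow, decide_eq_true_eq]
  rw [iterate_ustep_map]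
  have hl : (R.step^[t] (rowOf t (some p₀, one io (code x)))).length = t := by
    rw [RowSys.length_iterate_step, length_rowOf]
  show look (tabA R) (((R.step^[t] (rowOf t (some p₀, one io (code x)))).map num).headD 0) = 1 ↔
    R.Acc (R.step^[t] (rowOf t (some p₀, one io (code x))))
  generalize R.step^[t] (rowOf t (some p₀, one io (code x))) = r' at hl
  cases r' with
  | nil =>
    exfalso
    simp only [List.length_nil] at hl
    omega
  | cons c r' =>
    simp only [List.map_cons, List.headD_cons]
    rw [look_tabA]
    unfold RowSys.Acc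
    simp

end Pool.Agent.PPH
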